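import Pool.Agent.Lib.MP_0087d5_lcMT.MDefs

/-!
# Search with few random bits: small weights with the same perfect matchings of least weight (definitions)

All weights of perfect matchings are counted twice (`MTC.tw`).
-/

set_option autoImplicit false
set_option linter.all false

namespace QSR

open Finset MTC

section
variable {V : Type} [Fintype V] [DecidableEq V]

/-- the graph without the vertices `v` and `b`, which are joined to each other instead; the graph itself if `v = b` -/
def Am (A : V → V → Prop) (v b x y : V) : Prop :=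
  (v = b ∧ A x y) ∨ (v ≠ b ∧ ((A x y ∧ x ≠ v ∧ x ≠ b ∧ y ≠ v ∧ y ≠ b) ∨ (x = v ∧ y = b) ∨ (x = b ∧ y = v)))

/-- the weights, with weight `0` for the pair `v b` if `v ≠ b` -/
def um (u : V → V → ℕ) (v b x y : V) : ℕ := if v ≠ b ∧ ((x = v ∧ y = b) ∨ (x = b ∧ y = v)) then 0 else u x y

/-- `c` is the least weight of the perfect matchings of `A` -/
def LW (A : V → V → Prop) (u : V → V → ℕ) (c : ℕ) : Prop := (∃ f, IsPM A f ∧ tw u f = c) ∧ ∀ f, IsPM A f → c ≤ tw u f

/-- `c` is the least weight of the perfect matchings of the graphs `A` without `v` and one more vertex `b` -/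
def MU (A : V → V → Prop) (u : V → V → ℕ) (v : V) (c : ℕ) : Prop :=
  (∃ b, b ≠ v ∧ LW (Am A v b) (um u v b) c) ∧ ∀ b c', b ≠ v → LW (Am A v b) (um u v b) c' → c ≤ c'

/-- `d` is the value `f` of the pair `x y` -/
def FV (A : V → V → Prop) (u : V → V → ℕ) (x y : V) (d : ℕ) : Prop := ∃ c c', MU A u x c ∧ MU A u y c' ∧ d = 2 * u x y + c + c'

/-- the edge `x y` is in a perfect matching of least weight -/
def HH (A : V → V → Prop) (u : V → V → ℕ) (x y : V) : Prop :=
  A x y ∧ ∃ c c0, LW (Am A x y) (um u x y) c ∧ LW A u c0 ∧ c + 2 * u x y = c0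

/-- the number of the values of `f` on the edges of the perfect matchings of least weight which are smaller than the value at `x y` -/
noncomputable def rkn (A : V → V → Prop) (u : V → V → ℕ) (x y : V) : ℕ :=
  Nat.card {d : ℕ // (∃ a b, HH A u a b ∧ FV A u a b d) ∧ ∃ d', FV A u x y d' ∧ d < d'}

/-- the weights of the stage with the parameter `r`, from the ranks `ρ` -/
def UU (K m : ℕ) (e : V → V → ℕ) (r : ℕ) (ρ : V → V → ℕ) (x y : V) : ℕ := K * ρ x y + r ^ e x y % m

/-- the states: a graph and the ranks of its edges -/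
noncomputable def St (T : V → V → Prop) (e : V → V → ℕ) (K m : ℕ) (r : ℕ → ℕ) : ℕ → (V → V → Prop) × (V → V → ℕ)
  | 0 => (T, fun _ _ => 0)
  | i + 1 => (HH (St T e K m r i).1 (UU K m e (r i) (St T e K m r i).2), rkn (St T e K m r i).1 (UU K m e (r i) (St T e K m r i).2))

/-- isolating weights of `K ^ i` … (the same recursion as `QIS.WS` and `QRB.WS`) -/
def WS (e : V → V → ℕ) (K m : ℕ) (r : ℕ → ℕ) : ℕ → V → V → ℕ
  | 0, _, _ => 0
  | i + 1, u, v => K * WS e K m r i u v + r i ^ e u v % m

end

end QSR
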