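import Pool.Agent.Lib.MP_0087d5_lcQB.Q10
import Pool.Agent.Lib.MP_0087d5_lcQS.CDefs

/-!
# Search with few random bits: the algorithm

`X` is a graph on `Fin N` (`pair G A`), `L = Nat.log 2 N`. Rows `i < 2 L`: the numbers `r_i = num 4 a X i` of the stages. Rows `2 L ≤ j < 4 L`: the numbers `num 4 a X j`, `num a b X j` of the test. The parameters are `q = (K, m, p)`.
A state is a relation `P x y z`: `x y` is an edge of the current graph, and `z` is its rank.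
-/

set_option autoImplicit false
set_option linter.all false

namespace QSR

open Finset Pool.Agent Pool.Agent.PMNC MTC LIN PRS QRB

section
variable {N : ℕ}

/-- signs of the edges of a relation -/
noncomputable def zBr (A : Fin N → Fin N → Prop) (x y : Fin N) : ℤ := cnd (A x y) (cnd (x < y) 1 (-1)) 0

/-- the substituted numbers -/
noncomputable def zY (a b m : ℕ) (X : SimpleGraph (Fin N)) (x y : Fin N) : ℤ :=
  ∏ j : Fin N, cnd ((¬ (j : ℕ) < 2 * Nat.log 2 N) ∧ (j : ℕ) < 4 * Nat.log 2 N) (num a b X j ^ rz m (num 4 a X j ^ eid x y)) 1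

/-- entries over the polynomials in the variables `x_j`, with exponents `w j x y` -/
noncomputable def bP (p R : ℕ) (A : Fin N → Fin N → Prop) (w : Fin R → Fin N → Fin N → ℕ) (x y : Fin N) : MvPolynomial (Fin R) (ZMod p) :=
  MvPolynomial.C ((zBr A x y : ℤ) : ZMod p) * ∏ j, MvPolynomial.X j ^ w j x y

/-- the entries of the test in `ZMod p` -/
noncomputable def bY (p : ℕ) (A : Fin N → Fin N → Prop) (Y : Fin N → Fin N → ZMod p) (x y : Fin N) : ZMod p := ((zBr A x y : ℤ) : ZMod p) * Y x y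

/-- the coefficient at the least weight is not zero -/
def GoodY (p : ℕ) (A : Fin N → Fin N → Prop) (ω : Fin N → Fin N → ℕ) (Y : Fin N → Fin N → ZMod p) : Prop :=
  ∀ c, LW A ω c → (Pool.Agent.FRC.Uni.wm (bY p A Y) ω).det.coeff c ≠ 0

end

/-- the isolation theorem with a start weight (for the labels `eid`) -/
def IsoMostW (C : ℕ) : Prop :=
  ∀ N : ℕ, 2 ≤ N → ∀ m : ℕ, m.Prime → ∀ K : ℕ, N * m < K → ∀ A : Fin N → Fin N → Prop, (∀ x y, A x y → A y x) → (∀ x, ¬ A x x) → (∃ f, MTC.IsPM A f) →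
    ∀ ω : Fin N → Fin N → ℕ, (∀ x y, ω x y = ω y x) →
    ∃ B : ℕ → (ℕ → ℕ) → Finset ℕ, (∀ i r, (B i r).card ≤ N ^ C) ∧ (∀ i r r', (∀ j < i, r j = r' j) → B i r = B i r') ∧
      ∀ r : ℕ → ℕ, (∀ i < Nat.clog 2 N, r i < m ∧ r i ∉ B i r) → ∃ f, MTC.IsMin A ω f ∧ ∀ f', MTC.IsPM A f' → f' ≠ f →
        MTC.tw (fun x y => K ^ Nat.clog 2 N * ω x y + WS eid K m r (Nat.clog 2 N) x y) f <
          MTC.tw (fun x y => K ^ Nat.clog 2 N * ω x y + WS eid K m r (Nat.clog 2 N) x y) f'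

section
variable {S : ℕ → Type} [Env S] [∀ n, Fintype (S n)] {N : ℕ}

/-- entries of the matrix for the graph of `P` without `v` and `w`, at the number `t` -/
noncomputable def ent (a b K m : ℕ) (X : SimpleGraph (Fin N)) (i : Fin N) (P : Fin N → Fin N → S N → Prop) (v w : Fin N) (t : ℤ) (x y : Fin N) : ℤ :=
  cnd (x < y) 1 (-1) * zY a b m X x y * cnd (¬ v = w ∧ ((x = v ∧ y = w) ∨ (x = w ∧ y = v))) 1
    (cnd (¬ v = w ∧ (x = v ∨ x = w ∨ y = v ∨ y = w)) 0 ((∑ z : S N, cnd (P x y z) ((t ^ K) ^ nv z) 0) * t ^ rz m (num 4 a X i ^ eid x y)))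

/-- the coefficient of `t ^ (p - 1 - e)` of the determinant, up to the sign -/
noncomputable def cfc (a b : ℕ) (X : SimpleGraph (Fin N)) (q : S N × (S N × S N)) (i : Fin N) (P : Fin N → Fin N → S N → Prop) (v w : Fin N) (e : S N) : ℤ :=
  ∑ t : S N, cnd (nv t < nv q.2.2 ∧ ¬ nv t = 0) (((nv t : ℕ) : ℤ) ^ nv e * zdet (T := fun n => Fin n) (ent a b (nv q.1) (nv q.2.1) X i P v w ((nv t : ℕ) : ℤ))) 0

/-- the computed least weight -/
def LwC (a b : ℕ) (X : SimpleGraph (Fin N)) (q : S N × (S N × S N)) (i : Fin N) (P : Fin N → Fin N → S N → Prop) (v w : Fin N) (c : S N) : Prop :=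
  (¬ nv q.2.1 = 0) ∧ (∃ e : S N, (¬ nv e = 0) ∧ nv c + nv e + 1 = nv q.2.2 ∧ nd q.2.2 (cfc a b X q i P v w e)) ∧
    ∀ c' e' : S N, nv c' < nv c → nv c' + nv e' + 1 = nv q.2.2 → ¬ nd q.2.2 (cfc a b X q i P v w e')

def MuC (a b : ℕ) (X : SimpleGraph (Fin N)) (q : S N × (S N × S N)) (i : Fin N) (P : Fin N → Fin N → S N → Prop) (v : Fin N) (c : S N) : Prop :=
  (∃ w, (¬ w = v) ∧ LwC a b X q i P v w c) ∧ ∀ (w : Fin N) (c' : S N), (¬ w = v) → LwC a b X q i P v w c' → nv c ≤ nv c'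

/-- the weight of the pair `x y` -/
def UvC (a : ℕ) (X : SimpleGraph (Fin N)) (q : S N × (S N × S N)) (i : Fin N) (P : Fin N → Fin N → S N → Prop) (x y : Fin N) (d : S N) : Prop :=
  (¬ nv q.2.1 = 0) ∧ nv d < nv q.2.2 ∧ ∃ z : S N, P x y z ∧
    ((nv q.2.2 : ℕ) : ℤ) ∣ ((nv d : ℕ) : ℤ) - (((nv q.1 : ℕ) : ℤ) * ((nv z : ℕ) : ℤ) + ((rz (nv q.2.1) (num 4 a X i ^ eid x y) : ℕ) : ℤ))

def FvC (a b : ℕ) (X : SimpleGraph (Fin N)) (q : S N × (S N × S N)) (i : Fin N) (P : Fin N → Fin N → S N → Prop) (x y : Fin N) (d : S N) : Prop :=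
  ∃ c c' u s1 s2 : S N, MuC a b X q i P x c ∧ MuC a b X q i P y c' ∧ UvC a X q i P x y u ∧ nv u + nv u = nv s1 ∧ nv c + nv c' = nv s2 ∧ nv s1 + nv s2 = nv d

def HhC (a b : ℕ) (X : SimpleGraph (Fin N)) (q : S N × (S N × S N)) (i : Fin N) (P : Fin N → Fin N → S N → Prop) (x y : Fin N) : Prop :=
  ∃ c c0 u s1 : S N, LwC a b X q i P x y c ∧ LwC a b X q i P x x c0 ∧ UvC a X q i P x y u ∧ nv u + nv u = nv s1 ∧ nv c + nv s1 = nv c0

/-- the next state -/
def StC (a b : ℕ) (X : SimpleGraph (Fin N)) (q : S N × (S N × S N)) (i : Fin N) (P : Fin N → Fin N → S N → Prop) (x y : Fin N) (z : S N) : Prop :=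
  HhC a b X q i P x y ∧ nv z = Nat.card {d : S N // (∃ x' y' : Fin N, HhC a b X q i P x' y' ∧ FvC a b X q i P x' y' d) ∧ ∃ d' : S N, FvC a b X q i P x y d' ∧ nv d < nv d'}

/-- one round for all the stages: `R (i, x, y, z)` is the state `i` -/
def opC (a b : ℕ) (X T : SimpleGraph (Fin N)) (q : S N × (S N × S N)) (R : Fin N × (Fin N × (Fin N × S N)) → Prop) (s : Fin N × (Fin N × (Fin N × S N))) : Prop :=
  ((s.1 : ℕ) = 0 ∧ T.Adj s.2.1 s.2.2.1 ∧ nv s.2.2.2 = 0) ∨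
    ∃ j : Fin N, (j : ℕ) + 1 = (s.1 : ℕ) ∧ StC a b X q j (fun x y z => R (j, (x, (y, z)))) s.2.1 s.2.2.1 s.2.2.2

/-- the output: the edges of the state `2 L` -/
def OutR (a b : ℕ) (X T : SimpleGraph (Fin N)) (q : S N × (S N × S N)) (x y : Fin N) : Prop :=
  T.Adj x y ∧ ∃ (i : Fin N) (z : S N), ((¬ (i : ℕ) < 2 * Nat.log 2 N) ∧ ∀ j : Fin N, j < i → (j : ℕ) < 2 * Nat.log 2 N) ∧
    ((opC a b X T q)^[2 * Nat.size N] fun _ => False) (i, (x, (y, z)))

/-- the relation `P` is the graph `A` with the ranks `ρ` -/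
def Rep (P : Fin N → Fin N → S N → Prop) (A : Fin N → Fin N → Prop) (ρ : Fin N → Fin N → ℕ) : Prop := ∀ x y z, P x y z ↔ A x y ∧ nv z = ρ x y

end

section
variable (S : ℕ → Type) [Env S] [∀ n, Fintype (S n)] (a b : ℕ) {N : ℕ}

/-- the least parameters which give a perfect matching of a tested graph `T1 … d` -/
def LsQ (X : SimpleGraph (Fin N)) (e : Fin N × (S N × (S N × S N))) : Prop :=
  PMr (OutR a b X (T1 N X e.1) e.2) ∧ ∀ e' : Fin N × (S N × (S N × S N)), PMr (OutR a b X (T1 N X e'.1) e'.2) →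
    e.1 < e'.1 ∨ (e.1 = e'.1 ∧ nv (S := fun n => S n × (S n × S n)) e.2 ≤ nv (S := fun n => S n × (S n × S n)) e'.2)

/-- the matching in the first half -/
def MQ (X : SimpleGraph (Fin N)) (u v : Fin N) : Prop :=
  lo u ∧ lo v ∧ ∃ e : Fin N × (S N × (S N × S N)), LsQ S a b X e ∧ OutR a b X (T1 N X e.1) e.2 u v

/-- the set `D` of the decomposition of Gallai and Edmonds, in the first half -/
def GQ (X : SimpleGraph (Fin N)) (v : Fin N) : Prop :=
  lo v ∧ ∃ e : Fin N × (S N × (S N × S N)), LsQ S a b X e ∧ ∃ q : S N × (S N × S N), PMr (OutR a b X (T2 N X (e.1, v)) q)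

/-- the set `A` of the decomposition of Gallai and Edmonds, in the first half -/
def UQ (X : SimpleGraph (Fin N)) (w : Fin N) : Prop := lo w ∧ ¬ GQ S a b X w ∧ ∃ u, GQ S a b X u ∧ X.Adj w u

end

end QSR
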