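import Mathlib

/-!
# Compression of weights: the exchange argument

`NP E a g`: `g` is a matching along the edges of `E` which misses exactly the vertex `a`. `WT f g`: twice the weight.
We assume that for each vertex `a` the least weight of a matching which misses exactly `a` is the same number `Z`.
Then for each `α` each least matching has as many edges of weight at most `α` as is possible for a matching which misses one vertex.
-/

set_option autoImplicit false
set_option linter.unusedSectionVars false

namespace QCP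

open Finset

section
variable {X : Type} [Fintype X] [DecidableEq X]

/-- `g` is a matching along `E` which misses exactly `a` -/
def NP (E : X → X → Prop) (a : X) (g : X → X) : Prop := (∀ v, g (g v) = v) ∧ g a = a ∧ ∀ v, v ≠ a → E v (g v)

/-- twice the weight -/
def WT (f : X → X → ℤ) (g : X → X) : ℤ := ∑ v, f v (g v)

/-- the hypotheses: `f` symmetric, `0` on the diagonal; all vertices are missed by matchings of least weight `Z` -/
structure Hyp (E : X → X → Prop) (f : X → X → ℤ) (Z : ℤ) : Prop where
  esymm : ∀ a b, E a b → E b a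
  eirr : ∀ a, ¬ E a a
  symm : ∀ a b, f a b = f b a
  diag : ∀ a, f a a = 0
  ex : ∀ a, ∃ g, NP E a g ∧ WT f g = Z
  le : ∀ a g, NP E a g → Z ≤ WT f g

theorem np_swap {E : X → X → Prop} {a b : X} {g h : X → X} (hg : NP E a g) (hh : NP E b h) (P : Finset X)
    (ha : a ∈ P) (hb : b ∈ P) (cg : ∀ v ∈ P, g v ∈ P) (ch : ∀ v ∈ P, h v ∈ P) :
    NP E b (fun v => if v ∈ P then h v else g v) := by
  refine ⟨fun v => ?_, ?_, fun v hv => ?_⟩
  · by_cases h1 : v ∈ P
    · simp [h1, ch v h1, hh.1 v]
    · have h2 : g v ∉ P := fun h => h1 (by have := cg _ h; rwa [hg.1 v] at this)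
      simp [h1, h2, hg.1 v]
  · simp [hb, hh.2.1]
  · by_cases h1 : v ∈ P
    · simp only [h1, if_true]
      exact hh.2.2 v hv
    · simp only [h1, if_false]
      exact hg.2.2 v fun h => h1 (h ▸ ha)

theorem wt_swap (f : X → X → ℤ) (g h : X → X) (P : Finset X) :
    WT f (fun v => if v ∈ P then h v else g v) + WT f (fun v => if v ∈ P then g v else h v) = WT f g + WT f h := by
  unfold WT
  rw [← sum_add_distrib, ← sum_add_distrib]
  refine sum_congr rfl fun v _ => ?_
  by_cases h1 : v ∈ P
  · simp only [h1, if_true]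
    ring
  · simp only [h1, if_false]

/-- the exchange of two least matchings on a union of components -/
theorem swap_least {E : X → X → Prop} {f : X → X → ℤ} {Z : ℤ} (H : Hyp E f Z) {a b : X} {g h : X → X}
    (hg : NP E a g) (gZ : WT f g = Z) (hh : NP E b h) (hZ : WT f h = Z) (P : Finset X)
    (ha : a ∈ P) (hb : b ∈ P) (cg : ∀ v ∈ P, g v ∈ P) (ch : ∀ v ∈ P, h v ∈ P) :
    WT f (fun v => if v ∈ P then h v else g v) = Z := by
  have h1 := H.le _ _ (np_swap hg hh P ha hb cg ch)
  have h2 := H.le _ _ (np_swap hh hg P hb ha ch cg)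
  have h3 := wt_swap f g h P
  linarith

/-- **The exchange with one new edge.** -/
theorem exch {E : X → X → Prop} {f : X → X → ℤ} {Z : ℤ} (H : Hyp E f Z) {a b : X} {g h : X → X}
    (hg : NP E a g) (gZ : WT f g = Z) (hh : NP E b h) (hZ : WT f h = Z) (hab : E a b) (S : Finset X) (x : X)
    (ha : a ∈ S) (hb : b ∉ S) (ch : ∀ v ∈ S, h v ∈ S) (hx : x ∈ S) (hgx : g x ∉ S) (cg : ∀ v ∈ S, v ≠ x → g v ∈ S) :
    f x (g x) ≤ f a b := by
  have hxa : x ≠ a := by
    rintro rfl
    exact hgx (by rw [hg.2.1]; exact ha)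
  have hne : ∀ v, g v = v → v = a := fun v hv => by
    by_contra h0
    have := hg.2.2 v h0
    rw [hv] at this
    exact H.eirr v this
  have hba : b ≠ a := fun h0 => hb (h0 ▸ ha)
  have chc : ∀ v, v ∉ S → h v ∉ S := fun v hv h0 => hv (by have := ch _ h0; rwa [hh.1 v] at this)
  set N1 : X → X := fun v => if v ∈ S then (if v = a then b else if v = x then x else g v) else (if v = b then a else h v) with hN1
  set N2 : X → X := fun v => if v ∈ S then h v else (if v = g x then v else g v) with hN2
  have e1 : NP E x N1 := by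
    refine ⟨fun v => ?_, ?_, fun v hv => ?_⟩
    · by_cases h1 : v ∈ S
      · by_cases h2 : v = a
        · subst h2
          have h3 : N1 v = b := by simp [hN1, h1]
          rw [h3]
          simp [hN1, hb]
        · by_cases h3 : v = x
          · subst h3
            have h4 : N1 v = v := by simp [hN1, h1, h2]
            rw [h4, h4]
          · have h4 : N1 v = g v := by simp [hN1, h1, h2, h3]
            have h5 : g v ∈ S := cg v h1 h3
            have h6 : g v ≠ a := fun h0 => h2 (by rw [← hg.1 v, h0, hg.2.1])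
            have h7 : g v ≠ x := fun h0 => hgx (by rw [← h0, hg.1 v]; exact h1)
            rw [h4]
            simp [hN1, h5, h6, h7, hg.1 v]
      · by_cases h2 : v = b
        · subst h2
          have h3 : N1 v = a := by simp [hN1, h1]
          rw [h3]
          simp [hN1, ha]
        · have h3 : N1 v = h v := by simp [hN1, h1, h2]
          have h4 := chc v h1
          have h5 : h v ≠ b := fun h0 => h2 (by rw [← hh.1 v, h0, hh.2.1])
          rw [h3]
          simp [hN1, h4, h5, hh.1 v]
    · simp [hN1, hx, hxa]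
    · by_cases h1 : v ∈ S
      · by_cases h2 : v = a
        · subst h2
          have h3 : N1 v = b := by simp [hN1, h1]
          rw [h3]
          exact hab
        · have h4 : N1 v = g v := by simp [hN1, h1, h2, hv]
          rw [h4]
          exact hg.2.2 v h2
      · by_cases h2 : v = b
        · subst h2
          have h3 : N1 v = a := by simp [hN1, h1]
          rw [h3]
          exact H.esymm _ _ hab
        · have h3 : N1 v = h v := by simp [hN1, h1, h2]
          rw [h3]
          exact hh.2.2 v h2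
  have e2 : NP E (g x) N2 := by
    refine ⟨fun v => ?_, ?_, fun v hv => ?_⟩
    · by_cases h1 : v ∈ S
      · have h2 : N2 v = h v := by simp [hN2, h1]
        rw [h2]
        simp [hN2, ch v h1, hh.1 v]
      · by_cases h2 : v = g x
        · have h3 : N2 v = v := by
            rw [hN2]
            dsimp only
            rw [if_neg h1, if_pos h2]
          rw [h3, h3]
        · have h3 : N2 v = g v := by simp [hN2, h1, h2]
          have h4 : g v ∉ S := by
            intro h0
            have h5 : g v ≠ x := fun h6 => h2 (by rw [← h6, hg.1 v])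
            have := cg _ h0 h5
            rw [hg.1 v] at this
            exact h1 this
          have h5 : g v ≠ g x := by
            intro h0
            have h6 : v = x := by rw [← hg.1 v, h0, hg.1 x]
            exact h1 (h6 ▸ hx)
          rw [h3]
          simp [hN2, h4, h5, hg.1 v]
    · simp [hN2]
      intro h0
      exact absurd h0 hgx
    · by_cases h1 : v ∈ S
      · have h2 : N2 v = h v := by simp [hN2, h1]
        rw [h2]
        exact hh.2.2 v fun h0 => hb (h0 ▸ h1)
      · have h3 : N2 v = g v := by simp [hN2, h1, hv]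
        rw [h3]
        exact hg.2.2 v fun h0 => h1 (h0 ▸ ha)
  have e3 : WT f N1 + WT f N2 = WT f g + WT f h + f a b - f x (g x) + f b a - f (g x) x := by
    have h1 : ∀ v, f v (N1 v) + f v (N2 v) = f v (g v) + f v (h v) + (if v = a then f a b else 0)
        - (if v = x then f x (g x) else 0) + (if v = b then f b a else 0) - (if v = g x then f (g x) x else 0) := by
      intro v
      by_cases h1 : v ∈ S
      · have h2 : v ≠ b := fun h0 => hb (h0 ▸ h1)
        have h3 : v ≠ g x := fun h0 => hgx (h0 ▸ h1)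
        have h4 : N2 v = h v := by simp [hN2, h1]
        rw [h4, if_neg h2, if_neg h3]
        by_cases h5 : v = a
        · subst h5
          have h6 : N1 v = b := by simp [hN1, h1]
          rw [h6, if_pos rfl, if_neg (Ne.symm hxa), hg.2.1, H.diag]
          ring
        · rw [if_neg h5]
          by_cases h6 : v = x
          · subst h6
            have h7 : N1 v = v := by simp [hN1, h1, h5]
            rw [h7, if_pos rfl, H.diag]
            ring
          · have h7 : N1 v = g v := by simp [hN1, h1, h5, h6]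
            rw [h7, if_neg h6]
            ring
      · have h2 : v ≠ a := fun h0 => h1 (h0 ▸ ha)
        have h3 : v ≠ x := fun h0 => h1 (h0 ▸ hx)
        rw [if_neg h2, if_neg h3]
        have h8 : f v (N1 v) = f v (h v) + (if v = b then f b a else 0) := by
          by_cases h4 : v = b
          · subst h4
            have h5 : N1 v = a := by simp [hN1, h1]
            rw [h5, if_pos rfl, hh.2.1, H.diag, zero_add]
          · have h5 : N1 v = h v := by simp [hN1, h1, h4]
            rw [h5, if_neg h4, add_zero]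
        have h9 : f v (N2 v) = f v (g v) - (if v = g x then f (g x) x else 0) := by
          by_cases h4 : v = g x
          · have h5 : N2 v = v := by
              rw [hN2]
              dsimp only
              rw [if_neg h1, if_pos h4]
            rw [h5, if_pos h4, H.diag, h4, hg.1 x, sub_self]
          · have h5 : N2 v = g v := by simp [hN2, h1, h4]
            rw [h5, if_neg h4, sub_zero]
        rw [h8, h9]
        ring
    have h2 : WT f N1 + WT f N2 = ∑ v, (f v (N1 v) + f v (N2 v)) := by
      unfold WT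
      rw [← sum_add_distrib]
    rw [h2, sum_congr rfl fun v _ => h1 v]
    unfold WT
    rw [sum_sub_distrib, sum_add_distrib, sum_sub_distrib, sum_add_distrib, sum_add_distrib]
    simp only [sum_ite_eq', mem_univ, if_true]
  have h1 := H.le _ _ e1
  have h2 := H.le _ _ e2
  have h3 := H.symm a b
  have h4 := H.symm x (g x)
  linarith


/-- the walk from `a` along `h`, `g`, `h`, ..: the positions `2 j` -/
def yy (g h : X → X) (a : X) : ℕ → X
  | 0 => a
  | j + 1 => g (h (yy g h a j))

/-- the positions `< 2 j` of the walk -/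
def SS (g h : X → X) (a : X) (j : ℕ) : Finset X := (range j).image (yy g h a) ∪ (range j).image (fun i => h (yy g h a i))

theorem mem_SS {g h : X → X} {a : X} {j : ℕ} {v : X} : v ∈ SS g h a j ↔ ∃ i < j, v = yy g h a i ∨ v = h (yy g h a i) := by
  unfold SS
  simp only [mem_union, mem_image, mem_range]
  constructor
  · rintro (⟨i, hi, h1⟩ | ⟨i, hi, h1⟩)
    · exact ⟨i, hi, Or.inl h1.symm⟩
    · exact ⟨i, hi, Or.inr h1.symm⟩
  · rintro ⟨i, hi, h1 | h1⟩
    · exact Or.inl ⟨i, hi, h1.symm⟩
    · exact Or.inr ⟨i, hi, h1.symm⟩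

theorem SS_h {g h : X → X} (hh : ∀ v, h (h v) = v) {a : X} {j : ℕ} {v : X} (hv : v ∈ SS g h a j) : h v ∈ SS g h a j := by
  obtain ⟨i, hi, h1 | h1⟩ := mem_SS.1 hv
  · exact mem_SS.2 ⟨i, hi, Or.inr (by rw [h1])⟩
  · exact mem_SS.2 ⟨i, hi, Or.inl (by rw [h1, hh])⟩

theorem SS_g {g h : X → X} (hg : ∀ v, g (g v) = v) {a : X} (ga : g a = a) {j : ℕ} {v : X} (hv : v ∈ SS g h a (j + 1))
    (hx : v ≠ h (yy g h a j)) : g v ∈ SS g h a (j + 1) := by
  obtain ⟨i, hi, h1 | h1⟩ := mem_SS.1 hv
  · rcases i with _ | i
    · refine mem_SS.2 ⟨0, Nat.succ_pos _, Or.inl ?_⟩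
      rw [h1]
      exact ga
    · refine mem_SS.2 ⟨i, by omega, Or.inr ?_⟩
      rw [h1]
      exact hg _
  · have h2 : i ≠ j := fun h0 => hx (by rw [h1, h0])
    refine mem_SS.2 ⟨i + 1, by omega, Or.inl ?_⟩
    rw [h1]
    rfl

/-- a set closed under an involution without fixed points in it is even -/
theorem even_of {S : Finset X} {h : X → X} (hh : ∀ v, h (h v) = v) (hS : ∀ v ∈ S, h v ∈ S) (hf : ∀ v ∈ S, h v ≠ v) :
    Even S.card := by
  have h1 : ∑ x ∈ S, (1 : ZMod 2) = 0 := by
    refine sum_involution (fun v _ => h v) (fun v _ => by decide) (fun v hv _ => hf v hv) (fun v hv => hS v hv) (fun v _ => hh v)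
  rw [sum_const, nsmul_eq_mul, mul_one] at h1
  exact (ZMod.natCast_eq_zero_iff_even).1 h1

theorem odd_of {S : Finset X} {h : X → X} {a : X} (hh : ∀ v, h (h v) = v) (hS : ∀ v ∈ S, h v ∈ S) (ha : a ∈ S) (haa : h a = a)
    (hf : ∀ v ∈ S, v ≠ a → h v ≠ v) : Odd S.card := by
  have h1 : Even (S.erase a).card := by
    refine even_of hh (fun v hv => ?_) (fun v hv => hf v (mem_of_mem_erase hv) (ne_of_mem_erase hv))
    refine mem_erase.2 ⟨fun h0 => ne_of_mem_erase hv ?_, hS v (mem_of_mem_erase hv)⟩
    rw [← hh v, h0, haa]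
  rw [card_erase_of_mem ha] at h1
  have h2 : 0 < S.card := card_pos.2 ⟨a, ha⟩
  obtain ⟨k, hk⟩ := h1
  exact ⟨k, by omega⟩

theorem np_ne {E : X → X → Prop} (he : ∀ a, ¬ E a a) {a : X} {g : X → X} (hg : NP E a g) {v : X} (hv : v ≠ a) : g v ≠ v := by
  intro h0
  have := hg.2.2 v hv
  rw [h0] at this
  exact he v this

/-- the walk does not come back before it meets `b` -/
theorem yy_new {E : X → X → Prop} (he : ∀ a, ¬ E a a) {a b : X} {g h : X → X} (hg : NP E a g) (hh : NP E b h) {j : ℕ}
    (hb : b ∉ SS g h a (j + 1)) : yy g h a (j + 1) ∉ SS g h a (j + 1) := by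
  intro h0
  have ha : a ∈ SS g h a (j + 1) := mem_SS.2 ⟨0, Nat.succ_pos _, Or.inl rfl⟩
  have h1 : ∀ v ∈ SS g h a (j + 1), g v ∈ SS g h a (j + 1) := by
    intro v hv
    by_cases h2 : v = h (yy g h a j)
    · rw [h2]
      exact h0
    · exact SS_g hg.1 hg.2.1 hv h2
  have h2 := odd_of hg.1 h1 ha hg.2.1 fun v _ hv => np_ne he hg hv
  have h3 := even_of (S := SS g h a (j + 1)) hh.1 (fun v hv => SS_h hh.1 hv) fun v hv =>
    np_ne he hh fun h4 => hb (h4 ▸ hv)
  exact (Nat.not_even_iff_odd.2 h2) h3

/-- **The path.** There is a number `k` such that the walk meets `b` at the position `2 k`, not before. -/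
theorem exists_path {E : X → X → Prop} (he : ∀ a, ¬ E a a) {a b : X} {g h : X → X} (hg : NP E a g) (hh : NP E b h) :
    ∃ k, yy g h a k = b ∧ b ∉ SS g h a k := by
  have h1 : ∃ k, b ∈ SS g h a k := by
    by_contra hn
    push Not at hn
    have hinj : Function.Injective (yy g h a) := by
      have h2 : ∀ i j, i < j → yy g h a i ≠ yy g h a j := by
        intro i j hij h0
        rcases j with _ | j
        · omega
        · refine yy_new he hg hh (hn (j + 1)) ?_
          rw [← h0]
          exact mem_SS.2 ⟨i, hij, Or.inl rfl⟩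
      intro i j hij
      rcases lt_trichotomy i j with h3 | h3 | h3
      · exact absurd hij (h2 i j h3)
      · exact h3
      · exact absurd hij.symm (h2 j i h3)
    exact not_injective_infinite_finite _ hinj
  classical
  have h2 := Nat.find_spec h1
  have h3 : Nat.find h1 ≠ 0 := by
    intro h0
    rw [h0] at h2
    obtain ⟨i, hi, _⟩ := mem_SS.1 h2
    omega
  obtain ⟨k, hk⟩ := Nat.exists_eq_succ_of_ne_zero h3
  have h4 : b ∉ SS g h a k := Nat.find_min h1 (by omega)
  refine ⟨k, ?_, h4⟩
  rw [hk] at h2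
  obtain ⟨i, hi, h5⟩ := mem_SS.1 h2
  have h6 : i = k := by
    by_contra h0
    exact h4 (mem_SS.2 ⟨i, by omega, h5⟩)
  subst h6
  rcases h5 with h5 | h5
  · exact h5.symm
  · rw [← hh.1 (yy g h a i), ← h5, hh.2.1]

/-- the path is closed under both matchings -/
theorem path_g {E : X → X → Prop} {a b : X} {g h : X → X} (hg : NP E a g) (hh : NP E b h) {k : ℕ}
    (hk : yy g h a k = b) : ∀ v ∈ SS g h a (k + 1), g v ∈ SS g h a (k + 1) := by
  intro v hv
  by_cases h2 : v = h (yy g h a k)
  · rw [hk, hh.2.1] at h2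
    rcases k with _ | k
    · refine mem_SS.2 ⟨0, Nat.succ_pos _, Or.inl ?_⟩
      have h3 : a = b := hk
      rw [h2, ← h3]
      exact hg.2.1
    · refine mem_SS.2 ⟨k, by omega, Or.inr ?_⟩
      rw [h2, ← hk]
      exact hg.1 _
  · exact SS_g hg.1 hg.2.1 hv h2

/-- **(E2)** if `a b` is an edge the edges of `g` on the path have weight at most `f a b` -/
theorem path_le {E : X → X → Prop} {f : X → X → ℤ} {Z : ℤ} (H : Hyp E f Z) {a b : X} {g h : X → X}
    (hg : NP E a g) (gZ : WT f g = Z) (hh : NP E b h) (hZ : WT f h = Z) (hab : E a b) {k : ℕ}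
    (hk : yy g h a k = b) (hb : b ∉ SS g h a k) : ∀ v ∈ SS g h a (k + 1), v ≠ a → f v (g v) ≤ f a b := by
  have key : ∀ j, j + 1 ≤ k → f (h (yy g h a j)) (yy g h a (j + 1)) ≤ f a b := by
    intro j hj
    have h1 : b ∉ SS g h a (j + 1) := by
      intro h0
      obtain ⟨i, hi, h2⟩ := mem_SS.1 h0
      exact hb (mem_SS.2 ⟨i, by omega, h2⟩)
    exact exch H hg gZ hh hZ hab (SS g h a (j + 1)) (h (yy g h a j)) (mem_SS.2 ⟨0, Nat.succ_pos _, Or.inl rfl⟩) h1
      (fun v hv => SS_h hh.1 hv) (mem_SS.2 ⟨j, Nat.lt_succ_self _, Or.inr rfl⟩) (yy_new H.eirr hg hh h1)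
      (fun v hv h2 => SS_g hg.1 hg.2.1 hv h2)
  intro v hv hva
  have h1 : ∀ j, j ≤ k → v = yy g h a j → f v (g v) ≤ f a b := by
    intro j hj h2
    rcases j with _ | j
    · exact absurd h2 hva
    · have h3 : g v = h (yy g h a j) := by
        rw [h2]
        exact hg.1 _
      rw [h3, H.symm, h2]
      exact key j hj
  obtain ⟨i, hi, h2 | h2⟩ := mem_SS.1 hv
  · exact h1 i (by omega) h2
  · by_cases h3 : i = k
    · rw [h3, hk, hh.2.1, ← hk] at h2
      exact h1 k le_rfl h2
    · have h4 := key i (by omega)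
      have h5 : yy g h a (i + 1) = g v := by
        rw [h2]
        rfl
      rw [h5, ← h2] at h4
      exact h4

/-- the relation of the edges of weight at most `α` -/
def RR (E : X → X → Prop) (f : X → X → ℤ) (α : ℤ) (v w : X) : Prop := E v w ∧ f v w ≤ α

/-- **(A)** -/
theorem partA {E : X → X → Prop} {f : X → X → ℤ} {Z : ℤ} (H : Hyp E f Z) (α : ℤ) {a c : X}
    (hac : Relation.ReflTransGen (RR E f α) a c) : ∀ g, NP E a g → WT f g = Z → c = a ∨ f c (g c) ≤ α := by
  induction hac using Relation.ReflTransGen.head_induction_on with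
  | refl => exact fun _ _ _ => Or.inl rfl
  | @head a b hab hbc ih =>
    intro g hg gZ
    obtain ⟨h, hh, hZ⟩ := H.ex b
    obtain ⟨k, hk, hb⟩ := exists_path H.eirr hg hh
    by_cases hca : c = a
    · exact Or.inl hca
    right
    by_cases hc : c ∈ SS g h a (k + 1)
    · exact (path_le H hg gZ hh hZ hab.1 hk hb c hc hca).trans hab.2
    · have haP : a ∈ SS g h a (k + 1) := mem_SS.2 ⟨0, Nat.succ_pos _, Or.inl rfl⟩
      have hbP : b ∈ SS g h a (k + 1) := mem_SS.2 ⟨k, Nat.lt_succ_self _, Or.inl hk.symm⟩
      have h1 := np_swap hg hh (SS g h a (k + 1)) haP hbP (path_g hg hh hk) (fun v hv => SS_h hh.1 hv)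
      have h2 := swap_least H hg gZ hh hZ (SS g h a (k + 1)) haP hbP (path_g hg hh hk) (fun v hv => SS_h hh.1 hv)
      rcases ih _ h1 h2 with h3 | h3
      · exact absurd (h3 ▸ hbP) hc
      · rwa [if_neg hc] at h3

theorem rr_symm {E : X → X → Prop} {f : X → X → ℤ} {Z : ℤ} (H : Hyp E f Z) {α : ℤ} {v w : X}
    (h : Relation.ReflTransGen (RR E f α) v w) : Relation.ReflTransGen (RR E f α) w v := by
  induction h with
  | refl => exact Relation.ReflTransGen.refl
  | tail _ h2 ih => exact Relation.ReflTransGen.head ⟨H.esymm _ _ h2.1, by rw [H.symm]; exact h2.2⟩ ih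

/-- a least matching which misses a vertex of the component keeps the component -/
theorem keep {E : X → X → Prop} {f : X → X → ℤ} {Z : ℤ} (H : Hyp E f Z) {α : ℤ} {c d : X} {h : X → X}
    (hcd : Relation.ReflTransGen (RR E f α) c d) (hh : NP E d h) (hZ : WT f h = Z) {v : X}
    (hv : Relation.ReflTransGen (RR E f α) c v) : Relation.ReflTransGen (RR E f α) c (h v) := by
  by_cases h1 : v = d
  · rw [h1, hh.2.1]
    exact hcd
  · rcases partA H α ((rr_symm H hcd).trans hv) h hh hZ with h2 | h2
    · exact absurd h2 h1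
    · exact hv.tail ⟨hh.2.2 v h1, h2⟩

open Classical in
theorem comp_odd {E : X → X → Prop} {f : X → X → ℤ} {Z : ℤ} (H : Hyp E f Z) (α : ℤ) (c : X) :
    Odd (univ.filter fun v => Relation.ReflTransGen (RR E f α) c v).card := by
  obtain ⟨h, hh, hZ⟩ := H.ex c
  refine odd_of (a := c) hh.1 (fun v hv => ?_) (mem_filter.2 ⟨mem_univ _, Relation.ReflTransGen.refl⟩) hh.2.1
    (fun v _ hv => np_ne H.eirr hh hv)
  exact mem_filter.2 ⟨mem_univ _, keep H Relation.ReflTransGen.refl hh hZ (mem_filter.1 hv).2⟩

/-- **(B)** in each component exactly one vertex is not covered by an edge of weight at most `α` of a least matching -/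
theorem partB {E : X → X → Prop} {f : X → X → ℤ} {Z : ℤ} (H : Hyp E f Z) (α : ℤ) {a : X} {g : X → X}
    (hg : NP E a g) (gZ : WT f g = Z) (c : X) :
    ∃ d, Relation.ReflTransGen (RR E f α) c d ∧ ∀ v, Relation.ReflTransGen (RR E f α) c v → v ≠ d →
      f v (g v) ≤ α ∧ g v ≠ v := by
  classical
  by_cases hca : Relation.ReflTransGen (RR E f α) c a
  · refine ⟨a, hca, fun v hv hva => ⟨?_, np_ne H.eirr hg hva⟩⟩
    rcases partA H α ((rr_symm H hca).trans hv) g hg gZ with h | h
    · exact absurd h hva
    · exact h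
  · have hex : ∃ k, ∃ c' h, Relation.ReflTransGen (RR E f α) c c' ∧ NP E c' h ∧ WT f h = Z ∧ yy g h a k = c' := by
      obtain ⟨h, hh, hZ⟩ := H.ex c
      obtain ⟨k, hk, _⟩ := exists_path H.eirr hg hh
      exact ⟨k, c, h, Relation.ReflTransGen.refl, hh, hZ, hk⟩
    obtain ⟨c', h, hc', hh, hZ, hk⟩ := Nat.find_spec hex
    have hmin : ∀ m < Nat.find hex, ¬ ∃ c' h, Relation.ReflTransGen (RR E f α) c c' ∧ NP E c' h ∧ WT f h = Z ∧ yy g h a m = c' :=
      fun m hm => Nat.find_min hex hm
    set k := Nat.find hex with hkdef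
    have hout : ∀ i, i < k → ¬ Relation.ReflTransGen (RR E f α) c (yy g h a i) := by
      intro i
      induction i using Nat.strong_induction_on with
      | _ i ih =>
        intro hi hin
        obtain ⟨hd, hhd, hdZ⟩ := H.ex (yy g h a i)
        obtain ⟨k', hk', _⟩ := exists_path H.eirr hh hhd
        have hsub : ∀ v ∈ SS h hd c' (k' + 1), Relation.ReflTransGen (RR E f α) c v := by
          have h1 : ∀ j, Relation.ReflTransGen (RR E f α) c (yy h hd c' j) := by
            intro j
            induction j with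
            | zero => exact hc'
            | succ j ihj => exact keep H hc' hh hZ (keep H hin hhd hdZ ihj)
          intro v hv
          obtain ⟨j, _, h2 | h2⟩ := mem_SS.1 hv
          · rw [h2]
            exact h1 j
          · rw [h2]
            exact keep H hin hhd hdZ (h1 j)
        have haP : c' ∈ SS h hd c' (k' + 1) := mem_SS.2 ⟨0, Nat.succ_pos _, Or.inl rfl⟩
        have hbP : yy g h a i ∈ SS h hd c' (k' + 1) := mem_SS.2 ⟨k', Nat.lt_succ_self _, Or.inl hk'.symm⟩
        have h1 := np_swap hh hhd (SS h hd c' (k' + 1)) haP hbP (path_g hh hhd hk') (fun v hv => SS_h hhd.1 hv)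
        have h2 := swap_least H hh hZ hhd hdZ (SS h hd c' (k' + 1)) haP hbP (path_g hh hhd hk') (fun v hv => SS_h hhd.1 hv)
        refine hmin i hi ⟨yy g h a i, _, hin, h1, h2, ?_⟩
        have h3 : ∀ j ≤ i, yy g (fun v => if v ∈ SS h hd c' (k' + 1) then hd v else h v) a j = yy g h a j := by
          intro j
          induction j with
          | zero => exact fun _ => rfl
          | succ j ihj =>
            intro hj
            have h4 : yy g h a j ∉ SS h hd c' (k' + 1) := fun h5 => ih j (by omega) (by omega) (hsub _ h5)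
            change g (if yy g (fun v => if v ∈ SS h hd c' (k' + 1) then hd v else h v) a j ∈ SS h hd c' (k' + 1) then _ else _) = g (h (yy g h a j))
            rw [ihj (by omega), if_neg h4]
        exact h3 i le_rfl
    have hPC : ∀ v ∈ SS g h a (k + 1), Relation.ReflTransGen (RR E f α) c v → v = c' := by
      intro v hv hcv
      obtain ⟨i, hi, h2 | h2⟩ := mem_SS.1 hv
      · by_cases h3 : i = k
        · rw [h2, h3, hk]
        · exact absurd (h2 ▸ hcv) (hout i (by omega))
      · by_cases h3 : i = k
        · rw [h2, h3, hk, hh.2.1]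
        · have h4 := keep H hc' hh hZ hcv
          rw [h2, hh.1] at h4
          exact absurd h4 (hout i (by omega))
    have haP : a ∈ SS g h a (k + 1) := mem_SS.2 ⟨0, Nat.succ_pos _, Or.inl rfl⟩
    have hbP : c' ∈ SS g h a (k + 1) := mem_SS.2 ⟨k, Nat.lt_succ_self _, Or.inl hk.symm⟩
    have h1 := np_swap hg hh (SS g h a (k + 1)) haP hbP (path_g hg hh hk) (fun v hv => SS_h hh.1 hv)
    have h2 := swap_least H hg gZ hh hZ (SS g h a (k + 1)) haP hbP (path_g hg hh hk) (fun v hv => SS_h hh.1 hv)
    refine ⟨c', hc', fun v hv hvc => ⟨?_, np_ne H.eirr hg fun h0 => hca (h0 ▸ hv)⟩⟩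
    have h3 : v ∉ SS g h a (k + 1) := fun h0 => hvc (hPC v h0 hv)
    rcases partA H α ((rr_symm H hc').trans hv) _ h1 h2 with h4 | h4
    · exact absurd h4 hvc
    · rwa [if_neg h3] at h4

open Classical in
/-- **The count.** -/
theorem count_le {E : X → X → Prop} {f : X → X → ℤ} {Z : ℤ} (H : Hyp E f Z) (α : ℤ) {a b : X} {g g' : X → X}
    (hg : NP E a g) (gZ : WT f g = Z) (hg' : NP E b g') :
    (univ.filter fun v => g v = v ∨ α < f v (g v)).card ≤ (univ.filter fun v => g' v = v ∨ α < f v (g' v)).card := by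
  have h1 : ∀ c, ∃ d, Relation.ReflTransGen (RR E f α) c d ∧ (g' d = d ∨ α < f d (g' d)) := by
    intro c
    by_contra hn
    push Not at hn
    have h2 := comp_odd H α c
    have h3 := even_of (S := univ.filter fun v => Relation.ReflTransGen (RR E f α) c v) hg'.1 (fun v hv => ?_) (fun v hv =>
      (hn v (mem_filter.1 hv).2).1)
    · exact (Nat.not_even_iff_odd.2 h2) h3
    · have h4 := (mem_filter.1 hv).2
      have h5 : v ≠ b := by
        rintro rfl
        exact (hn v h4).1 hg'.2.1
      exact mem_filter.2 ⟨mem_univ _, h4.tail ⟨hg'.2.2 v h5, (hn v h4).2⟩⟩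
  choose φ hφ1 hφ2 using h1
  refine card_le_card_of_injOn φ (fun v _ => mem_coe.2 (mem_filter.2 ⟨mem_univ _, hφ2 v⟩)) ?_
  intro c1 hc1 c2 hc2 h12
  obtain ⟨d, hd, huniq⟩ := partB H α hg gZ c1
  have key : ∀ v, v ∈ (univ.filter fun v => g v = v ∨ α < f v (g v)) → Relation.ReflTransGen (RR E f α) c1 v → v = d := by
    intro v hv hcv
    by_contra h0
    obtain ⟨h3, h4⟩ := huniq v hcv h0
    rcases (mem_filter.1 hv).2 with h5 | h5
    · exact h4 h5
    · omega
  have e1 := key c1 (mem_coe.1 hc1) Relation.ReflTransGen.refl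
  have e2 := key c2 (mem_coe.1 hc2) ((hφ1 c1).trans (by rw [h12]; exact rr_symm H (hφ1 c2)))
  rw [e1, e2]

end

end QCP
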