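import Pool.Agent.Lib.MP_0087d5_lcQS.CDefs
import Pool.Agent.Lib.MP_0087d5_lcQS.K1a

/-!
# Leaf K1 (helper75): the compression lemma
-/

set_option autoImplicit false
set_option linter.all false

namespace QSR

open Finset MTC

section
variable {V : Type} [Fintype V] [DecidableEq V]

private theorem K1_lw_ex (A : V → V → Prop) (u : V → V → ℕ) (h : ∃ f, IsPM A f) : ∃ c, LW A u c := by
  classical
  obtain ⟨f0, h0⟩ := h
  obtain ⟨f, hf, hmin⟩ := exists_min_image (univ.filter fun f : V → V => IsPM A f) (tw u) ⟨f0, mem_filter.2 ⟨mem_univ _, h0⟩⟩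
  exact ⟨tw u f, ⟨f, (mem_filter.1 hf).2, rfl⟩, fun g hg => hmin g (mem_filter.2 ⟨mem_univ _, hg⟩)⟩

private theorem K1_lw_uniq {A : V → V → Prop} {u : V → V → ℕ} {c c' : ℕ} (h : LW A u c) (h' : LW A u c') : c = c' := by
  obtain ⟨⟨f, hf, hfc⟩, h2⟩ := h
  obtain ⟨⟨g, hg, hgc⟩, h3⟩ := h'
  have := h2 g hg
  have := h3 f hf
  omega

private theorem K1_mu_uniq {A : V → V → Prop} {u : V → V → ℕ} {v : V} {c c' : ℕ} (h : MU A u v c) (h' : MU A u v c') : c = c' := by
  obtain ⟨⟨b, hb, hc⟩, h2⟩ := h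
  obtain ⟨⟨b', hb', hc'⟩, h3⟩ := h'
  have := h2 b' c' hb' hc'
  have := h3 b c hb hc
  omega

/-- a perfect matching with the edge `v (f v)` -/
private theorem K1_am {A : V → V → Prop} {f : V → V} (hf : IsPM A f) {v b : V} (hb : f v = b) (hvb : v ≠ b) : IsPM (Am A v b) f := by
  refine ⟨hf.1, fun x => Or.inr ⟨hvb, ?_⟩⟩
  have hbv : f b = v := by rw [← hb]; exact hf.1 v
  by_cases h1 : x = v
  · exact Or.inr (Or.inl ⟨h1, by rw [h1, hb]⟩)
  · by_cases h2 : x = b
    · exact Or.inr (Or.inr ⟨h2, by rw [h2, hbv]⟩)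
    · refine Or.inl ⟨hf.2 x, h1, h2, fun h => h2 ?_, fun h => h1 ?_⟩
      · rw [← hf.1 x, h, hb]
      · rw [← hf.1 x, h, hbv]

/-- the matchings of `Am A v b` -/
private theorem K1_am_v {A : V → V → Prop} {f : V → V} {v b : V} (hf : IsPM (Am A v b) f) (hvb : b ≠ v) : f v = b := by
  rcases hf.2 v with h | ⟨_, h | h | h⟩
  · exact absurd h.1.symm hvb
  · exact absurd rfl h.2.1
  · exact h.2
  · exact absurd h.1.symm hvb

private theorem K1_am_b {A : V → V → Prop} {f : V → V} {v b : V} (hf : IsPM (Am A v b) f) (hvb : b ≠ v) : f b = v := by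
  rw [← K1_am_v hf hvb]
  exact hf.1 v

private theorem K1_am_x {A : V → V → Prop} {f : V → V} {v b x : V} (hf : IsPM (Am A v b) f) (hvb : b ≠ v) (h1 : x ≠ v) (h2 : x ≠ b) :
    A x (f x) ∧ f x ≠ v ∧ f x ≠ b := by
  rcases hf.2 x with h | ⟨_, h | h | h⟩
  · exact absurd h.1.symm hvb
  · exact ⟨h.1, h.2.2.2.1, h.2.2.2.2⟩
  · exact absurd h.1 h1
  · exact absurd h.1 h2

private theorem K1_mu_ex (A : V → V → Prop) (hi : ∀ x, ¬ A x x) (u : V → V → ℕ) (hM : ∃ f, IsPM A f) (v : V) : ∃ c, MU A u v c := by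
  classical
  obtain ⟨f, hf⟩ := hM
  have hvb : f v ≠ v := fun h => hi v (by have := hf.2 v; rwa [h] at this)
  have hex : ∃ c, ∃ b, b ≠ v ∧ LW (Am A v b) (um u v b) c := by
    obtain ⟨c, hc⟩ := K1_lw_ex (Am A v (f v)) (um u v (f v)) ⟨f, K1_am hf rfl hvb.symm⟩
    exact ⟨c, f v, hvb, hc⟩
  exact ⟨Nat.find hex, Nat.find_spec hex, fun b c' hb hc' => Nat.find_min' hex ⟨b, hb, hc'⟩⟩

/-- the graph with one more vertex -/
private def K1_E (A : V → V → Prop) : Option V → Option V → Prop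
  | some x, some y => A x y
  | none, some _ => True
  | some _, none => True
  | none, none => False

private def K1_U (u : V → V → ℕ) : Option V → Option V → ℤ
  | some x, some y => 2 * (u x y : ℤ)
  | _, _ => 0

private def K1_M (c0 : ℕ) (μ : V → ℕ) : Option V → ℤ
  | some x => (μ x : ℤ)
  | none => (c0 : ℤ)

private def K1_f (u : V → V → ℕ) (c0 : ℕ) (μ : V → ℕ) (x y : Option V) : ℤ :=
  if x = y then 0 else K1_U u x y + K1_M c0 μ x + K1_M c0 μ y

/-- the sum of the weights `2 u` -/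
private def K1_Us (u : V → V → ℕ) (g : Option V → Option V) : ℤ := ∑ o, if g o = o then 0 else K1_U u o (g o)

private theorem K1_wt (u : V → V → ℕ) (c0 : ℕ) (μ : V → ℕ) (a : Option V) (g : Option V → Option V) (h1 : ∀ v, g (g v) = v)
    (h2 : g a = a) (h3 : ∀ v, v ≠ a → g v ≠ v) :
    QCP.WT (K1_f u c0 μ) g = K1_Us u g + 2 * ∑ o, K1_M c0 μ o - 2 * K1_M c0 μ a := by
  have e1 : ∑ o, K1_M c0 μ (g o) = ∑ o, K1_M c0 μ o := by
    exact Equiv.sum_comp (Function.Involutive.toPerm g h1) (K1_M c0 μ)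
  have e2 : ∀ o, K1_f u c0 μ o (g o) = (if g o = o then 0 else K1_U u o (g o)) + (K1_M c0 μ o + K1_M c0 μ (g o)) -
      (if o = a then K1_M c0 μ a + K1_M c0 μ a else 0) := by
    intro o
    unfold K1_f
    by_cases h4 : o = a
    · rw [h4, h2, if_pos rfl, if_pos rfl, if_pos rfl]
      ring
    · rw [if_neg (fun h => h3 o h4 h.symm), if_neg (h3 o h4), if_neg h4]
      ring
  unfold QCP.WT K1_Us
  rw [sum_congr rfl fun o _ => e2 o, sum_sub_distrib, sum_add_distrib, sum_add_distrib, e1]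
  simp only [sum_ite_eq', mem_univ, if_true]
  ring

private theorem K1_E_irr {A : V → V → Prop} (hi : ∀ x, ¬ A x x) : ∀ o, ¬ K1_E A o o := by
  rintro (_ | x)
  · exact fun h => h
  · exact hi x

private theorem K1_toNP0 {A : V → V → Prop} {u : V → V → ℕ} {f : V → V} (hi : ∀ x, ¬ A x x) (hf : IsPM A f) :
    QCP.NP (K1_E A) none (Option.map f) ∧ K1_Us u (Option.map f) = 2 * (tw u f : ℤ) := by
  refine ⟨⟨?_, rfl, ?_⟩, ?_⟩
  · rintro (_ | x)
    · rfl
    · change some (f (f x)) = some x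
      rw [hf.1]
  · rintro (_ | x) h
    · exact absurd rfl h
    · exact hf.2 x
  · unfold K1_Us
    rw [Fintype.sum_option]
    have h1 : ∀ x, (if Option.map f (some x) = some x then (0 : ℤ) else K1_U u (some x) (Option.map f (some x))) = 2 * (u x (f x) : ℤ) := by
      intro x
      rw [if_neg]
      · rfl
      · intro h
        have h2 : f x = x := Option.some.inj h
        exact hi x (by have := hf.2 x; rwa [h2] at this)
    rw [sum_congr rfl fun x _ => h1 x, ← mul_sum]
    simp [tw]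

private theorem K1_ofNP0 {A : V → V → Prop} {g : Option V → Option V} (hg : QCP.NP (K1_E A) none g) :
    ∃ f, IsPM A f ∧ g = Option.map f := by
  have h1 : ∀ x : V, ∃ y, g (some x) = some y ∧ A x y := by
    intro x
    have h2 := hg.2.2 (some x) (by simp)
    rcases h3 : g (some x) with _ | y
    · exfalso
      have h4 := hg.1 (some x)
      rw [h3, hg.2.1] at h4
      exact absurd h4 (by simp)
    · rw [h3] at h2
      exact ⟨y, rfl, h2⟩
  choose f hf1 hf2 using h1
  refine ⟨f, ⟨fun x => ?_, hf2⟩, ?_⟩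
  · have h2 := hg.1 (some x)
    rw [hf1, hf1] at h2
    exact Option.some.inj h2
  · funext o
    rcases o with _ | x
    · exact hg.2.1
    · exact hf1 x

private theorem K1_toNP {A : V → V → Prop} {u : V → V → ℕ} {f : V → V} {v b : V} (hi : ∀ x, ¬ A x x) (hvb : b ≠ v)
    (hf : IsPM (Am A v b) f) :
    ∃ g, QCP.NP (K1_E A) (some v) g ∧ K1_Us u g = 2 * (tw (um u v b) f : ℤ) := by
  have e1 := K1_am_v hf hvb
  have e2 := K1_am_b hf hvb
  refine ⟨fun o => match o with
    | none => some b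
    | some x => if x = v then some v else if x = b then none else some (f x), ⟨?_, ?_, ?_⟩, ?_⟩
  · rintro (_ | x)
    · simp [hvb]
    · by_cases h1 : x = v
      · simp [h1]
      · by_cases h2 : x = b
        · simp [h2, hvb]
        · obtain ⟨_, h3, h4⟩ := K1_am_x hf hvb h1 h2
          simp [h1, h2, h3, h4, hf.1 x]
  · simp
  · rintro (_ | x) h
    · exact trivial
    · have h1 : x ≠ v := fun h0 => h (by rw [h0])
      by_cases h2 : x = b
      · subst h2
        dsimp only
        rw [if_neg h1, if_pos rfl]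
        exact trivial
      · dsimp only
        rw [if_neg h1, if_neg h2]
        exact (K1_am_x hf hvb h1 h2).1
  · unfold K1_Us
    rw [Fintype.sum_option]
    dsimp only
    rw [if_neg (by simp)]
    have h1 : ∀ x, (if (if x = v then some v else if x = b then none else some (f x)) = some x then (0 : ℤ) else
        K1_U u (some x) (if x = v then some v else if x = b then none else some (f x))) = 2 * (um u v b x (f x) : ℤ) := by
      intro x
      by_cases h1 : x = v
      · subst h1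
        simp [um, e1, hvb.symm]
      · by_cases h2 : x = b
        · subst h2
          simp [um, e2, h1, hvb.symm, K1_U]
        · obtain ⟨h5, h3, h4⟩ := K1_am_x hf hvb h1 h2
          have h6 : f x ≠ x := fun h0 => hi x (by rwa [h0] at h5)
          simp [um, h1, h2, h6, K1_U]
    rw [sum_congr rfl fun x _ => h1 x, ← mul_sum]
    simp [tw, K1_U]

private theorem K1_ofNP {A : V → V → Prop} {u : V → V → ℕ} {v : V} {g : Option V → Option V} (hi : ∀ x, ¬ A x x)
    (hg : QCP.NP (K1_E A) (some v) g) :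
    ∃ b f, b ≠ v ∧ IsPM (Am A v b) f ∧ K1_Us u g = 2 * (tw (um u v b) f : ℤ) := by
  have h0 := hg.2.2 none (by simp)
  rcases h1 : g none with _ | b
  · rw [h1] at h0
    exact absurd h0 (fun h => h)
  have hbn : g (some b) = none := by rw [← h1]; exact hg.1 none
  have hvb : b ≠ v := by
    rintro rfl
    rw [hg.2.1] at hbn
    exact absurd hbn (by simp)
  have h2 : ∀ x : V, x ≠ v → x ≠ b → ∃ y, g (some x) = some y ∧ A x y ∧ y ≠ v ∧ y ≠ b := by
    intro x hxv hxb
    have h2 := hg.2.2 (some x) (by simpa using hxv)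
    rcases h3 : g (some x) with _ | y
    · exfalso
      have h4 := hg.1 (some x)
      rw [h3, h1] at h4
      exact hxb (Option.some.inj h4).symm
    · rw [h3] at h2
      refine ⟨y, rfl, h2, ?_, ?_⟩
      · rintro rfl
        have h4 := hg.1 (some x)
        rw [h3, hg.2.1] at h4
        exact hxv (Option.some.inj h4).symm
      · rintro rfl
        have h4 := hg.1 (some x)
        rw [h3, hbn] at h4
        exact absurd h4 (by simp)
  have h3 : ∀ x : V, ∃ y, (x = v → y = b) ∧ (x = b → y = v) ∧ (x ≠ v → x ≠ b → g (some x) = some y ∧ A x y ∧ y ≠ v ∧ y ≠ b) := by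
    intro x
    by_cases hxv : x = v
    · exact ⟨b, fun _ => rfl, fun h => absurd (h.symm.trans hxv) hvb, fun h => absurd hxv h⟩
    · by_cases hxb : x = b
      · exact ⟨v, fun h => absurd h hxv, fun _ => rfl, fun _ h => absurd hxb h⟩
      · obtain ⟨y, hy⟩ := h2 x hxv hxb
        exact ⟨y, fun h => absurd h hxv, fun h => absurd h hxb, fun _ _ => hy⟩
  choose f f1 f2 f3 using h3
  have hPM : IsPM (Am A v b) f := by
    refine ⟨fun x => ?_, fun x => ?_⟩
    · by_cases hxv : x = v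
      · rw [f1 x hxv, f2 b rfl, hxv]
      · by_cases hxb : x = b
        · rw [f2 x hxb, f1 v rfl, hxb]
        · obtain ⟨a1, a2, a3, a4⟩ := f3 x hxv hxb
          obtain ⟨b1, b2, b3, b4⟩ := f3 (f x) a3 a4
          have h4 := hg.1 (some x)
          rw [a1, b1] at h4
          exact Option.some.inj h4
    · refine Or.inr ⟨hvb.symm, ?_⟩
      by_cases hxv : x = v
      · exact Or.inr (Or.inl ⟨hxv, f1 x hxv⟩)
      · by_cases hxb : x = b
        · exact Or.inr (Or.inr ⟨hxb, f2 x hxb⟩)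
        · obtain ⟨a1, a2, a3, a4⟩ := f3 x hxv hxb
          exact Or.inl ⟨a2, hxv, hxb, a3, a4⟩
  refine ⟨b, f, hvb, hPM, ?_⟩
  unfold K1_Us
  rw [Fintype.sum_option, h1, if_neg (by simp)]
  have h4 : ∀ x, (if g (some x) = some x then (0 : ℤ) else K1_U u (some x) (g (some x))) = 2 * (um u v b x (f x) : ℤ) := by
    intro x
    by_cases hxv : x = v
    · subst hxv
      rw [if_pos hg.2.1, f1 x rfl]
      simp [um, hvb.symm]
    · by_cases hxb : x = b
      · subst hxb
        rw [hbn, f2 x rfl, if_neg (by simp)]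
        simp [um, K1_U, hvb.symm]
      · obtain ⟨a1, a2, a3, a4⟩ := f3 x hxv hxb
        have h6 : f x ≠ x := fun h0 => hi x (by rwa [h0] at a2)
        rw [a1, if_neg (fun h => h6 (Option.some.inj h))]
        simp [um, hxv, hxb, K1_U]
  rw [sum_congr rfl fun x _ => h4 x, ← mul_sum]
  simp [tw, K1_U]

private theorem K1_hyp (A : V → V → Prop) (hs : ∀ x y, A x y → A y x) (hi : ∀ x, ¬ A x x) (u : V → V → ℕ) (hu : ∀ x y, u x y = u y x)
    (c0 : ℕ) (h0 : LW A u c0) (μ : V → ℕ) (hμ : ∀ v, MU A u v (μ v)) :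
    QCP.Hyp (K1_E A) (K1_f u c0 μ) (2 * ∑ o, K1_M c0 μ o) := by
  have hwt : ∀ a g, QCP.NP (K1_E A) a g → QCP.WT (K1_f u c0 μ) g = K1_Us u g + 2 * ∑ o, K1_M c0 μ o - 2 * K1_M c0 μ a := by
    intro a g hg
    exact K1_wt u c0 μ a g hg.1 hg.2.1 fun v hv => QCP.np_ne (K1_E_irr hi) hg hv
  refine ⟨?_, K1_E_irr hi, ?_, fun a => if_pos rfl, ?_, ?_⟩
  · rintro (_ | x) (_ | y) h
    · exact h
    · exact trivial
    · exact trivial
    · exact hs _ _ h
  · intro a b
    have h1 : K1_U u a b = K1_U u b a := by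
      rcases a with _ | x <;> rcases b with _ | y
      · rfl
      · rfl
      · rfl
      · change 2 * (u x y : ℤ) = 2 * (u y x : ℤ)
        rw [hu]
    unfold K1_f
    by_cases h2 : a = b
    · rw [if_pos h2, if_pos h2.symm]
    · rw [if_neg h2, if_neg (Ne.symm h2), h1]
      ring
  · rintro (_ | v)
    · obtain ⟨⟨f, hf, hfc⟩, _⟩ := h0
      obtain ⟨h1, h2⟩ := K1_toNP0 (u := u) hi hf
      refine ⟨_, h1, ?_⟩
      rw [hwt _ _ h1, h2, hfc]
      change 2 * (c0 : ℤ) + _ - 2 * (c0 : ℤ) = _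
      ring
    · obtain ⟨⟨b, hb, ⟨f, hf, hfc⟩, _⟩, _⟩ := hμ v
      obtain ⟨g, h1, h2⟩ := K1_toNP (u := u) hi hb hf
      refine ⟨g, h1, ?_⟩
      rw [hwt _ _ h1, h2, hfc]
      change 2 * (μ v : ℤ) + _ - 2 * (μ v : ℤ) = _
      ring
  · rintro (_ | v) g hg
    · obtain ⟨f, hf, hgf⟩ := K1_ofNP0 hg
      obtain ⟨h1, h2⟩ := K1_toNP0 (u := u) hi hf
      rw [hwt _ _ hg, hgf, h2]
      change _ ≤ 2 * (tw u f : ℤ) + _ - 2 * (c0 : ℤ)
      have h3 : (c0 : ℤ) ≤ (tw u f : ℤ) := by exact_mod_cast h0.2 f hf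
      linarith
    · obtain ⟨b, f, hb, hf, h2⟩ := K1_ofNP (u := u) hi hg
      rw [hwt _ _ hg, h2]
      change _ ≤ 2 * (tw (um u v b) f : ℤ) + _ - 2 * (μ v : ℤ)
      have h3 : (μ v : ℤ) ≤ (tw (um u v b) f : ℤ) := by
        obtain ⟨c', hc'⟩ := K1_lw_ex (Am A v b) (um u v b) ⟨f, hf⟩
        have h4 := (hμ v).2 b c' hb hc'
        have h5 := hc'.2 f hf
        exact_mod_cast h4.trans h5
      linarith

open Classical in
private theorem K1_cnt (A : V → V → Prop) (hs : ∀ x y, A x y → A y x) (hi : ∀ x, ¬ A x x) (u : V → V → ℕ) (hu : ∀ x y, u x y = u y x)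
    (c0 : ℕ) (h0 : LW A u c0) (μ : V → ℕ) (hμ : ∀ v, MU A u v (μ v)) (α : ℤ) {f1 f2 : V → V} (h1 : IsMin A u f1) (h2 : IsPM A f2) :
    (univ.filter fun x => α < ((2 * u x (f1 x) + μ x + μ (f1 x) : ℕ) : ℤ)).card ≤
      (univ.filter fun x => α < ((2 * u x (f2 x) + μ x + μ (f2 x) : ℕ) : ℤ)).card := by
  have H := K1_hyp A hs hi u hu c0 h0 μ hμ
  obtain ⟨a1, a2⟩ := K1_toNP0 (u := u) hi h1.1
  obtain ⟨b1, b2⟩ := K1_toNP0 (u := u) hi h2
  have e0 : tw u f1 = c0 := by
    obtain ⟨⟨f, hf, hfc⟩, h3⟩ := h0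
    exact le_antisymm (hfc ▸ h1.2 f hf) (h3 f1 h1.1)
  have e1 : QCP.WT (K1_f u c0 μ) (Option.map f1) = 2 * ∑ o, K1_M c0 μ o := by
    rw [K1_wt u c0 μ none _ a1.1 a1.2.1 fun v hv => QCP.np_ne (K1_E_irr hi) a1 hv, a2, e0]
    change 2 * (c0 : ℤ) + _ - 2 * (c0 : ℤ) = _
    ring
  have h3 := QCP.count_le H α a1 e1 b1
  have key : ∀ f : V → V, IsPM A f → (univ.filter fun o : Option V => Option.map f o = o ∨ α < K1_f u c0 μ o (Option.map f o)).card =
      1 + (univ.filter fun x => α < ((2 * u x (f x) + μ x + μ (f x) : ℕ) : ℤ)).card := by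
    intro f hf
    rw [card_filter, card_filter, Fintype.sum_option]
    have h9 : (Option.map f none = none ∨ α < K1_f u c0 μ none (Option.map f none)) := Or.inl rfl
    rw [if_pos h9]
    congr 1
    refine sum_congr rfl fun x _ => ?_
    have h4 : f x ≠ x := fun h0 => hi x (by have := hf.2 x; rwa [h0] at this)
    have h5 : K1_f u c0 μ (some x) (Option.map f (some x)) = ((2 * u x (f x) + μ x + μ (f x) : ℕ) : ℤ) := by
      have h8 : ¬ (some x = Option.map f (some x)) := fun h => h4 (Option.some.inj h).symm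
      unfold K1_f
      rw [if_neg h8]
      change 2 * (u x (f x) : ℤ) + (μ x : ℤ) + (μ (f x) : ℤ) = _
      push_cast
      ring
    rw [h5]
    have h6 : ¬ Option.map f (some x) = some x := fun h => h4 (Option.some.inj h)
    by_cases h7 : α < ((2 * u x (f x) + μ x + μ (f x) : ℕ) : ℤ)
    · rw [if_pos (Or.inr h7), if_pos h7]
    · rw [if_neg (fun h => h.elim h6 h7), if_neg h7]
  rw [key f1 h1.1, key f2 h2] at h3
  omega

/-- the union of the least matchings -/
private theorem K1_HH {A : V → V → Prop} (hs : ∀ x y, A x y → A y x) (hi : ∀ x, ¬ A x x) {u : V → V → ℕ}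
    (hu : ∀ x y, u x y = u y x) (x y : V) : HH A u x y ↔ HG A u x y := by
  have key : A x y → ∀ f, (IsPM (Am A x y) f ↔ IsPM A f ∧ f x = y) ∧
      (IsPM (Am A x y) f → tw u f = tw (um u x y) f + 2 * u x y) := by
    intro hxy f
    have hne : y ≠ x := fun h => hi x (by rwa [h] at hxy)
    refine ⟨⟨fun h => ⟨⟨h.1, fun z => ?_⟩, K1_am_v h hne⟩, fun h => K1_am h.1 h.2 hne.symm⟩, fun h => ?_⟩
    · by_cases h1 : z = x
      · rw [h1, K1_am_v h hne]
        exact hxy
      · by_cases h2 : z = y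
        · rw [h2, K1_am_b h hne]
          exact hs _ _ hxy
        · exact (K1_am_x h hne h1 h2).1
    · have e1 := K1_am_v h hne
      have e2 := K1_am_b h hne
      have h3 : ∀ z, u z (f z) = um u x y z (f z) + ((if z = x then u x y else 0) + (if z = y then u x y else 0)) := by
        intro z
        by_cases h1 : z = x
        · subst h1
          rw [e1]
          simp [um, hne.symm]
        · by_cases h2 : z = y
          · subst h2
            rw [e2]
            simp [um, hne, hne.symm, hu z x]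
          · obtain ⟨_, h3, h4⟩ := K1_am_x h hne h1 h2
            simp [um, h1, h2]
      unfold tw
      rw [sum_congr rfl fun z _ => h3 z, sum_add_distrib, sum_add_distrib]
      simp only [sum_ite_eq', mem_univ, if_true]
      omega
  constructor
  · rintro ⟨hxy, c, c0, ⟨⟨f, hf, hfc⟩, _⟩, hc0, hc⟩
    obtain ⟨h1, h2⟩ := key hxy f
    obtain ⟨h3, h4⟩ := h1.1 hf
    refine ⟨f, ⟨h3, fun g hg => ?_⟩, h4⟩
    have h5 := h2 hf
    have h6 := hc0.2 g hg
    omega
  · rintro ⟨f, hf, hfx⟩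
    have hxy : A x y := by
      rw [← hfx]
      exact hf.1.2 x
    have h1 := (key hxy f).1.2 ⟨hf.1, hfx⟩
    have h2 := (key hxy f).2 h1
    refine ⟨hxy, tw (um u x y) f, tw u f, ⟨⟨f, h1, rfl⟩, fun g hg => ?_⟩, ⟨⟨f, hf.1, rfl⟩, hf.2⟩, h2.symm⟩
    have h3 := (key hxy g).2 hg
    have h4 := hf.2 g ((key hxy g).1.1 hg).1
    omega

/-- the number of the `α < B` below a number -/
private theorem K1_layer {f : V → ℕ} {B : ℕ} (hB : ∀ v, f v ≤ B) : ∑ v, f v = ∑ α ∈ range B, (univ.filter fun v => α < f v).card := by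
  simp_rw [card_filter]
  rw [sum_comm]
  refine sum_congr rfl fun v _ => ?_
  rw [← card_filter]
  have : (range B).filter (fun α => α < f v) = range (f v) := by
    ext α
    simp only [mem_filter, mem_range]
    have := hB v
    omega
  rw [this, card_range]

theorem compress (A : V → V → Prop) (hs : ∀ x y, A x y → A y x) (hi : ∀ x, ¬ A x x) (u : V → V → ℕ) (hu : ∀ x y, u x y = u y x) (hM : ∃ f, IsPM A f) :
    (∀ x y, HH A u x y ↔ HG A u x y) ∧ (∀ v, ∃ c, MU A u v c) ∧ (∀ f, IsMin (HH A u) (rkn A u) f ↔ IsMin A u f) ∧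
      (∀ x y, rkn A u x y ≤ Fintype.card V) ∧ ∀ x y, rkn A u x y = rkn A u y x := by
  classical
  have hHH := K1_HH hs hi hu
  have hmu := K1_mu_ex A hi u hM
  obtain ⟨c0, h0⟩ := K1_lw_ex A u hM
  choose μ hμ using hmu
  have hFV : ∀ x y d, FV A u x y d ↔ d = 2 * u x y + μ x + μ y := by
    intro x y d
    constructor
    · rintro ⟨c, c', h1, h2, h3⟩
      rw [h3, K1_mu_uniq h1 (hμ x), K1_mu_uniq h2 (hμ y)]
    · intro h
      exact ⟨μ x, μ y, hμ x, hμ y, h⟩
  set F : V → V → ℕ := fun x y => 2 * u x y + μ x + μ y with hF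
  set D : Finset ℕ := (univ.filter fun p : V × V => HG A u p.1 p.2).image fun p => F p.1 p.2 with hD
  have hDm : ∀ d, d ∈ D ↔ ∃ a b, HG A u a b ∧ F a b = d := by
    intro d
    rw [hD, mem_image]
    constructor
    · rintro ⟨⟨a, b⟩, h1, h2⟩
      exact ⟨a, b, (mem_filter.1 h1).2, h2⟩
    · rintro ⟨a, b, h1, h2⟩
      exact ⟨(a, b), mem_filter.2 ⟨mem_univ _, h1⟩, h2⟩
  have hrk : ∀ x y, rkn A u x y = (D.filter fun d => d < F x y).card := by
    intro x y
    unfold rkn
    rw [Nat.card_congr (Equiv.subtypeEquivRight (q := fun d => d ∈ D.filter fun d => d < F x y) fun d => ?_)]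
    · rw [Nat.card_eq_fintype_card, Fintype.card_coe]
    · rw [mem_filter, hDm]
      constructor
      · rintro ⟨⟨a, b, h1, h2⟩, d', h3, h4⟩
        refine ⟨⟨a, b, (hHH a b).1 h1, ((hFV a b d).1 h2).symm⟩, ?_⟩
        rw [(hFV x y d').1 h3] at h4
        exact h4
      · rintro ⟨⟨a, b, h1, h2⟩, h3⟩
        exact ⟨⟨a, b, (hHH a b).2 h1, (hFV a b d).2 h2.symm⟩, F x y, (hFV x y _).2 rfl, h3⟩
  have hcnt := fun (α : ℤ) (f1 f2 : V → V) (h1 : IsMin A u f1) (h2 : IsPM A f2) => K1_cnt A hs hi u hu c0 h0 μ hμ α h1 h2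
  obtain ⟨f0, hf0⟩ : ∃ f, IsMin A u f := by
    obtain ⟨⟨f, hf, hfc⟩, h2⟩ := h0
    exact ⟨f, hf, fun g hg => by rw [hfc]; exact h2 g hg⟩
  have hcntN : ∀ (α : ℕ) (f1 f2 : V → V), IsMin A u f1 → IsPM A f2 →
      (univ.filter fun x => α < F x (f1 x)).card ≤ (univ.filter fun x => α < F x (f2 x)).card := by
    intro α f1 f2 h1 h2
    have h3 := hcnt (α : ℤ) f1 f2 h1 h2
    simp only [Nat.cast_lt] at h3
    exact h3
  have htw : ∀ f : V → V, tw (rkn A u) f = ∑ d ∈ D, (univ.filter fun x => d < F x (f x)).card := by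
    intro f
    unfold tw
    simp_rw [hrk, card_filter]
    exact sum_comm
  have hAHH : ∀ f, IsPM (HH A u) f → IsPM A f := fun f hf => ⟨hf.1, fun v => (hf.2 v).1⟩
  have hHHm : ∀ f, IsMin A u f → IsPM (HH A u) f := fun f hf => ⟨hf.1.1, fun v => (hHH v (f v)).2 ⟨f, hf, rfl⟩⟩
  have hle : ∀ f1 f2, IsMin A u f1 → IsPM A f2 → tw (rkn A u) f1 ≤ tw (rkn A u) f2 := by
    intro f1 f2 h1 h2
    rw [htw, htw]
    exact sum_le_sum fun d _ => hcntN d f1 f2 h1 h2
  have hFsum : ∀ f : V → V, (∀ v, f (f v) = v) → ∑ v, F v (f v) = 2 * tw u f + 2 * ∑ v, μ v := by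
    intro f hf
    have h1 : ∑ v, μ (f v) = ∑ v, μ v := Equiv.sum_comp (Function.Involutive.toPerm f hf) μ
    have h2 : ∑ v, F v (f v) = ∑ v, 2 * u v (f v) + ∑ v, μ v + ∑ v, μ (f v) := by
      rw [← sum_add_distrib, ← sum_add_distrib]
    rw [h2, h1, ← mul_sum]
    unfold tw
    ring
  refine ⟨hHH, fun v => ⟨μ v, hμ v⟩, fun f => ⟨fun hf => ?_, fun hf => ⟨hHHm f hf, fun g hg => hle f g hf (hAHH g hg)⟩⟩, fun x y => ?_, fun x y => ?_⟩
  · have hfA := hAHH f hf.1
    have h1 : tw (rkn A u) f ≤ tw (rkn A u) f0 := hf.2 f0 (hHHm f0 hf0)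
    have h2 : ∀ d ∈ D, (univ.filter fun x => d < F x (f x)).card = (univ.filter fun x => d < F x (f0 x)).card := by
      have h3 : ∀ d ∈ D, (univ.filter fun x => d < F x (f0 x)).card ≤ (univ.filter fun x => d < F x (f x)).card :=
        fun d _ => hcntN d f0 f hf0 hfA
      rw [htw, htw] at h1
      have h4 := (sum_eq_sum_iff_of_le h3).1 (le_antisymm (sum_le_sum h3) h1)
      exact fun d hd => (h4 d hd).symm
    have hval : ∀ g, IsPM (HH A u) g → ∀ v, F v (g v) ∈ D := fun g hg v => (hDm _).2 ⟨v, g v, (hHH _ _).1 (hg.2 v), rfl⟩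
    have h5 : ∀ α : ℕ, (univ.filter fun x => α < F x (f x)).card = (univ.filter fun x => α < F x (f0 x)).card := by
      intro α
      by_cases h6 : ∃ d ∈ D, d ≤ α
      · obtain ⟨d0, hd0, hd0a⟩ := h6
        obtain ⟨d, hd, hmax⟩ := exists_max_image (D.filter fun d => d ≤ α) id ⟨d0, mem_filter.2 ⟨hd0, hd0a⟩⟩
        obtain ⟨hdD, hda⟩ := mem_filter.1 hd
        have h7 : ∀ g, IsPM (HH A u) g → (univ.filter fun x => α < F x (g x)) = univ.filter fun x => d < F x (g x) := by
          intro g hg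
          ext v
          simp only [mem_filter, mem_univ, true_and]
          constructor
          · intro h8
            omega
          · intro h8
            by_contra h9
            have h10 := hmax (F v (g v)) (mem_filter.2 ⟨hval g hg v, by omega⟩)
            simp only [id] at h10
            omega
        rw [h7 f hf.1, h7 f0 (hHHm f0 hf0), h2 d hdD]
      · push Not at h6
        have h7 : ∀ g, IsPM (HH A u) g → (univ.filter fun x => α < F x (g x)) = univ := by
          intro g hg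
          ext v
          simp only [mem_filter, mem_univ, true_and, iff_true]
          exact h6 _ (hval g hg v)
        rw [h7 f hf.1, h7 f0 (hHHm f0 hf0)]
    have h6 : ∑ v, F v (f v) = ∑ v, F v (f0 v) := by
      set B := ∑ v, F v (f v) + ∑ v, F v (f0 v) with hB
      have b1 : ∀ v, F v (f v) ≤ B := fun v =>
        (single_le_sum (f := fun v => F v (f v)) (fun _ _ => Nat.zero_le _) (mem_univ v)).trans (by omega)
      have b2 : ∀ v, F v (f0 v) ≤ B := fun v =>
        (single_le_sum (f := fun v => F v (f0 v)) (fun _ _ => Nat.zero_le _) (mem_univ v)).trans (by omega)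
      rw [K1_layer b1, K1_layer b2]
      exact sum_congr rfl fun α _ => h5 α
    rw [hFsum f hfA.1, hFsum f0 hf0.1.1] at h6
    refine ⟨hfA, fun g hg => ?_⟩
    have h7 := hf0.2 g hg
    omega
  · rw [hrk]
    refine (card_le_card (filter_subset _ _)).trans ?_
    have h1 : D ⊆ univ.image fun v => F v (f0 v) := by
      intro d hd
      obtain ⟨a, b, ⟨f1, hf1, hab⟩, hdF⟩ := (hDm d).1 hd
      by_contra hn
      have hn' : ∀ v, F v (f0 v) ≠ d := fun v hv => hn (mem_image.2 ⟨v, mem_univ _, hv⟩)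
      have e1 := hcnt (d : ℤ) f0 f1 hf0 hf1.1
      have e2 := hcnt ((d : ℤ) - 1) f1 f0 hf1 hf0.1
      have e3 : (univ.filter fun x => (d : ℤ) - 1 < ((2 * u x (f0 x) + μ x + μ (f0 x) : ℕ) : ℤ)) =
          univ.filter fun x => (d : ℤ) < ((2 * u x (f0 x) + μ x + μ (f0 x) : ℕ) : ℤ) := by
        ext v
        simp only [mem_filter, mem_univ, true_and]
        have h3 : 2 * u v (f0 v) + μ v + μ (f0 v) ≠ d := hn' v
        omega
      rw [e3] at e2
      have e4 : (univ.filter fun x => (d : ℤ) < ((2 * u x (f1 x) + μ x + μ (f1 x) : ℕ) : ℤ)).card <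
          (univ.filter fun x => (d : ℤ) - 1 < ((2 * u x (f1 x) + μ x + μ (f1 x) : ℕ) : ℤ)).card := by
        refine card_lt_card ((ssubset_iff_of_subset ?_).2 ⟨a, ?_, ?_⟩)
        · intro v hv
          have := (mem_filter.1 hv).2
          exact mem_filter.2 ⟨mem_univ _, by omega⟩
        · refine mem_filter.2 ⟨mem_univ _, ?_⟩
          have h3 : 2 * u a (f1 a) + μ a + μ (f1 a) = d := by
            rw [hab]
            exact hdF
          omega
        · intro h4
          have h5 := (mem_filter.1 h4).2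
          have h3 : 2 * u a (f1 a) + μ a + μ (f1 a) = d := by
            rw [hab]
            exact hdF
          omega
      omega
    exact (card_le_card h1).trans (card_image_le.trans (le_of_eq (card_univ)))
  · rw [hrk, hrk]
    have : F x y = F y x := by
      rw [hF]
      dsimp only
      rw [hu x y]
      ring
    rw [this]

end

end QSR
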