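import Pool.Agent.Lib.MP_0087d5_lcQS.SDefs
import Pool.Agent.Lib.MP_0087d5_lcQS.K1

/-!
# Leaf S3 (medium): one stage

Proof. Let `U = UU …`. `Am A x x = A`, `um U x x = U`. `UvC … x y d ↔ A x y ∧ nv d = U x y` (`hP`, `hr`; `U x y ≤ M < p`, `Nat.cast` and `Int.emod`/divisibility of a difference of two numbers less than `p`; `z` exists by `hρ`). `MuC … v c ↔ MU A U v (nv c)` (`hlw`; all least weights are at most `N * M`, so they are
values of `nv`; `tw (um U v w) f ≤ N * M`), `FvC … x y d ↔ A x y ∧ FV A U x y (nv d)`, `HhC … x y ↔ HH A U x y`. The rank: the map `nv` is a bijection between the two sets, because all their members are at most `2 * M + 2 * (N * M)`; `HH A U x y` implies `A x y`.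
-/

set_option autoImplicit false
set_option linter.all false

namespace QSR

open Finset Pool.Agent Pool.Agent.PMNC MTC LIN PRS QRB

private theorem S3_Am {V : Type} (A : V → V → Prop) (x : V) : Am A x x = A := by
  funext a b
  apply propext
  constructor
  · rintro (⟨_, h⟩ | ⟨h, _⟩)
    · exact h
    · exact absurd rfl h
  · exact fun h => Or.inl ⟨rfl, h⟩

private theorem S3_um {V : Type} [DecidableEq V] (u : V → V → ℕ) (x : V) : um u x x = u := by
  funext a b
  unfold um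
  rw [if_neg (fun h => h.1 rfl)]

private theorem S3_le {V : Type} [DecidableEq V] (u : V → V → ℕ) (v b x y : V) : um u v b x y ≤ u x y := by
  unfold um
  split_ifs
  · exact Nat.zero_le _
  · exact le_rfl

private theorem S3_LW {N : ℕ} {A : Fin N → Fin N → Prop} {u : Fin N → Fin N → ℕ} {M : ℕ} (hM : ∀ x y, u x y ≤ M) {c : ℕ}
    (h : LW A u c) : c ≤ N * M := by
  obtain ⟨⟨f, _, hf⟩, _⟩ := h
  rw [← hf]
  unfold MTC.tw
  refine (Finset.sum_le_card_nsmul _ _ M fun i _ => hM _ _).trans (le_of_eq ?_)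
  rw [Finset.card_univ, Fintype.card_fin, smul_eq_mul]

private theorem S3_MU {N : ℕ} {A : Fin N → Fin N → Prop} {u : Fin N → Fin N → ℕ} {M : ℕ} (hM : ∀ x y, u x y ≤ M) {v : Fin N} {c : ℕ}
    (h : MU A u v c) : c ≤ N * M := by
  obtain ⟨⟨b, _, hb⟩, _⟩ := h
  exact S3_LW (fun x y => (S3_le u v b x y).trans (hM x y)) hb

private theorem S3_FV {N : ℕ} {A : Fin N → Fin N → Prop} {u : Fin N → Fin N → ℕ} {M : ℕ} (hM : ∀ x y, u x y ≤ M) {x y : Fin N} {d : ℕ}
    (h : FV A u x y d) : d ≤ 2 * M + 2 * (N * M) := by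
  obtain ⟨c, c', hc, hc', rfl⟩ := h
  have h1 := S3_MU hM hc
  have h2 := S3_MU hM hc'
  have h3 := hM x y
  omega

theorem step_rep {S : ℕ → Type} [Env S] [∀ n, Fintype (S n)] {N : ℕ} (hN : 2 ≤ N) (a b : ℕ) (X : SimpleGraph (Fin N)) (q : S N × (S N × S N))
    (hm0 : ¬ nv q.2.1 = 0) (i : Fin N) (P : Fin N → Fin N → S N → Prop) (A : Fin N → Fin N → Prop) (hs : ∀ x y, A x y → A y x) (hi : ∀ x, ¬ A x x)
    (ρ : Fin N → Fin N → ℕ) (hP : Rep P A ρ) (hρ : ∀ x y, ∃ z : S N, nv z = ρ x y)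
    (r : ℕ) (hr : ∀ x y : Fin N, rz (nv q.2.1) (num 4 a X i ^ eid x y) = r ^ eid x y % nv q.2.1) (M : ℕ)
    (hM : ∀ x y, UU (nv q.1) (nv q.2.1) (fun x y => eid x y) r ρ x y ≤ M) (hMp : N * M < nv q.2.2 - 1) (hB : 4 * (N * M + M + 1) < N ^ dim S)
    (hlw : ∀ (v w : Fin N) (c : S N), LwC a b X q i P v w c ↔ LW (Am A v w) (um (UU (nv q.1) (nv q.2.1) (fun x y => eid x y) r ρ) v w) (nv c)) :
    Rep (StC a b X q i P) (HH A (UU (nv q.1) (nv q.2.1) (fun x y => eid x y) r ρ)) (rkn A (UU (nv q.1) (nv q.2.1) (fun x y => eid x y) r ρ)) := by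
  obtain ⟨U, hU⟩ : ∃ U, U = UU (nv q.1) (nv q.2.1) (fun x y => eid x y) r ρ := ⟨_, rfl⟩
  rw [← hU] at hM hlw ⊢
  have hMN : M ≤ N * M := Nat.le_mul_of_pos_left M (by omega)
  have hD1 : N * M < N ^ dim S := by omega
  have hD2 : 2 * M + 2 * (N * M) < N ^ dim S := by omega
  -- the weights
  have hUv : ∀ x y (d : S N), UvC a X q i P x y d ↔ A x y ∧ nv d = U x y := by
    intro x y d
    constructor
    · rintro ⟨_, hd, z, hz, hdv⟩
      obtain ⟨hA, hz'⟩ := (hP x y z).1 hz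
      refine ⟨hA, ?_⟩
      rw [hz', hr] at hdv
      have h1 : ((nv d : ℕ) : ℤ) - (((nv q.1 : ℕ) : ℤ) * ((ρ x y : ℕ) : ℤ) + ((r ^ eid x y % nv q.2.1 : ℕ) : ℤ)) =
          ((nv d : ℕ) : ℤ) - ((U x y : ℕ) : ℤ) := by
        rw [hU]
        unfold UU
        push_cast
        ring
      rw [h1] at hdv
      have h2 : U x y < nv q.2.2 := by
        have h3 := hM x y
        omega
      have h4 : ((nv d : ℕ) : ℤ) - ((U x y : ℕ) : ℤ) = 0 := by
        refine Int.eq_zero_of_abs_lt_dvd hdv ?_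
        rw [abs_lt]
        constructor <;> omega
      omega
    · rintro ⟨hA, hd⟩
      obtain ⟨z, hz⟩ := hρ x y
      refine ⟨hm0, ?_, z, (hP x y z).2 ⟨hA, hz⟩, ?_⟩
      · have h3 := hM x y
        omega
      · rw [hz, hr, hd, hU]
        unfold UU
        push_cast
        rw [sub_self]
        exact dvd_zero _
  have hUe : ∀ x y, ∃ u : S N, nv u = U x y := fun x y => nv_surj (by
    have h3 := hM x y
    omega)
  -- the edges of the perfect matchings of least weight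
  have hHh : ∀ x y, HhC a b X q i P x y ↔ HH A U x y := by
    intro x y
    constructor
    · rintro ⟨c, c0, u, s1, h1, h2, h3, h4, h5⟩
      rw [hlw] at h1 h2
      rw [S3_Am, S3_um] at h2
      obtain ⟨hA, hu⟩ := (hUv x y u).1 h3
      exact ⟨hA, nv c, nv c0, h1, h2, by omega⟩
    · rintro ⟨hA, c, c0, h1, h2, h3⟩
      have b2 := S3_LW hM h2
      have b3 := hM x y
      obtain ⟨c', hc⟩ := nv_surj (S := S) (n := N) (m := c) (by omega)
      obtain ⟨c0', hc0⟩ := nv_surj (S := S) (n := N) (m := c0) (by omega)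
      obtain ⟨u', hu⟩ := hUe x y
      obtain ⟨s', hs'⟩ := nv_surj (S := S) (n := N) (m := 2 * U x y) (by omega)
      refine ⟨c', c0', u', s', ?_, ?_, (hUv x y u').2 ⟨hA, hu⟩, by omega, by omega⟩
      · rw [hlw, hc]
        exact h1
      · rw [hlw, S3_Am, S3_um, hc0]
        exact h2
  -- the numbers `μ`
  have hMu : ∀ v (c : S N), MuC a b X q i P v c ↔ MU A U v (nv c) := by
    intro v c
    constructor
    · rintro ⟨⟨w, hw, h1⟩, h2⟩
      refine ⟨⟨w, hw, (hlw v w c).1 h1⟩, fun w' c' hw' hc' => ?_⟩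
      have b1 := S3_LW (fun x y => (S3_le U v w' x y).trans (hM x y)) hc'
      obtain ⟨c'', hc''⟩ := nv_surj (S := S) (n := N) (m := c') (by omega)
      have h3 := h2 w' c'' hw' ((hlw v w' c'').2 (by rw [hc'']; exact hc'))
      omega
    · rintro ⟨⟨w, hw, h1⟩, h2⟩
      exact ⟨⟨w, hw, (hlw v w c).2 h1⟩, fun w' c' hw' hc' => h2 w' (nv c') hw' ((hlw v w' c').1 hc')⟩
  -- the values
  have hFv : ∀ x y (d : S N), FvC a b X q i P x y d ↔ A x y ∧ FV A U x y (nv d) := by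
    intro x y d
    constructor
    · rintro ⟨c, c', u, s1, s2, h1, h2, h3, h4, h5, h6⟩
      obtain ⟨hA, hu⟩ := (hUv x y u).1 h3
      exact ⟨hA, nv c, nv c', (hMu x c).1 h1, (hMu y c').1 h2, by omega⟩
    · rintro ⟨hA, c, c', h1, h2, h3⟩
      have b1 := S3_MU hM h1
      have b2 := S3_MU hM h2
      have b3 := hM x y
      obtain ⟨e, he⟩ := nv_surj (S := S) (n := N) (m := c) (by omega)
      obtain ⟨e', he'⟩ := nv_surj (S := S) (n := N) (m := c') (by omega)
      obtain ⟨u', hu⟩ := hUe x y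
      obtain ⟨s1, hs1⟩ := nv_surj (S := S) (n := N) (m := 2 * U x y) (by omega)
      obtain ⟨s2, hs2⟩ := nv_surj (S := S) (n := N) (m := c + c') (by omega)
      exact ⟨e, e', u', s1, s2, (hMu x e).2 (by rw [he]; exact h1), (hMu y e').2 (by rw [he']; exact h2),
        (hUv x y u').2 ⟨hA, hu⟩, by omega, by omega, by omega⟩
  -- the ranks
  have hcard : ∀ x y, A x y → Nat.card {d : S N // (∃ x' y' : Fin N, HhC a b X q i P x' y' ∧ FvC a b X q i P x' y' d) ∧
      ∃ d' : S N, FvC a b X q i P x y d' ∧ nv d < nv d'} = rkn A U x y := by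
    intro x y hA
    unfold rkn
    refine Nat.card_congr (Equiv.ofBijective (fun d => ⟨nv d.1, ?_, ?_⟩) ⟨?_, ?_⟩)
    · obtain ⟨x', y', h1, h2⟩ := d.2.1
      exact ⟨x', y', (hHh x' y').1 h1, ((hFv x' y' d.1).1 h2).2⟩
    · obtain ⟨d', h1, h2⟩ := d.2.2
      exact ⟨nv d', ((hFv x y d').1 h1).2, h2⟩
    · intro d d' h
      exact Subtype.ext (nv_injective (congrArg Subtype.val h))
    · rintro ⟨d, ⟨x', y', h1, h2⟩, d', h3, h4⟩
      have b1 := S3_FV hM h2
      have b2 := S3_FV hM h3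
      obtain ⟨e, he⟩ := nv_surj (S := S) (n := N) (m := d) (by omega)
      obtain ⟨e', he'⟩ := nv_surj (S := S) (n := N) (m := d') (by omega)
      refine ⟨⟨e, ⟨x', y', (hHh x' y').2 h1, (hFv x' y' e).2 ⟨h1.1, by rw [he]; exact h2⟩⟩, e',
        (hFv x y e').2 ⟨hA, by rw [he']; exact h3⟩, by omega⟩, Subtype.ext he⟩
  intro x y z
  constructor
  · rintro ⟨h1, h2⟩
    have h3 := (hHh x y).1 h1
    rw [hcard x y h3.1] at h2
    exact ⟨h3, h2⟩
  · rintro ⟨h3, h2⟩
    refine ⟨(hHh x y).2 h3, ?_⟩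
    rw [hcard x y h3.1]
    exact h2

end QSR
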