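import Pool.Agent.Lib.MP_0087d5_lcQS.K1

/-!
# Leaf K2 (easy+): the states have the perfect matchings of least weight of the isolating weights

`st_inv`. Proof: induction on `i`. Step: let `(A, ρ) = St … i`, `w = r i ^ e % m`, `u = UU K m e (r i) ρ`. `IsMin A u f ↔ IsMin A ρ f ∧ ∀ g, IsMin A ρ g → tw w f ≤ tw w g`, because `tw u = K * tw ρ + tw w` and `tw w ≤ card V * m < K` (a lemma `dom` for arbitrary
`A, ρ, w`); the same for `T`, `WS … i` and `w`, so by the induction hypothesis `IsMin A u f ↔ IsMin T (WS … (i + 1)) f`; then `compress` (leaf K1).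
`st_last`: `(St … (i + 1)).1 = HG (St … i).1 u` (`compress`), the union of the perfect matchings of least weight, and there is exactly one (`h`).
-/

set_option autoImplicit false
set_option linter.all false

namespace QSR

open Finset MTC

section
variable {V : Type} [Fintype V] [DecidableEq V]

omit [DecidableEq V] in
private theorem K2_tw (K : ℕ) (ρ w : V → V → ℕ) (f : V → V) :
    tw (fun x y => K * ρ x y + w x y) f = K * tw ρ f + tw w f := by
  unfold tw
  rw [mul_sum, ← sum_add_distrib]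

omit [DecidableEq V] in
private theorem K2_dom {K : ℕ} (A : V → V → Prop) (ρ w : V → V → ℕ) (hw : ∀ f, tw w f < K) (f : V → V) :
    IsMin A (fun x y => K * ρ x y + w x y) f ↔ IsMin A ρ f ∧ ∀ g, IsMin A ρ g → tw w f ≤ tw w g := by
  constructor
  · rintro ⟨h1, h2⟩
    have h3 : ∀ g, IsPM A g → tw ρ f ≤ tw ρ g := by
      intro g hg
      have h4 := h2 g hg
      rw [K2_tw, K2_tw] at h4
      by_contra h5
      have h6 : K * (tw ρ g + 1) ≤ K * tw ρ f := Nat.mul_le_mul_left K (by omega)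
      rw [mul_add, mul_one] at h6
      have h7 := hw g
      omega
    refine ⟨⟨h1, h3⟩, fun g hg => ?_⟩
    have h4 := h2 g hg.1
    rw [K2_tw, K2_tw] at h4
    have h5 : tw ρ f = tw ρ g := le_antisymm (h3 g hg.1) (hg.2 f h1)
    rw [h5] at h4
    omega
  · rintro ⟨h1, h2⟩
    refine ⟨h1.1, fun g hg => ?_⟩
    rw [K2_tw, K2_tw]
    have h3 := h1.2 g hg
    rcases Nat.lt_or_ge (tw ρ f) (tw ρ g) with h4 | h4
    · have h6 : K * (tw ρ f + 1) ≤ K * tw ρ g := Nat.mul_le_mul_left K h4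
      rw [mul_add, mul_one] at h6
      have h7 := hw f
      omega
    · have h5 : tw ρ f = tw ρ g := le_antisymm h3 h4
      have h6 : IsMin A ρ g := ⟨hg, fun g' hg' => by
        rw [← h5]
        exact h1.2 g' hg'⟩
      have h7 := h2 g h6
      rw [h5]
      omega

omit [DecidableEq V] in
private theorem K2_exists {A : V → V → Prop} (w : V → V → ℕ) (hM : ∃ f, IsPM A f) : ∃ f, IsMin A w f := by
  classical
  obtain ⟨n, hn⟩ : ∃ n, n = Nat.find (p := fun n => ∃ f, IsPM A f ∧ tw w f = n)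
      (by obtain ⟨f, hf⟩ := hM; exact ⟨_, f, hf, rfl⟩) := ⟨_, rfl⟩
  obtain ⟨f, hf, hf2⟩ := Nat.find_spec (p := fun n => ∃ f, IsPM A f ∧ tw w f = n)
      (by obtain ⟨f, hf⟩ := hM; exact ⟨_, f, hf, rfl⟩)
  refine ⟨f, hf, fun g hg => ?_⟩
  rw [hf2]
  exact Nat.find_min' _ ⟨g, hg, rfl⟩

omit [DecidableEq V] in
private theorem K2_bd (e : V → V → ℕ) {K m : ℕ} (hm : 0 < m) (hK : Fintype.card V * m < K) (r : ℕ) (f : V → V) :
    tw (fun x y => r ^ e x y % m) f < K := by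
  refine lt_of_le_of_lt ?_ hK
  unfold tw
  rw [← smul_eq_mul, ← Finset.card_univ]
  exact Finset.sum_le_card_nsmul _ _ _ fun u _ => (Nat.mod_lt _ hm).le

theorem st_inv (T : V → V → Prop) (hs : ∀ x y, T x y → T y x) (hi : ∀ x, ¬ T x x) (e : V → V → ℕ) (he : ∀ x y, e x y = e y x) (K m : ℕ) (hm : 0 < m)
    (hK : Fintype.card V * m < K) (r : ℕ → ℕ) (hM : ∃ f, IsPM T f) (i : ℕ) :
    (∀ x y, (St T e K m r i).1 x y → (St T e K m r i).1 y x) ∧ (∀ x y, (St T e K m r i).1 x y → T x y) ∧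
      (∃ f, IsPM (St T e K m r i).1 f) ∧ (∀ x y, (St T e K m r i).2 x y ≤ Fintype.card V) ∧
      (∀ x y, (St T e K m r i).2 x y = (St T e K m r i).2 y x) ∧
      ∀ f, IsMin (St T e K m r i).1 (St T e K m r i).2 f ↔ IsMin T (WS e K m r i) f := by
  induction i with
  | zero =>
    refine ⟨hs, fun x y h => h, hM, fun x y => Nat.zero_le _, fun x y => rfl, fun f => ?_⟩
    have h1 : WS e K m r 0 = fun _ _ => 0 := by
      funext x y
      rfl
    rw [h1]
    exact Iff.rfl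
  | succ i ih =>
    obtain ⟨i1, i2, i3, i4, i5, i6⟩ := ih
    obtain ⟨A, hA⟩ : ∃ A, A = (St T e K m r i).1 := ⟨_, rfl⟩
    obtain ⟨ρ, hρ⟩ : ∃ ρ, ρ = (St T e K m r i).2 := ⟨_, rfl⟩
    have hS : St T e K m r (i + 1) = (HH A (UU K m e (r i) ρ), rkn A (UU K m e (r i) ρ)) := by
      rw [hA, hρ]
      rfl
    rw [hS]
    rw [← hA] at i1 i2 i3
    rw [← hρ] at i4 i5
    rw [← hA, ← hρ] at i6
    dsimp only
    have hu : ∀ x y, UU K m e (r i) ρ x y = UU K m e (r i) ρ y x := by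
      intro x y
      unfold UU
      rw [i5 x y, he x y]
    obtain ⟨c1, c2, c3, c4, c5⟩ := compress A i1 (fun x h => hi x (i2 x x h)) (UU K m e (r i) ρ) hu i3
    have hUU : UU K m e (r i) ρ = fun x y => K * ρ x y + (fun x y => r i ^ e x y % m) x y := by
      funext x y
      rfl
    have hWS : WS e K m r (i + 1) = fun x y => K * WS e K m r i x y + (fun x y => r i ^ e x y % m) x y := by
      funext x y
      rfl
    refine ⟨fun x y h => ?_, fun x y h => i2 x y h.1, ?_, c4, c5, fun f => ?_⟩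
    · rw [c1] at h ⊢
      obtain ⟨f, hf, hxy⟩ := h
      exact ⟨f, hf, by rw [← hxy]; exact hf.1.1 x⟩
    · obtain ⟨f, hf⟩ := K2_exists (UU K m e (r i) ρ) i3
      exact ⟨f, ((c3 f).2 hf).1⟩
    · rw [c3 f, hUU, hWS, K2_dom A ρ _ (K2_bd e hm hK (r i)), K2_dom T _ _ (K2_bd e hm hK (r i)), i6 f]
      exact and_congr_right fun _ => forall_congr' fun g => by rw [i6 g]

theorem st_last (T : V → V → Prop) (hs : ∀ x y, T x y → T y x) (hi : ∀ x, ¬ T x x) (e : V → V → ℕ) (he : ∀ x y, e x y = e y x) (K m : ℕ) (hm : 0 < m)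
    (hK : Fintype.card V * m < K) (r : ℕ → ℕ) (i : ℕ)
    (h : ∃ f, IsPM T f ∧ ∀ f', IsPM T f' → f' ≠ f → tw (WS e K m r (i + 1)) f < tw (WS e K m r (i + 1)) f') :
    ∃ f, IsPM T f ∧ ∀ x y, (St T e K m r (i + 1)).1 x y ↔ f x = y := by
  obtain ⟨f, hf, hf2⟩ := h
  refine ⟨f, hf, ?_⟩
  have hmin : ∀ g, IsMin T (WS e K m r (i + 1)) g ↔ g = f := by
    intro g
    constructor
    · intro hg
      by_contra h1
      have h2 := hf2 g hg.1 h1
      have h3 := hg.2 f hf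
      omega
    · rintro rfl
      refine ⟨hf, fun g' hg' => ?_⟩
      by_cases h1 : g' = g
      · rw [h1]
      · exact (hf2 g' hg' h1).le
  obtain ⟨i1, i2, i3, i4, i5, i6⟩ := st_inv T hs hi e he K m hm hK r ⟨f, hf⟩ i
  obtain ⟨j1, j2, j3, j4, j5, j6⟩ := st_inv T hs hi e he K m hm hK r ⟨f, hf⟩ (i + 1)
  obtain ⟨A, hA⟩ : ∃ A, A = (St T e K m r i).1 := ⟨_, rfl⟩
  obtain ⟨ρ, hρ⟩ : ∃ ρ, ρ = (St T e K m r i).2 := ⟨_, rfl⟩
  have hS : St T e K m r (i + 1) = (HH A (UU K m e (r i) ρ), rkn A (UU K m e (r i) ρ)) := by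
    rw [hA, hρ]
    rfl
  rw [hS] at j6 ⊢
  rw [← hA] at i1 i2 i3
  rw [← hρ] at i5
  dsimp only at j6 ⊢
  have hu : ∀ x y, UU K m e (r i) ρ x y = UU K m e (r i) ρ y x := by
    intro x y
    unfold UU
    rw [i5 x y, he x y]
  obtain ⟨c1, c2, c3, c4, c5⟩ := compress A i1 (fun x h => hi x (i2 x x h)) (UU K m e (r i) ρ) hu i3
  intro x y
  rw [c1]
  constructor
  · rintro ⟨g, hg, hxy⟩
    have h1 : g = f := (hmin g).1 ((j6 g).1 ((c3 g).2 hg))
    rw [← h1]
    exact hxy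
  · intro hxy
    exact ⟨f, (c3 f).1 ((j6 f).2 ((hmin f).2 rfl)), hxy⟩

end

end QSR
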