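import Pool.Agent.Lib.MP_0087d5_lcQS.S2
import Pool.Agent.Lib.MP_0087d5_lcQS.S3
import Pool.Agent.Lib.MP_0087d5_lcQS.K2

/-!
# Leaf S4 (medium-): all stages

Proof. Let `st i = St T.Adj eid K m r i`; `st_inv` (leaf K2; `Fintype.card (Fin N) = N`) gives symmetry, irreflexivity (`st i ⊆ T`), a perfect matching, ranks at most `N`, symmetric ranks; so `UU … ≤ K * N + m ≤ M`. By induction on `i ≤ 2 L` and `k`: for `i < k` the relation
`fun x y z => ((opC …)^[k] fun _ => False) (i, (x, (y, z)))` is `Rep` of `st i` (`Function.iterate_succ_apply'`; `i = 0`: the first clause of `opC` (the second one needs `j + 1 = 0`); `i + 1`: the second clause with `j = i`, `lwc_iff` (leaf S2), `step_rep` (leaf S3)). `2 * Nat.size N = 2 * (L + 1) > 2 L`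
(`size_log`). The vertex with value `2 L` exists by `hL` and is the only `i` in `OutR`. `OutR x y ↔ (st (2 L)).1 x y` (ranks at most `N` are values of `nv`; `st ⊆ T`), and `st_last` (leaf K2) with `2 L = (2 L - 1) + 1` (`L ≥ 1`).
-/

set_option autoImplicit false
set_option linter.all false

namespace QSR

open Finset Pool.Agent Pool.Agent.PMNC MTC LIN PRS QRB

theorem out_complete {S : ℕ → Type} [Env S] [∀ n, Fintype (S n)] {N : ℕ} (hN : 2 ≤ N) (a b : ℕ) (X T : SimpleGraph (Fin N)) (q : S N × (S N × S N))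
    (hm : (nv q.2.1).Prime) (hp : (nv q.2.2).Prime) (hK : N * nv q.2.1 < nv q.1) (M : ℕ) (hM : nv q.1 * N + nv q.2.1 ≤ M) (hMp : N * M < nv q.2.2 - 1)
    (hB : 4 * (N * M + M + 1) < N ^ dim S) (hL : 2 * Nat.log 2 N < N) (r : ℕ → ℕ)
    (hr : ∀ i : Fin N, (i : ℕ) < 2 * Nat.log 2 N → ∀ x y : Fin N, rz (nv q.2.1) (num 4 a X i ^ eid x y) = r i ^ eid x y % nv q.2.1)
    (hiso : Iso T (WS (fun x y => eid x y) (nv q.1) (nv q.2.1) r (2 * Nat.log 2 N)))
    (hg : ∀ i < 2 * Nat.log 2 N, ∀ v w : Fin N, GoodY (nv q.2.2) (Am (St T.Adj (fun x y => eid x y) (nv q.1) (nv q.2.1) r i).1 v w)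
      (um (UU (nv q.1) (nv q.2.1) (fun x y => eid x y) (r i) (St T.Adj (fun x y => eid x y) (nv q.1) (nv q.2.1) r i).2) v w)
      (fun x y => ((zY a b (nv q.2.1) X x y : ℤ) : ZMod (nv q.2.2)))) :
    ∃ f, MTC.IsPM T.Adj f ∧ ∀ x y, OutR a b X T q x y ↔ f x = y := by
  haveI : Fact (nv q.2.2).Prime := ⟨hp⟩
  have hm0 : ¬ nv q.2.1 = 0 := hm.pos.ne'
  obtain ⟨f0, hf0, hf1⟩ := hiso
  have hcard : Fintype.card (Fin N) * nv q.2.1 < nv q.1 := by rw [Fintype.card_fin]; exact hK
  have hNM : N ≤ M := by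
    have h1 : 1 ≤ nv q.1 := by omega
    have h2 : 1 * N ≤ nv q.1 * N := Nat.mul_le_mul_right N h1
    omega
  have inv := fun i : ℕ => st_inv T.Adj (fun x y h => h.symm) (fun x h => SimpleGraph.irrefl T h) (fun x y => eid x y) (fun x y => eid_comm x y)
    (nv q.1) (nv q.2.1) hm.pos hcard r ⟨f0, hf0⟩ i
  have hval : ∀ i : ℕ, ∀ x y : Fin N, ∃ z : S N, nv z = (St T.Adj (fun x y => eid x y) (nv q.1) (nv q.2.1) r i).2 x y := by
    intro i x y
    apply nv_surj
    have h1 := (inv i).2.2.2.1 x y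
    rw [Fintype.card_fin] at h1
    have h2 : 0 ≤ N * M := Nat.zero_le _
    omega
  have main : ∀ i : ℕ, i ≤ 2 * Nat.log 2 N → ∀ k : ℕ, i < k → ∀ I : Fin N, (I : ℕ) = i →
      Rep (fun x y z => ((opC a b X T q)^[k] fun _ => False) (I, (x, (y, z))))
        (St T.Adj (fun x y => eid x y) (nv q.1) (nv q.2.1) r i).1 (St T.Adj (fun x y => eid x y) (nv q.1) (nv q.2.1) r i).2 := by
    intro i
    induction i with
    | zero =>
      intro _ k hk I hI x y z
      obtain ⟨k', rfl⟩ : ∃ k', k = k' + 1 := ⟨k - 1, by omega⟩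
      show ((opC a b X T q)^[k' + 1] fun _ => False) (I, (x, (y, z))) ↔ T.Adj x y ∧ nv z = 0
      rw [Function.iterate_succ_apply']
      unfold opC
      constructor
      · rintro (⟨_, h1, h2⟩ | ⟨j, hj, _⟩)
        · exact ⟨h1, h2⟩
        · exfalso
          have hj' : (j : ℕ) + 1 = (I : ℕ) := hj
          omega
      · rintro ⟨h1, h2⟩
        exact Or.inl ⟨hI, h1, h2⟩
    | succ i ih =>
      intro hi k hk I hI x y z
      obtain ⟨k', rfl⟩ : ∃ k', k = k' + 1 := ⟨k - 1, by omega⟩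
      have hiN : i < N := by omega
      have hrep := ih (by omega) k' (by omega) ⟨i, hiN⟩ rfl
      have hri : ∀ x y : Fin N, rz (nv q.2.1) (num 4 a X (⟨i, hiN⟩ : Fin N) ^ eid x y) = r i ^ eid x y % nv q.2.1 := by
        intro x y
        exact hr ⟨i, hiN⟩ (show i < 2 * Nat.log 2 N by omega) x y
      have hU : ∀ x y : Fin N, UU (nv q.1) (nv q.2.1) (fun x y => eid x y) (r i)
          (St T.Adj (fun x y => eid x y) (nv q.1) (nv q.2.1) r i).2 x y ≤ M := by
        intro x y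
        unfold UU
        have h1 := (inv i).2.2.2.1 x y
        rw [Fintype.card_fin] at h1
        have h2 := Nat.mul_le_mul_left (nv q.1) h1
        have h3 : r i ^ eid x y % nv q.2.1 < nv q.2.1 := Nat.mod_lt _ hm.pos
        show nv q.1 * _ + r i ^ eid x y % nv q.2.1 ≤ M
        omega
      have hstep := step_rep hN a b X q hm0 ⟨i, hiN⟩ _ _ (inv i).1 (fun x h => SimpleGraph.irrefl T ((inv i).2.1 x x h)) _ hrep (hval i) (r i) hri M hU hMp hB
        (fun v w c => lwc_iff a b X q hm0 ⟨i, hiN⟩ _ _ (inv i).1 (fun x h => SimpleGraph.irrefl T ((inv i).2.1 x x h)) _ (inv i).2.2.2.2.1 hrep (hval i) (r i) hri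
          v w M hU hMp (hg i (by omega) v w) c)
      show ((opC a b X T q)^[k' + 1] fun _ => False) (I, (x, (y, z))) ↔ _
      rw [Function.iterate_succ_apply']
      unfold opC
      constructor
      · rintro (⟨h1, _⟩ | ⟨j, hj, h2⟩)
        · exfalso
          have h1' : (I : ℕ) = 0 := h1
          omega
        · have hj' : (j : ℕ) + 1 = (I : ℕ) := hj
          have hji : j = ⟨i, hiN⟩ := by
            apply Fin.ext
            show (j : ℕ) = i
            omega
          subst hji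
          exact (hstep x y z).1 h2
      · intro h
        refine Or.inr ⟨⟨i, hiN⟩, hI.symm, ?_⟩
        exact (hstep x y z).2 h
  have hLp : 1 ≤ Nat.log 2 N := Nat.log_pos (by norm_num) hN
  have hsz : Nat.size N = Nat.log 2 N + 1 := size_log (by omega)
  have hout : ∀ x y, OutR a b X T q x y ↔ (St T.Adj (fun x y => eid x y) (nv q.1) (nv q.2.1) r (2 * Nat.log 2 N)).1 x y := by
    intro x y
    have hfin := main (2 * Nat.log 2 N) le_rfl (2 * Nat.size N) (by omega) ⟨2 * Nat.log 2 N, hL⟩ rfl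
    constructor
    · rintro ⟨_, i, z, ⟨h1, h2⟩, h3⟩
      have hi : i = ⟨2 * Nat.log 2 N, hL⟩ := by
        apply Fin.ext
        show (i : ℕ) = 2 * Nat.log 2 N
        by_contra hne
        have h4 := h2 ⟨2 * Nat.log 2 N, hL⟩ (by
          rw [Fin.lt_def]
          show 2 * Nat.log 2 N < (i : ℕ)
          omega)
        exact absurd (show 2 * Nat.log 2 N < 2 * Nat.log 2 N from h4) (lt_irrefl _)
      subst hi
      exact ((hfin x y z).1 h3).1
    · intro h
      obtain ⟨z, hz⟩ := hval (2 * Nat.log 2 N) x y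
      refine ⟨(inv _).2.1 x y h, ⟨2 * Nat.log 2 N, hL⟩, z, ⟨?_, ?_⟩, ?_⟩
      · show ¬ 2 * Nat.log 2 N < 2 * Nat.log 2 N
        exact lt_irrefl _
      · intro j hj
        rw [Fin.lt_def] at hj
        exact hj
      · exact (hfin x y z).2 ⟨h, hz⟩
  have hlast : ∃ i, 2 * Nat.log 2 N = i + 1 := ⟨2 * Nat.log 2 N - 1, by omega⟩
  obtain ⟨i, hi⟩ := hlast
  obtain ⟨f, hf, hfe⟩ := st_last T.Adj (fun x y h => h.symm) (fun x h => SimpleGraph.irrefl T h) (fun x y => eid x y) (fun x y => eid_comm x y)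
    (nv q.1) (nv q.2.1) hm.pos hcard r i (by rw [← hi]; exact ⟨f0, hf0, hf1⟩)
  refine ⟨f, hf, fun x y => ?_⟩
  rw [hout, hi]
  exact hfe x y

end QSR
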