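import Pool.Agent.Lib.MP_0087d5_lcQS.P1
import Pool.Agent.Lib.MP_0087d5_lcQB.Q7
import Pool.Agent.Lib.MP_0087d5_lcQB.Q8

/-!
# Leaf P2 (medium-): few bad choices of the numbers of the test

Proof: as leaf Q11 of MP_0087d5_lcQB (`bad_count`, by helper33), with `coeff_ne`, `coeff_deg`, `coeff_eval` in place of `pM_ne`, `pM_deg`. Let `R = 2 * Nat.log 2 N`. If `A` has no perfect matching, `GoodY` holds trivially. Otherwise let `c₀ = tw ω f` for a perfect matching `f` of least weight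
(`LW A ω c` iff `c = c₀`). `φ x = (2 ^ c * x) % m` is injective on `Fin (2 ^ α)`; `K = N * m + 1`; the sets `B` of `hI`; `rc_count` for the bad `ρ`; for the other `ρ` there is an isolated `f` for `K ^ clog * ω + WS … (clog 2 N)`, so (as in `iso_ext`, file Q8, for the weights
`K ^ i * ω + WS … i`, `i` from `clog 2 N` to `R`; `tw` of `r i ^ e % m` is at most `N * m < K`) for `K ^ R * ω + WS … R`, and `WS … R = ∑ j, K ^ (R - 1 - j) * (r j ^ e % m)` (as `ws_sum`; `QSR.WS` and `QRB.WS` are the same recursion). So the coefficient is not the zero polynomial and `sz_count`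
bounds the number of the `ξ`.
-/

set_option autoImplicit false
set_option linter.all false

namespace QSR

open Finset Pool.Agent Pool.Agent.PMNC MTC LIN PRS QRB

private theorem P2_inj {α m c : ℕ} (hm : m.Prime) (hα : 1 ≤ α) (hm2 : 2 ^ α < m) :
    Function.Injective (fun x : Fin (2 ^ α) => 2 ^ c * (x : ℕ) % m) := by
  intro x y h
  have h1 : 2 ^ c * (x : ℕ) ≡ 2 ^ c * (y : ℕ) [MOD m] := h
  have h2 : Nat.gcd m (2 ^ c) = 1 := by
    refine Nat.Coprime.pow_right _ ?_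
    rw [Nat.coprime_comm, Nat.coprime_two_left]
    refine hm.odd_of_ne_two ?_
    have h3 : 2 ^ 1 ≤ 2 ^ α := Nat.pow_le_pow_right (by norm_num) hα
    omega
  have h3 := Nat.ModEq.cancel_left_of_coprime h2 h1
  have h4 := Nat.ModEq.eq_of_lt_of_lt h3 (x.2.trans hm2) (y.2.trans hm2)
  exact Fin.ext h4

private theorem P2_sum {V : Type} (e : V → V → ℕ) (K m : ℕ) (r : ℕ → ℕ) (R : ℕ) (u v : V) :
    WS e K m r R u v = ∑ i : Fin R, K ^ (R - 1 - (i : ℕ)) * (r i ^ e u v % m) := by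
  induction R with
  | zero => simp [WS]
  | succ R ih =>
    change K * WS e K m r R u v + r R ^ e u v % m = _
    rw [ih, Fin.sum_univ_castSucc, Finset.mul_sum]
    congr 1
    · refine Finset.sum_congr rfl fun i _ => ?_
      rw [← mul_assoc, ← pow_succ']
      have h : R - 1 - (i : ℕ) + 1 = R + 1 - 1 - (i.castSucc : ℕ) := by
        have := i.2
        simp only [Fin.val_castSucc]
        omega
      rw [h]
      rfl
    · simp

/-- the isolation persists -/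
private theorem P2_ext {N : ℕ} (A : Fin N → Fin N → Prop) (ω : Fin N → Fin N → ℕ) (e : Fin N → Fin N → ℕ) (K m : ℕ)
    (hm : 0 < m) (hK : N * m < K) (r : ℕ → ℕ) {s R : ℕ} (hs : s ≤ R) (f : Fin N → Fin N)
    (h : ∀ f', MTC.IsPM A f' → f' ≠ f → MTC.tw (fun x y => K ^ s * ω x y + WS e K m r s x y) f <
      MTC.tw (fun x y => K ^ s * ω x y + WS e K m r s x y) f') :
    ∀ f', MTC.IsPM A f' → f' ≠ f → MTC.tw (fun x y => K ^ R * ω x y + WS e K m r R x y) f <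
      MTC.tw (fun x y => K ^ R * ω x y + WS e K m r R x y) f' := by
  obtain ⟨d, rfl⟩ := Nat.exists_eq_add_of_le hs
  clear hs
  induction d with
  | zero => exact h
  | succ d ih =>
    intro f' hf' hne
    have h1 := ih f' hf' hne
    have h2 : ∀ g : Fin N → Fin N, MTC.tw (fun x y => K ^ (s + (d + 1)) * ω x y + WS e K m r (s + (d + 1)) x y) g =
        K * MTC.tw (fun x y => K ^ (s + d) * ω x y + WS e K m r (s + d) x y) g + ∑ u, (r (s + d) ^ e u (g u) % m) := by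
      intro g
      unfold MTC.tw
      rw [Finset.mul_sum, ← Finset.sum_add_distrib]
      refine Finset.sum_congr rfl fun u _ => ?_
      change K ^ (s + (d + 1)) * ω u (g u) + (K * WS e K m r (s + d) u (g u) + r (s + d) ^ e u (g u) % m) = _
      rw [← add_assoc s d 1, pow_succ]
      ring
    have h3 : ∑ u, (r (s + d) ^ e u (f u) % m) ≤ N * m := by
      refine (Finset.sum_le_card_nsmul Finset.univ _ m fun u _ => (Nat.mod_lt _ hm).le).trans ?_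
      simp
    rw [h2, h2]
    have h4 : K * (MTC.tw (fun x y => K ^ (s + d) * ω x y + WS e K m r (s + d) x y) f + 1) ≤
      K * MTC.tw (fun x y => K ^ (s + d) * ω x y + WS e K m r (s + d) x y) f' := Nat.mul_le_mul_left _ h1
    rw [mul_add, mul_one] at h4
    omega

/-- the count for good numbers -/
private theorem P2_good {N α γ m p c c' : ℕ} (hN : 2 ≤ N) (hm : m.Prime) (hp : p.Prime)
    (hp2 : p ≠ 2) (hγ : 2 ^ γ ≤ p) (A : Fin N → Fin N → Prop) (hs : ∀ x y, A x y → A y x) (hi : ∀ x, ¬ A x x)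
    (ω : Fin N → Fin N → ℕ) (hω : ∀ x y, ω x y = ω y x) {B : ℕ → (ℕ → ℕ) → Finset ℕ}
    (hB3 : ∀ r : ℕ → ℕ, (∀ i < Nat.clog 2 N, r i < m ∧ r i ∉ B i r) → ∃ f, MTC.IsMin A ω f ∧ ∀ f', MTC.IsPM A f' → f' ≠ f →
        MTC.tw (fun x y => (N * m + 1) ^ Nat.clog 2 N * ω x y + WS eid (N * m + 1) m r (Nat.clog 2 N) x y) f <
          MTC.tw (fun x y => (N * m + 1) ^ Nat.clog 2 N * ω x y + WS eid (N * m + 1) m r (Nat.clog 2 N) x y) f')
    (ρ : Fin (2 * Nat.log 2 N) → Fin (2 ^ α))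
    (hρ : ¬ ∃ i : Fin (2 * Nat.log 2 N), (fun x : Fin (2 ^ α) => 2 ^ c * (x : ℕ) % m) (ρ i) ∈
      B i (QRB.ext (fun x : Fin (2 ^ α) => 2 ^ c * (x : ℕ) % m) ρ)) :
    Nat.card {ξ : Fin (2 * Nat.log 2 N) → Fin (2 ^ γ) //
      ¬ GoodY p A ω (fun x x' => ∏ j, ((2 ^ c' * (ξ j : ℕ) : ℕ) : ZMod p) ^ ((2 ^ c * (ρ j : ℕ)) ^ eid x x' % m))} * 2 ^ γ ≤
        N * (2 * Nat.log 2 N * m) * (2 ^ γ) ^ (2 * Nat.log 2 N) := by
  haveI : Fact p.Prime := ⟨hp⟩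
  obtain ⟨r, hr⟩ : ∃ r : ℕ → ℕ, r = QRB.ext (fun x : Fin (2 ^ α) => 2 ^ c * (x : ℕ) % m) ρ := ⟨_, rfl⟩
  have hr1 : ∀ i : Fin (2 * Nat.log 2 N), r i = 2 ^ c * ((ρ i : Fin (2 ^ α)) : ℕ) % m := by
    intro i
    rw [hr]
    unfold QRB.ext
    rw [dif_pos i.2]
  obtain ⟨f, hf, h1⟩ := hB3 r fun i hi' => by
    have hi'' : i < 2 * Nat.log 2 N := lt_of_lt_of_le hi' (clog_le hN)
    have h2 := hr1 ⟨i, hi''⟩
    dsimp only at h2
    refine ⟨?_, fun h3 => hρ ⟨⟨i, hi''⟩, ?_⟩⟩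
    · rw [h2]
      exact Nat.mod_lt _ hm.pos
    · rw [h2, hr] at h3
      exact h3
  have h2 := P2_ext A ω eid (N * m + 1) m hm.pos (Nat.lt_succ_self _) r (clog_le hN) f h1
  have h3 : ∀ x y : Fin N, (N * m + 1) ^ (2 * Nat.log 2 N) * ω x y + WS eid (N * m + 1) m r (2 * Nat.log 2 N) x y =
      (N * m + 1) ^ (2 * Nat.log 2 N) * ω x y + ∑ i : Fin (2 * Nat.log 2 N),
      (N * m + 1) ^ (2 * Nat.log 2 N - 1 - (i : ℕ)) * ((2 ^ c * ((ρ i : Fin (2 ^ α)) : ℕ)) ^ eid x y % m) := by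
    intro u v
    rw [P2_sum]
    congr 1
    refine Finset.sum_congr rfl fun i _ => ?_
    rw [hr1 i, ← Nat.pow_mod]
  simp only [h3] at h2
  have h4 := coeff_ne p (2 * Nat.log 2 N) (N * m + 1) m (Nat.lt_succ_self _) A hs hi ω hω
    (fun i u v => (2 ^ c * ((ρ i : Fin (2 ^ α)) : ℕ)) ^ eid u v % m) (fun i u v => by rw [eid_comm u v])
    (fun i u v => (Nat.mod_lt _ hm.pos).le) f hf h2
  have h5 := coeff_deg p (2 * Nat.log 2 N) m A ω
    (fun i u v => (2 ^ c * ((ρ i : Fin (2 ^ α)) : ℕ)) ^ eid u v % m) (fun i u v => (Nat.mod_lt _ hm.pos).le) (MTC.tw ω f)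
  have h6 := (sz_count (c := c') hp2 hγ _ h4).trans (Nat.mul_le_mul_right _ h5)
  refine le_trans (Nat.mul_le_mul_right _ ?_) h6
  classical
  rw [Nat.card_eq_fintype_card, Nat.card_eq_fintype_card]
  refine Fintype.card_subtype_mono _ _ ?_
  intro ξ hξ
  by_contra h7
  apply hξ
  intro c₀ hc₀ h8
  obtain ⟨⟨f₀, hf₀, rfl⟩, hc1⟩ := hc₀
  have h9 : MTC.tw ω f₀ = MTC.tw ω f := le_antisymm (hc1 f hf.1) (hf.2 f₀ hf₀)
  apply h7
  rw [h9] at h8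
  rw [coeff_eval]
  exact h8

/-- the count over pairs -/
private theorem P2_pairs {R a g : ℕ} (Z : (Fin R → Fin a) → (Fin R → Fin g) → Prop) :
    Nat.card {y : Fin R → Fin a × Fin g // Z (fun i => (y i).1) (fun i => (y i).2)} =
      ∑ ρ : Fin R → Fin a, Nat.card {ξ : Fin R → Fin g // Z ρ ξ} := by
  classical
  have h1 : Nat.card {y : Fin R → Fin a × Fin g // Z (fun i => (y i).1) (fun i => (y i).2)} =
      Nat.card {x : (Fin R → Fin a) × (Fin R → Fin g) // Z x.1 x.2} := by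
    refine Nat.card_congr ?_
    exact (Equiv.arrowProdEquivProdArrow (Fin R) (fun _ => Fin a) (fun _ => Fin g)).subtypeEquiv fun y => Iff.rfl
  rw [h1, Nat.card_eq_fintype_card, Fintype.card_subtype, Finset.card_filter, Fintype.sum_prod_type]
  refine Finset.sum_congr rfl fun ρ _ => ?_
  rw [Nat.card_eq_fintype_card, Fintype.card_subtype, Finset.card_filter]

theorem bad2_count {C : ℕ} (hI : IsoMostW C) {N α γ m p c c' : ℕ} (hN : 2 ≤ N) (hm : m.Prime) (hα : 1 ≤ α) (hm2 : 2 ^ α < m) (hp : p.Prime)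
    (hp2 : p ≠ 2) (hγ : 2 ^ γ ≤ p) (A : Fin N → Fin N → Prop) (hs : ∀ x y, A x y → A y x) (hi : ∀ x, ¬ A x x) (ω : Fin N → Fin N → ℕ) (hω : ∀ x y, ω x y = ω y x) :
    Nat.card {y : Fin (2 * Nat.log 2 N) → Fin (2 ^ α) × Fin (2 ^ γ) //
      ¬ GoodY p A ω (fun x x' => ∏ j, ((2 ^ c' * ((y j).2 : ℕ) : ℕ) : ZMod p) ^ ((2 ^ c * ((y j).1 : ℕ)) ^ eid x x' % m))} * (2 ^ α * 2 ^ γ) ≤
    (2 * Nat.log 2 N * N ^ C * 2 ^ γ + N * (2 * Nat.log 2 N * m) * 2 ^ α) * (2 ^ α * 2 ^ γ) ^ (2 * Nat.log 2 N) := by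
  classical
  by_cases hT : ∃ f, MTC.IsPM A f
  swap
  · have h0 : IsEmpty {y : Fin (2 * Nat.log 2 N) → Fin (2 ^ α) × Fin (2 ^ γ) //
      ¬ GoodY p A ω (fun x x' => ∏ j, ((2 ^ c' * ((y j).2 : ℕ) : ℕ) : ZMod p) ^ ((2 ^ c * ((y j).1 : ℕ)) ^ eid x x' % m))} := by
      refine ⟨fun y => y.2 ?_⟩
      intro c₀ hc₀
      obtain ⟨⟨f, hf, _⟩, _⟩ := hc₀
      exact absurd ⟨f, hf⟩ hT
    rw [Nat.card_of_isEmpty, zero_mul]
    exact Nat.zero_le _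
  obtain ⟨B, hB1, hB2, hB3⟩ := hI N hN m hm (N * m + 1) (Nat.lt_succ_self _) A hs hi hT ω hω
  obtain ⟨R, hR⟩ : ∃ R : ℕ, R = 2 * Nat.log 2 N := ⟨_, rfl⟩
  have hbad := rc_count (R := 2 * Nat.log 2 N) (M := N ^ C) (fun x : Fin (2 ^ α) => 2 ^ c * (x : ℕ) % m)
    (P2_inj hm hα hm2) B hB1 hB2
  have hgood := fun ρ : Fin (2 * Nat.log 2 N) → Fin (2 ^ α) =>
    P2_good (c := c) (c' := c') hN hm hp hp2 hγ A hs hi ω hω hB3 ρ
  have hpairs := P2_pairs (R := 2 * Nat.log 2 N) (a := 2 ^ α) (g := 2 ^ γ) (fun ρ ξ =>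
    ¬ GoodY p A ω (fun x x' => ∏ j, ((2 ^ c' * (ξ j : ℕ) : ℕ) : ZMod p) ^ ((2 ^ c * (ρ j : ℕ)) ^ eid x x' % m)))
  rw [hpairs]
  rw [← hR] at hbad hgood ⊢
  obtain ⟨bad, hbd⟩ : ∃ bad : (Fin R → Fin (2 ^ α)) → Prop, bad = fun ρ => ∃ i : Fin R,
    (fun x : Fin (2 ^ α) => 2 ^ c * (x : ℕ) % m) (ρ i) ∈ B i (QRB.ext (fun x : Fin (2 ^ α) => 2 ^ c * (x : ℕ) % m) ρ) := ⟨_, rfl⟩
  have hbad' : (∑ ρ : Fin R → Fin (2 ^ α), if bad ρ then 1 else 0) * 2 ^ α ≤ R * N ^ C * (2 ^ α) ^ R := by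
    rw [← Finset.card_filter, ← Fintype.card_subtype, ← Nat.card_eq_fintype_card, hbd]
    exact hbad
  obtain ⟨Z, hZ⟩ : ∃ Z : (Fin R → Fin (2 ^ α)) → ℕ, Z = fun ρ => Nat.card {ξ : Fin R → Fin (2 ^ γ) //
      ¬ GoodY p A ω (fun x x' => ∏ j, ((2 ^ c' * (ξ j : ℕ) : ℕ) : ZMod p) ^ ((2 ^ c * (ρ j : ℕ)) ^ eid x x' % m))} := ⟨_, rfl⟩
  have hZ1 : ∀ ρ, Z ρ ≤ (2 ^ γ) ^ R := by
    intro ρ
    rw [hZ]
    dsimp only
    rw [Nat.card_eq_fintype_card]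
    refine (Fintype.card_subtype_le _).trans ?_
    rw [Fintype.card_fun, Fintype.card_fin, Fintype.card_fin]
  have hZ2 : ∀ ρ, ¬ bad ρ → Z ρ * 2 ^ γ ≤ N * (R * m) * (2 ^ γ) ^ R := by
    intro ρ h
    rw [hZ]
    rw [hbd] at h
    exact hgood ρ h
  have hone : ∀ ρ : Fin R → Fin (2 ^ α), Z ρ * (2 ^ α * 2 ^ γ) ≤
        (if bad ρ then 1 else 0) * ((2 ^ γ) ^ R * (2 ^ α * 2 ^ γ)) + N * (R * m) * (2 ^ γ) ^ R * 2 ^ α := by
    intro ρ
    by_cases h : bad ρ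
    · rw [if_pos h, one_mul]
      refine le_trans ?_ (Nat.le_add_right _ _)
      exact Nat.mul_le_mul_right _ (hZ1 ρ)
    · rw [if_neg h, zero_mul, zero_add]
      calc _ = (Z ρ * 2 ^ γ) * 2 ^ α := by ring
        _ ≤ _ := Nat.mul_le_mul_right _ (hZ2 ρ h)
  have hcard : Fintype.card (Fin R → Fin (2 ^ α)) = (2 ^ α) ^ R := by
    rw [Fintype.card_fun, Fintype.card_fin, Fintype.card_fin]
  have hgoal : (∑ ρ : Fin R → Fin (2 ^ α), Z ρ) * (2 ^ α * 2 ^ γ) ≤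
    (R * N ^ C * 2 ^ γ + N * (R * m) * 2 ^ α) * (2 ^ α * 2 ^ γ) ^ R := by
    calc _ = ∑ ρ : Fin R → Fin (2 ^ α), Z ρ * (2 ^ α * 2 ^ γ) := Finset.sum_mul _ _ _
      _ ≤ ∑ ρ : Fin R → Fin (2 ^ α), ((if bad ρ then 1 else 0) * ((2 ^ γ) ^ R * (2 ^ α * 2 ^ γ)) +
            N * (R * m) * (2 ^ γ) ^ R * 2 ^ α) := Finset.sum_le_sum fun ρ _ => hone ρ
      _ = (∑ ρ : Fin R → Fin (2 ^ α), if bad ρ then 1 else 0) * ((2 ^ γ) ^ R * (2 ^ α * 2 ^ γ)) +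
            (2 ^ α) ^ R * (N * (R * m) * (2 ^ γ) ^ R * 2 ^ α) := by
          rw [Finset.sum_add_distrib, ← Finset.sum_mul, Finset.sum_const, Finset.card_univ, hcard, smul_eq_mul]
      _ = ((∑ ρ : Fin R → Fin (2 ^ α), if bad ρ then 1 else 0) * 2 ^ α) * ((2 ^ γ) ^ R * 2 ^ γ) +
            (2 ^ α) ^ R * (N * (R * m) * (2 ^ γ) ^ R * 2 ^ α) := by ring
      _ ≤ (R * N ^ C * (2 ^ α) ^ R) * ((2 ^ γ) ^ R * 2 ^ γ) +
            (2 ^ α) ^ R * (N * (R * m) * (2 ^ γ) ^ R * 2 ^ α) :=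
          Nat.add_le_add_right (Nat.mul_le_mul_right _ hbad') _
      _ = _ := by
          rw [mul_pow]
          ring
  rw [hZ] at hgoal
  exact hgoal

end QSR
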