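import Pool.Agent.Lib.MP_0087d5_lcQS.SDefs
import Pool.Agent.Lib.MP_0087d5_lcQB.Q2

/-!
# Leaf D1 (medium): the entries are definable

Proof: as leaf Q2 of MP_0087d5_lcQB (`defZ_num`, the part of `defP_accR` on the entries). `defZ_powr hp hm (…) (…)` gives `cnd (nv m = 0) 0 (x ^ rz m r)`. `DefZ.prod` over `j : Fin n` with `DefZ.ite` (`def_ltMul 2`, `def_ltMul 4`), `DefZ.sum` over `z : S n` with `DefZ.ite hP …`, `DefZ.pow`. For `nv m = 0` use `DefZ.ite (DefP.nZero hm)`.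
`defZ_rz`: the sum over `s : S n` of `cnd (nv s < nv m ∧ (nv m : ℤ) ∣ φ - nv s) (nv s) 0` (`DefZ.dvd`, `DefZ.sub`, `DefZ.nv'`), where `nv s < nv m` has exactly one solution.
-/

set_option autoImplicit false
set_option linter.all false

namespace QSR

open Finset Pool.Agent Pool.Agent.PMNC MTC LIN PRS QRB

section
variable {E S : ℕ → Type} [Env E] [Env S] [∀ n, Fintype (S n)]

theorem defZ_rz {p m : ∀ n : ℕ, E n → S n} (hp : Tm p) (hm : Tm m) {φ : ∀ n : ℕ, SimpleGraph (Fin n) → Ctx n → E n → ℤ} (hφ : DefZ m φ) :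
    DefZ p (fun n G X e => cnd (nv (m n e) = 0) 0 (((rz (nv (m n e)) (φ n G X e) : ℕ) : ℤ))) := by
  have h3 : DefZ p (fun n G X x => ∑ e : S n, cnd (rsd (m n x) e (φ n G X x)) ((nv e : ℕ) : ℤ) 0) := by
    refine DefZ.sum (F := S) hp (DefZ.ite (E := fun n => E n × S n) hφ ?_ (DefZ.zero (hp.comp (Tm.fst Tm.id))))
    exact DefZ.nv' (E := fun n => E n × S n) (H := S) (hp.comp (Tm.fst Tm.id)) (Tm.snd Tm.id)
  refine h3.congr fun n G X x => ?_
  by_cases h0 : nv (m n x) = 0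
  · rw [cnd_pos h0]
    refine Finset.sum_eq_zero fun e _ => cnd_neg (fun h => ?_) _ _
    have := h.1
    omega
  · rw [cnd_neg h0]
    have hpos : 0 < nv (m n x) := Nat.pos_of_ne_zero h0
    obtain ⟨e, he⟩ := rsd_ex hpos (φ n G X x)
    have hr : nv e = rz (nv (m n x)) (φ n G X x) := by
      have h4 : (nv e : ℤ) = φ n G X x % (nv (m n x) : ℤ) := by
        have h5 := he.1
        have h6 := he.2
        have h7 : (nv e : ℤ) % (nv (m n x) : ℤ) = φ n G X x % (nv (m n x) : ℤ) :=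
          (Int.modEq_iff_dvd).2 h6
        rw [← h7]
        exact (Int.emod_eq_of_lt (by omega) (by omega)).symm
      unfold rz
      omega
    rw [Finset.sum_eq_single e]
    · rw [cnd_pos he, hr]
    · intro e' _ hne
      rw [cnd_neg]
      intro h
      exact hne (rsd_unique h he (by simp))
    · intro h
      exact absurd (Finset.mem_univ _) h

/-- the power `num 4 a G i ^ eid x y` modulo `m` -/
private theorem D1_eid (a : ℕ) {m : ∀ n : ℕ, E n → S n} (hm : Tm m) {i u v : ∀ n : ℕ, E n → Fin n} (hi : Tm (F := fun n => Fin n) i)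
    (hu : Tm (F := fun n => Fin n) u) (hv : Tm (F := fun n => Fin n) v) :
    DefZ m (fun n G X e => num 4 a G (i n e) ^ eid (u n e) (v n e)) := by
  have hr := defZ_num (E := E) (S := S) 4 a hm hi
  refine (DefZ.ite (DefP.lt hu hv)
    (DefZ.pow (H := fun n => Fin n × Fin n) hm hr
      (Tm.pair (F := fun n => Fin n) (H := fun n => Fin n) hu hv))
    (DefZ.pow (H := fun n => Fin n × Fin n) hm hr
      (Tm.pair (F := fun n => Fin n) (H := fun n => Fin n) hv hu))).congr fun n G X y => ?_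
  unfold eid
  by_cases h : u n y < v n y
  · rw [cnd_pos h, if_pos h]
  · rw [cnd_neg h, if_neg h]

theorem defZ_zY (a b : ℕ) {p m : ∀ n : ℕ, E n → S n} (hp : Tm p) (hm : Tm m) {x y : ∀ n : ℕ, E n → Fin n} (hx : Tm (F := fun n => Fin n) x)
    (hy : Tm (F := fun n => Fin n) y) : DefZ p (fun n G X e => cnd (nv (m n e) = 0) 0 (zY a b (nv (m n e)) G (x n e) (y n e))) := by
  have hp1 : Tm (fun n (y : E n × Fin n) => p n y.1) := hp.comp (Tm.fst Tm.id)
  have hm1 : Tm (fun n (y : E n × Fin n) => m n y.1) := hm.comp (Tm.fst Tm.id)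
  have hx1 : Tm (F := fun n => Fin n) (fun n (z : E n × Fin n) => x n z.1) := hx.comp (Tm.fst Tm.id)
  have hy1 : Tm (F := fun n => Fin n) (fun n (z : E n × Fin n) => y n z.1) := hy.comp (Tm.fst Tm.id)
  have hi1 : Tm (F := fun n => Fin n) (fun n (y : E n × Fin n) => y.2) := Tm.snd Tm.id
  have hx2 := defZ_num (E := fun n => E n × Fin n) (S := S) a b hp1 hi1
  have hre := D1_eid (E := fun n => E n × Fin n) (S := S) a hm1 hi1 hx1 hy1
  have hpw := defZ_powr (E := fun n => E n × Fin n) hp1 hm1 hre hx2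
  have hP : DefZ p (fun n G X e => ∏ j : Fin n, cnd ((¬ (j : ℕ) < 2 * Nat.log 2 n) ∧ (j : ℕ) < 4 * Nat.log 2 n)
      (cnd (nv (m n e) = 0) 0 (num a b G j ^ rz (nv (m n e)) (num 4 a G j ^ eid (x n e) (y n e)))) 1) :=
    DefZ.prod (F := fun n => Fin n) hp (DefZ.ite (E := fun n => E n × Fin n)
      (DefP.and (DefP.not (def_ltMul (E := fun n => E n × Fin n) 2 hi1)) (def_ltMul (E := fun n => E n × Fin n) 4 hi1))
      hpw (DefZ.one hp1))
  refine (DefZ.ite (DefP.nZero hm) (DefZ.zero hp) hP).congr fun n G X e => ?_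
  by_cases h0 : nv (m n e) = 0
  · rw [cnd_pos h0, cnd_pos h0]
  · rw [cnd_neg h0, cnd_neg h0]
    unfold zY
    refine Finset.prod_congr rfl fun i _ => ?_
    rw [cnd_neg h0]

theorem defZ_ent (a b : ℕ) {P : ∀ n : ℕ, SimpleGraph (Fin n) → Ctx n → E n → Fin n → Fin n → S n → Prop}
    (hP : DefP (E := fun n => E n × (Fin n × (Fin n × S n))) (fun n G X y => P n G X y.1 y.2.1 y.2.2.1 y.2.2.2))
    {p K m t : ∀ n : ℕ, E n → S n} (hp : Tm p) (hK : Tm K) (hm : Tm m) (ht : Tm t) {i v w x y : ∀ n : ℕ, E n → Fin n} (hi : Tm (F := fun n => Fin n) i)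
    (hv : Tm (F := fun n => Fin n) v) (hw : Tm (F := fun n => Fin n) w) (hx : Tm (F := fun n => Fin n) x) (hy : Tm (F := fun n => Fin n) y) :
    DefZ p (fun n G X e => cnd (nv (m n e) = 0) 0
      (ent a b (nv (K n e)) (nv (m n e)) G (i n e) (P n G X e) (v n e) (w n e) ((nv (t n e) : ℕ) : ℤ) (x n e) (y n e))) := by
  have hp1 : Tm (fun n (y : E n × S n) => p n y.1) := hp.comp (Tm.fst Tm.id)
  have ht1 : Tm (fun n (y : E n × S n) => t n y.1) := ht.comp (Tm.fst Tm.id)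
  have hK1 : Tm (fun n (y : E n × S n) => K n y.1) := hK.comp (Tm.fst Tm.id)
  have hx1 : Tm (F := fun n => Fin n) (fun n (z : E n × S n) => x n z.1) := hx.comp (Tm.fst Tm.id)
  have hy1 : Tm (F := fun n => Fin n) (fun n (z : E n × S n) => y n z.1) := hy.comp (Tm.fst Tm.id)
  have hY := defZ_zY (S := S) a b hp hm hx hy
  have htp : DefZ p (fun n G X e => ((nv (t n e) : ℕ) : ℤ)) := DefZ.nv' (H := S) hp ht
  have hpw := defZ_powr hp hm (D1_eid (S := S) a hm hi hx hy) htp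
  have hPc : DefP (E := fun n => E n × S n) (fun n G X z => P n G X z.1 (x n z.1) (y n z.1) z.2) :=
    DefP.comp (F := fun n => E n × (Fin n × (Fin n × S n)))
      (f := fun n (z : E n × S n) => (z.1, (x n z.1, (y n z.1, z.2)))) hP
      (Tm.pair (Tm.fst Tm.id) (Tm.pair (F := fun n => Fin n) (H := fun n => Fin n × S n) hx1
        (Tm.pair (F := fun n => Fin n) (H := S) hy1 (Tm.snd Tm.id))))
  have hS : DefZ p (fun n G X e => ∑ z : S n, cnd (P n G X e (x n e) (y n e) z)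
      ((((nv (t n e) : ℕ) : ℤ) ^ nv (K n e)) ^ nv z) 0) := by
    refine DefZ.sum (F := S) hp (DefZ.ite (E := fun n => E n × S n) hPc ?_ (DefZ.zero hp1))
    exact DefZ.pow (E := fun n => E n × S n) (H := S) hp1
      (DefZ.pow (E := fun n => E n × S n) (H := S) hp1
        (DefZ.nv' (E := fun n => E n × S n) (H := S) hp1 ht1) hK1) (Tm.snd Tm.id)
  have hc0 : DefZ p (fun n G X e => cnd (x n e < y n e) 1 (-1)) :=
    DefZ.ite (DefP.lt hx hy) (DefZ.one hp) (DefZ.neg hp (DefZ.one hp))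
  have hnvw : DefP (fun n G X e => ¬ v n e = w n e) := DefP.not (DefP.eqFin hv hw)
  have hc1 : DefP (fun n G X e => ¬ v n e = w n e ∧ ((x n e = v n e ∧ y n e = w n e) ∨ (x n e = w n e ∧ y n e = v n e))) :=
    DefP.and hnvw (DefP.or (DefP.and (DefP.eqFin hx hv) (DefP.eqFin hy hw)) (DefP.and (DefP.eqFin hx hw) (DefP.eqFin hy hv)))
  have hc2 : DefP (fun n G X e => ¬ v n e = w n e ∧ (x n e = v n e ∨ x n e = w n e ∨ y n e = v n e ∨ y n e = w n e)) :=
    DefP.and hnvw (DefP.or (DefP.eqFin hx hv) (DefP.or (DefP.eqFin hx hw) (DefP.or (DefP.eqFin hy hv) (DefP.eqFin hy hw))))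
  refine (DefZ.ite (DefP.nZero hm) (DefZ.zero hp) (DefZ.mul hp (DefZ.mul hp hc0 hY)
    (DefZ.ite hc1 (DefZ.one hp) (DefZ.ite hc2 (DefZ.zero hp) (DefZ.mul hp hS hpw))))).congr fun n G X e => ?_
  by_cases h0 : nv (m n e) = 0
  · rw [cnd_pos h0, cnd_pos h0]
  · rw [cnd_neg h0, cnd_neg h0, cnd_neg h0, cnd_neg h0]
    unfold ent
    rfl

end

end QSR
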