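import Pool.Agent.Lib.MP_0087d5_lcQS.D4

/-!
# Leaf D5 (easy+): the matching and the set are definable

Proof: copy of PR/XG with `def_OutR` (leaf D4) for `T1`, `T2` (`def_T1`, `def_T2` in PR/XE) in place of `defP_ed` and `defP_acc2`, and `S n × (S n × S n)` in place of `Par S n`.
-/

set_option autoImplicit false
set_option linter.all false

namespace QSR

open Finset Pool.Agent Pool.Agent.PMNC MTC LIN PRS QRB

section
variable {S B E : ℕ → Type} [Env S] [Env B] [Env E] [∀ n, Fintype (S n)]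

private theorem D5_outT (a b : ℕ) {T : ∀ n : ℕ, SimpleGraph (Fin n) → B n → SimpleGraph (Fin n)}
    (hT : DefP (E := fun n => B n × (Fin n × Fin n)) (fun n G X y => (T n G y.1).Adj y.2.1 y.2.2))
    {e : ∀ n : ℕ, E n → B n × (S n × (S n × S n))} {u v : ∀ n : ℕ, E n → Fin n}
    (he : Tm (F := fun n => B n × (S n × (S n × S n))) e) (hu : Tm (F := fun n => Fin n) u) (hv : Tm (F := fun n => Fin n) v) :
    DefP (fun n G X x => OutR a b G (T n G (e n x).1) (e n x).2 (u n x) (v n x)) :=
  DefP.comp (F := fun n => (B n × (S n × (S n × S n))) × (Fin n × Fin n)) (f := fun n x => (e n x, (u n x, v n x))) (def_OutR a b hT)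
    (Tm.pair (F := fun n => B n × (S n × (S n × S n))) (H := fun n => Fin n × Fin n) he
      (Tm.pair (F := fun n => Fin n) (H := fun n => Fin n) hu hv))

private theorem D5_pm (a b : ℕ) {T : ∀ n : ℕ, SimpleGraph (Fin n) → B n → SimpleGraph (Fin n)}
    (hT : DefP (E := fun n => B n × (Fin n × Fin n)) (fun n G X y => (T n G y.1).Adj y.2.1 y.2.2))
    {e : ∀ n : ℕ, E n → B n × (S n × (S n × S n))} (he : Tm (F := fun n => B n × (S n × (S n × S n))) e) :
    DefP (fun n G X x => PMr (OutR a b G (T n G (e n x).1) (e n x).2)) := by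
  unfold PMr
  have e2 : Tm (E := fun n => (E n × Fin n) × Fin n) (F := fun n => B n × (S n × (S n × S n))) (fun n y => e n y.1.1) :=
    Tm.comp (g := e) (F := E) he (Tm.fst (Tm.fst Tm.id))
  have a2 : Tm (E := fun n => (E n × Fin n) × Fin n) (F := fun n => Fin n) (fun n y => y.1.2) := Tm.snd (Tm.fst Tm.id)
  have b2 : Tm (E := fun n => (E n × Fin n) × Fin n) (F := fun n => Fin n) (fun n y => y.2) := Tm.snd Tm.id
  have e3 : Tm (E := fun n => ((E n × Fin n) × Fin n) × Fin n) (F := fun n => B n × (S n × (S n × S n))) (fun n y => e n y.1.1.1) :=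
    Tm.comp (g := e) (F := E) he (Tm.fst (Tm.fst (Tm.fst Tm.id)))
  have a3 : Tm (E := fun n => ((E n × Fin n) × Fin n) × Fin n) (F := fun n => Fin n) (fun n y => y.1.1.2) :=
    Tm.snd (Tm.fst (Tm.fst Tm.id))
  have b3 : Tm (E := fun n => ((E n × Fin n) × Fin n) × Fin n) (F := fun n => Fin n) (fun n y => y.1.2) := Tm.snd (Tm.fst Tm.id)
  have c3 : Tm (E := fun n => ((E n × Fin n) × Fin n) × Fin n) (F := fun n => Fin n) (fun n y => y.2) := Tm.snd Tm.id
  refine DefP.and (DefP.allFin (DefP.exFin (D5_outT a b hT e2 a2 b2))) (DefP.and ?_ ?_)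
  · exact DefP.allFin (DefP.allFin (DefP.allFin (DefP.imp (D5_outT a b hT e3 a3 b3) (DefP.imp (D5_outT a b hT e3 a3 c3) (DefP.eqFin b3 c3)))))
  · exact DefP.allFin (DefP.allFin (DefP.imp (D5_outT a b hT e2 a2 b2) (D5_outT a b hT e2 b2 a2)))

end

section
variable {S E : ℕ → Type} [Env S] [Env E] [∀ n, Fintype (S n)]

private theorem D5_lst (a b : ℕ) {e : ∀ n : ℕ, E n → Fin n × (S n × (S n × S n))} (he : Tm (F := fun n => Fin n × (S n × (S n × S n))) e) :
    DefP (fun n G X x => LsQ S a b G (e n x)) := by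
  unfold LsQ
  have f : Tm (E := fun n => E n × (Fin n × (S n × (S n × S n)))) (F := fun n => Fin n × (S n × (S n × S n))) (fun n y => y.2) := Tm.snd Tm.id
  have e1 : Tm (E := fun n => E n × (Fin n × (S n × (S n × S n)))) (F := fun n => Fin n × (S n × (S n × S n))) (fun n y => e n y.1) :=
    Tm.comp (g := e) (F := E) he (Tm.fst Tm.id)
  have fa := Tm.fst (F := fun n => Fin n) (H := fun n => S n × (S n × S n)) f
  have fb := Tm.snd (F := fun n => Fin n) (H := fun n => S n × (S n × S n)) f
  have ea := Tm.fst (F := fun n => Fin n) (H := fun n => S n × (S n × S n)) e1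
  have eb := Tm.snd (F := fun n => Fin n) (H := fun n => S n × (S n × S n)) e1
  refine DefP.and (D5_pm (B := fun n => Fin n) a b (T := T1) def_T1 he) (DefP.all (F := fun n => Fin n × (S n × (S n × S n)))
    (DefP.imp (D5_pm (B := fun n => Fin n) a b (T := T1) def_T1 f) (DefP.or (DefP.lt ea fa)
    (DefP.and (DefP.eqFin ea fa) (DefP.nLe (F := fun n => S n × (S n × S n)) (H := fun n => S n × (S n × S n)) eb fb)))))

private theorem D5_gq (a b : ℕ) {v : ∀ n : ℕ, E n → Fin n} (hv : Tm (F := fun n => Fin n) v) :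
    DefP (fun n G X x => GQ S a b G (v n x)) := by
  unfold GQ
  have f : Tm (E := fun n => E n × (Fin n × (S n × (S n × S n)))) (F := fun n => Fin n × (S n × (S n × S n))) (fun n y => y.2) := Tm.snd Tm.id
  refine DefP.and (def_lo hv) (DefP.ex (F := fun n => Fin n × (S n × (S n × S n))) (DefP.and (D5_lst a b f)
    (DefP.ex (F := fun n => S n × (S n × S n)) ?_)))
  have g : Tm (E := fun n => (E n × (Fin n × (S n × (S n × S n)))) × (S n × (S n × S n))) (F := fun n => Fin n) (fun n y => y.1.2.1) :=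
    Tm.fst (F := fun n => Fin n) (H := fun n => S n × (S n × S n)) (Tm.snd (Tm.fst Tm.id))
  have w : Tm (E := fun n => (E n × (Fin n × (S n × (S n × S n)))) × (S n × (S n × S n))) (F := fun n => Fin n) (fun n y => v n y.1.1) :=
    Tm.comp (g := v) (F := E) hv (Tm.fst (Tm.fst Tm.id))
  have c : Tm (E := fun n => (E n × (Fin n × (S n × (S n × S n)))) × (S n × (S n × S n))) (F := fun n => S n × (S n × S n)) (fun n y => y.2) :=
    Tm.snd Tm.id
  exact D5_pm (B := fun n => Fin n × Fin n) a b (T := T2) def_T2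
    (e := fun n (y : (E n × (Fin n × (S n × (S n × S n)))) × (S n × (S n × S n))) => ((y.1.2.1, v n y.1.1), y.2))
    (Tm.pair (F := fun n => Fin n × Fin n) (H := fun n => S n × (S n × S n)) (Tm.pair (F := fun n => Fin n) (H := fun n => Fin n) g w) c)

end

theorem def_MQ {S : ℕ → Type} [Env S] [∀ n, Fintype (S n)] (a b : ℕ) :
    DefP (E := fun n => Fin n × Fin n) (fun n G X y => MQ S a b G y.1 y.2) := by
  unfold MQ
  have u : Tm (E := fun n => Fin n × Fin n) (F := fun n => Fin n) (fun n y => y.1) := Tm.fst Tm.id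
  have v : Tm (E := fun n => Fin n × Fin n) (F := fun n => Fin n) (fun n y => y.2) := Tm.snd Tm.id
  have f : Tm (E := fun n => (Fin n × Fin n) × (Fin n × (S n × (S n × S n)))) (F := fun n => Fin n × (S n × (S n × S n))) (fun n y => y.2) :=
    Tm.snd Tm.id
  have u1 : Tm (E := fun n => (Fin n × Fin n) × (Fin n × (S n × (S n × S n)))) (F := fun n => Fin n) (fun n y => y.1.1) :=
    Tm.fst (F := fun n => Fin n) (H := fun n => Fin n) (Tm.fst Tm.id)
  have v1 : Tm (E := fun n => (Fin n × Fin n) × (Fin n × (S n × (S n × S n)))) (F := fun n => Fin n) (fun n y => y.1.2) :=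
    Tm.snd (F := fun n => Fin n) (H := fun n => Fin n) (Tm.fst Tm.id)
  exact DefP.and (def_lo u) (DefP.and (def_lo v) (DefP.ex (F := fun n => Fin n × (S n × (S n × S n)))
    (DefP.and (D5_lst a b f) (D5_outT (B := fun n => Fin n) a b (T := T1) def_T1 f u1 v1))))

theorem def_UQ {S : ℕ → Type} [Env S] [∀ n, Fintype (S n)] (a b : ℕ) : DefP (E := fun n => Fin n) (fun n G X v => UQ S a b G v) := by
  unfold UQ
  have v : Tm (E := fun n => Fin n) (F := fun n => Fin n) (fun n y => y) := Tm.id
  have u1 : Tm (E := fun n => Fin n × Fin n) (F := fun n => Fin n) (fun n y => y.1) := Tm.fst Tm.id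
  have v1 : Tm (E := fun n => Fin n × Fin n) (F := fun n => Fin n) (fun n y => y.2) := Tm.snd Tm.id
  exact DefP.and (def_lo v) (DefP.and (DefP.not (D5_gq a b v)) (DefP.exFin (DefP.and (D5_gq a b v1) (DefP.adj u1 v1))))

end QSR
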