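import Pool.Agent.Lib.MP_0087d5_lcQS.D1

/-!
# Leaf D2 (medium-): the computed least weights are definable

Proof: as `defP_ed` (PR/XD): `DefZ.sum` over `t : S n` of `DefZ.ite (DefP.nLt …, DefP.nZero) (DefZ.mul (DefZ.pow …) (DefZ.det …))` with the entries of leaf D1 in the environment `(E n × S n) × (Fin n × Fin n)` (the relation `P` composed with the projections); for `nv m ≠ 0` the factor `cnd (nv m = 0) 0` is `1`.
Then `DefP.ex`, `DefP.all (F := S)`, `DefP.nAdd` and `DefP.nSucc` for `nv c + nv e + 1 = nv p` (`∃ s, nv c + nv e = nv s ∧ nv p = nv s + 1`, with `nv_down`), `DefZ.ndvd` (`nd`), `DefP.nLt`.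
-/

set_option autoImplicit false
set_option linter.all false

namespace QSR

open Finset Pool.Agent Pool.Agent.PMNC MTC LIN PRS QRB

section
variable {E S : ℕ → Type} [Env E] [Env S] [∀ n, Fintype (S n)]

private theorem D2_add {f g h : ∀ n : ℕ, E n → S n} (hf : Tm f) (hg : Tm g) (hh : Tm h) :
    DefP (fun n G X x => nv (f n x) + nv (g n x) + 1 = nv (h n x)) := by
  have h1 : DefP (fun n G X x => ∃ s : S n, nv (f n x) + nv (g n x) = nv s ∧ nv (h n x) = nv s + 1) := by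
    refine DefP.ex (E := E) (F := S) (P := fun n G X x s => nv (f n x) + nv (g n x) = nv s ∧ nv (h n x) = nv s + 1) ?_
    exact DefP.and (DefP.nAdd (E := fun n => E n × S n) (hf.comp (Tm.fst Tm.id)) (hg.comp (Tm.fst Tm.id)) (Tm.snd Tm.id))
      (DefP.nSucc (E := fun n => E n × S n) (Tm.snd Tm.id) (hh.comp (Tm.fst Tm.id)))
  refine h1.congr fun n G X x => ⟨?_, ?_⟩
  · rintro ⟨s, h2, h3⟩
    omega
  · intro h2
    obtain ⟨s, hs⟩ := nv_down (b := h n x) (m := nv (f n x) + nv (g n x)) (by omega)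
    exact ⟨s, hs.symm, by omega⟩

private theorem D2_nd (a b : ℕ) {P : ∀ n : ℕ, SimpleGraph (Fin n) → Ctx n → E n → Fin n → Fin n → S n → Prop}
    (hP : DefP (E := fun n => E n × (Fin n × (Fin n × S n))) (fun n G X y => P n G X y.1 y.2.1 y.2.2.1 y.2.2.2))
    {q : ∀ n : ℕ, E n → S n × (S n × S n)} (hq : Tm (F := fun n => S n × (S n × S n)) q) {i v w : ∀ n : ℕ, E n → Fin n} (hi : Tm (F := fun n => Fin n) i)
    (hv : Tm (F := fun n => Fin n) v) (hw : Tm (F := fun n => Fin n) w) {e : ∀ n : ℕ, E n → S n} (he : Tm e) :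
    DefP (fun n G X x => (¬ nv (q n x).2.1 = 0) ∧ nd (q n x).2.2 (cfc a b G (q n x) (i n x) (P n G X x) (v n x) (w n x) (e n x))) := by
  have q1 : Tm (F := S) (fun n x => (q n x).1) := Tm.fst hq
  have q2 : Tm (F := S) (fun n x => (q n x).2.1) := Tm.fst (Tm.snd hq)
  have q3 : Tm (F := S) (fun n x => (q n x).2.2) := Tm.snd (Tm.snd hq)
  have hc : ∀ {f : ∀ n : ℕ, E n → S n}, Tm f → Tm (E := fun n => E n × S n) (fun n y => f n y.1) :=
    fun hf => hf.comp (Tm.fst Tm.id)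
  have hc2 : ∀ {f : ∀ n : ℕ, E n → S n}, Tm f → Tm (E := fun n => (E n × S n) × (Fin n × Fin n)) (fun n y => f n y.1.1) :=
    fun hf => hf.comp (Tm.fst (Tm.fst Tm.id))
  have hc3 : ∀ {f : ∀ n : ℕ, E n → Fin n}, Tm (F := fun n => Fin n) f →
      Tm (E := fun n => (E n × S n) × (Fin n × Fin n)) (F := fun n => Fin n) (fun n y => f n y.1.1) :=
    fun hf => hf.comp (Tm.fst (Tm.fst Tm.id))
  have hP' : DefP (E := fun n => ((E n × S n) × (Fin n × Fin n)) × (Fin n × (Fin n × S n)))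
      (fun n G X y => P n G X y.1.1.1 y.2.1 y.2.2.1 y.2.2.2) :=
    DefP.comp (E := fun n => ((E n × S n) × (Fin n × Fin n)) × (Fin n × (Fin n × S n))) (F := fun n => E n × (Fin n × (Fin n × S n)))
      (f := fun n y => (y.1.1.1, y.2)) hP (Tm.pair (Tm.fst (Tm.fst (Tm.fst Tm.id))) (Tm.snd Tm.id))
  have hM := defZ_ent (E := fun n => (E n × S n) × (Fin n × Fin n)) (S := S) a b (P := fun n G X y => P n G X y.1.1) hP'
    (p := fun n y => (q n y.1.1).2.2) (K := fun n y => (q n y.1.1).1) (m := fun n y => (q n y.1.1).2.1) (t := fun n y => y.1.2)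
    (hc2 q3) (hc2 q1) (hc2 q2) (Tm.snd (Tm.fst Tm.id)) (i := fun n y => i n y.1.1) (v := fun n y => v n y.1.1)
    (w := fun n y => w n y.1.1) (x := fun n y => y.2.1) (y := fun n y => y.2.2) (hc3 hi) (hc3 hv) (hc3 hw)
    (Tm.fst (Tm.snd Tm.id)) (Tm.snd (Tm.snd Tm.id))
  have hD := DefZ.det (E := fun n => E n × S n) (T := fun n => Fin n)
    (M := fun n G X (y : E n × S n) u u' => cnd (nv (q n y.1).2.1 = 0) 0
      (ent a b (nv (q n y.1).1) (nv (q n y.1).2.1) G (i n y.1) (P n G X y.1) (v n y.1) (w n y.1) ((nv y.2 : ℕ) : ℤ) u u'))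
    (hc q3) hM
  have ht : Tm (E := fun n => E n × S n) (F := S) (fun n y => y.2) := Tm.snd Tm.id
  have hPw := DefZ.pow (H := S) (hc q3) (DefZ.nv' (H := S) (hc q3) ht) (hc he)
  have hI := DefZ.ite (DefP.and (DefP.nLt ht (hc q3)) (DefP.not (DefP.nZero ht))) (DefZ.mul (hc q3) hPw hD) (DefZ.zero (hc q3))
  have hS := DefZ.sum (E := E) (F := S) q3
    (φ := fun n G X (x : E n) (t : S n) =>
      cnd (nv t < nv (q n x).2.2 ∧ ¬ nv t = 0) (((nv t : ℕ) : ℤ) ^ nv (e n x) *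
        zdet (T := fun n => Fin n) (fun u u' : Fin n => cnd (nv (q n x).2.1 = 0) 0
          (ent a b (nv (q n x).1) (nv (q n x).2.1) G (i n x) (P n G X x) (v n x) (w n x) ((nv t : ℕ) : ℤ) u u'))) 0) hI
  refine DefP.congr (DefP.and (DefP.not (DefP.nZero q2)) (DefZ.ndvd q3 hS)) fun n G X x => ?_
  by_cases h0 : nv (q n x).2.1 = 0
  · exact ⟨fun h => absurd h0 h.1, fun h => absurd h0 h.1⟩
  · have hE : ∀ t : S n, (fun u u' : Fin n => cnd (nv (q n x).2.1 = 0) 0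
          (ent a b (nv (q n x).1) (nv (q n x).2.1) G (i n x) (P n G X x) (v n x) (w n x) ((nv t : ℕ) : ℤ) u u')) =
          ent a b (nv (q n x).1) (nv (q n x).2.1) G (i n x) (P n G X x) (v n x) (w n x) ((nv t : ℕ) : ℤ) := by
      intro t
      funext u u'
      exact cnd_neg h0 _ _
    have hsum : (∑ t : S n, cnd (nv t < nv (q n x).2.2 ∧ ¬ nv t = 0) (((nv t : ℕ) : ℤ) ^ nv (e n x) *
        zdet (T := fun n => Fin n) (fun u u' : Fin n => cnd (nv (q n x).2.1 = 0) 0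
          (ent a b (nv (q n x).1) (nv (q n x).2.1) G (i n x) (P n G X x) (v n x) (w n x) ((nv t : ℕ) : ℤ) u u'))) 0) =
        cfc a b G (q n x) (i n x) (P n G X x) (v n x) (w n x) (e n x) := by
      unfold cfc
      refine Finset.sum_congr rfl fun t _ => ?_
      rw [hE t]
    unfold nd
    rw [hsum]

theorem def_LwC (a b : ℕ) {P : ∀ n : ℕ, SimpleGraph (Fin n) → Ctx n → E n → Fin n → Fin n → S n → Prop}
    (hP : DefP (E := fun n => E n × (Fin n × (Fin n × S n))) (fun n G X y => P n G X y.1 y.2.1 y.2.2.1 y.2.2.2))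
    {q : ∀ n : ℕ, E n → S n × (S n × S n)} (hq : Tm (F := fun n => S n × (S n × S n)) q) {i v w : ∀ n : ℕ, E n → Fin n} (hi : Tm (F := fun n => Fin n) i)
    (hv : Tm (F := fun n => Fin n) v) (hw : Tm (F := fun n => Fin n) w) {c : ∀ n : ℕ, E n → S n} (hc : Tm c) :
    DefP (fun n G X e => LwC a b G (q n e) (i n e) (P n G X e) (v n e) (w n e) (c n e)) := by
  have q2 : Tm (F := S) (fun n x => (q n x).2.1) := Tm.fst (Tm.snd hq)
  have q3 : Tm (F := S) (fun n x => (q n x).2.2) := Tm.snd (Tm.snd hq)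
  have hP1 : DefP (E := fun n => (E n × S n) × (Fin n × (Fin n × S n)))
      (fun n G X y => P n G X y.1.1 y.2.1 y.2.2.1 y.2.2.2) :=
    DefP.comp (E := fun n => (E n × S n) × (Fin n × (Fin n × S n))) (F := fun n => E n × (Fin n × (Fin n × S n)))
      (f := fun n y => (y.1.1, y.2)) hP (Tm.pair (Tm.fst (Tm.fst Tm.id)) (Tm.snd Tm.id))
  have hP2 : DefP (E := fun n => ((E n × S n) × S n) × (Fin n × (Fin n × S n)))
      (fun n G X y => P n G X y.1.1.1 y.2.1 y.2.2.1 y.2.2.2) :=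
    DefP.comp (E := fun n => ((E n × S n) × S n) × (Fin n × (Fin n × S n))) (F := fun n => E n × (Fin n × (Fin n × S n)))
      (f := fun n y => (y.1.1.1, y.2)) hP (Tm.pair (Tm.fst (Tm.fst (Tm.fst Tm.id))) (Tm.snd Tm.id))
  have n1 := D2_nd (E := fun n => E n × S n) (S := S) a b (P := fun n G X y => P n G X y.1) hP1 (q := fun n y => q n y.1)
    (hq.comp (Tm.fst Tm.id)) (i := fun n y => i n y.1) (v := fun n y => v n y.1) (w := fun n y => w n y.1)
    (hi.comp (Tm.fst Tm.id)) (hv.comp (Tm.fst Tm.id)) (hw.comp (Tm.fst Tm.id)) (e := fun n y => y.2) (Tm.snd Tm.id)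
  have n2 := D2_nd (E := fun n => (E n × S n) × S n) (S := S) a b (P := fun n G X y => P n G X y.1.1) hP2 (q := fun n y => q n y.1.1)
    (hq.comp (Tm.fst (Tm.fst Tm.id))) (i := fun n y => i n y.1.1) (v := fun n y => v n y.1.1) (w := fun n y => w n y.1.1)
    (hi.comp (Tm.fst (Tm.fst Tm.id))) (hv.comp (Tm.fst (Tm.fst Tm.id))) (hw.comp (Tm.fst (Tm.fst Tm.id))) (e := fun n y => y.2)
    (Tm.snd Tm.id)
  have e1 : DefP (fun n G X x => ∃ e : S n, (¬ nv e = 0) ∧ nv (c n x) + nv e + 1 = nv (q n x).2.2 ∧ (¬ nv (q n x).2.1 = 0) ∧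
      nd (q n x).2.2 (cfc a b G (q n x) (i n x) (P n G X x) (v n x) (w n x) e)) := by
    refine DefP.ex (E := E) (F := S) (P := fun n G X x e => (¬ nv e = 0) ∧ nv (c n x) + nv e + 1 = nv (q n x).2.2 ∧
      (¬ nv (q n x).2.1 = 0) ∧ nd (q n x).2.2 (cfc a b G (q n x) (i n x) (P n G X x) (v n x) (w n x) e)) ?_
    exact DefP.and (DefP.not (DefP.nZero (E := fun n => E n × S n) (Tm.snd Tm.id)))
      (DefP.and (D2_add (E := fun n => E n × S n) (hc.comp (Tm.fst Tm.id)) (Tm.snd Tm.id) (q3.comp (Tm.fst Tm.id))) n1)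
  have e2 : DefP (fun n G X x => ∀ c' : S n, ∀ e' : S n, nv c' < nv (c n x) → nv c' + nv e' + 1 = nv (q n x).2.2 →
      ¬ ((¬ nv (q n x).2.1 = 0) ∧ nd (q n x).2.2 (cfc a b G (q n x) (i n x) (P n G X x) (v n x) (w n x) e'))) := by
    refine DefP.all (E := E) (F := S) (P := fun n G X x c' => ∀ e' : S n, nv c' < nv (c n x) → nv c' + nv e' + 1 = nv (q n x).2.2 →
      ¬ ((¬ nv (q n x).2.1 = 0) ∧ nd (q n x).2.2 (cfc a b G (q n x) (i n x) (P n G X x) (v n x) (w n x) e'))) ?_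
    refine DefP.all (E := fun n => E n × S n) (F := S) (P := fun n G X y e' => nv y.2 < nv (c n y.1) →
      nv y.2 + nv e' + 1 = nv (q n y.1).2.2 →
      ¬ ((¬ nv (q n y.1).2.1 = 0) ∧ nd (q n y.1).2.2 (cfc a b G (q n y.1) (i n y.1) (P n G X y.1) (v n y.1) (w n y.1) e'))) ?_
    exact DefP.imp (DefP.nLt (E := fun n => (E n × S n) × S n) (Tm.snd (Tm.fst Tm.id)) (hc.comp (Tm.fst (Tm.fst Tm.id))))
      (DefP.imp (D2_add (E := fun n => (E n × S n) × S n) (Tm.snd (Tm.fst Tm.id)) (Tm.snd Tm.id) (q3.comp (Tm.fst (Tm.fst Tm.id))))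
        (DefP.not n2))
  refine DefP.congr (DefP.and (DefP.not (DefP.nZero q2)) (DefP.and e1 e2)) fun n G X x => ?_
  unfold LwC
  constructor
  · rintro ⟨h1, ⟨e, h2, h3, h4, h5⟩, h6⟩
    exact ⟨h1, ⟨e, h2, h3, h5⟩, fun c' e' h7 h8 h9 => h6 c' e' h7 h8 ⟨h1, h9⟩⟩
  · rintro ⟨h1, ⟨e, h2, h3, h5⟩, h6⟩
    exact ⟨h1, ⟨e, h2, h3, h1, h5⟩, fun c' e' h7 h8 h9 => h6 c' e' h7 h8 h9.2⟩

end

end QSR
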