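import Pool.Agent.Lib.MP_0087d5_lcQS.D2

/-!
# Leaf D3 (medium): one stage is definable

Proof: `def_LwC` (leaf D2) with extended environments (`P` composed with projections: `hP.comp`, see `DefP.comp`), `DefP.exFin`, `DefP.allFin`, `DefP.ex (F := S)`, `DefP.all (F := S)`, `DefP.nAdd`, `DefP.nLe`, `DefP.nLt`, `DefP.eqFin`, `DefZ.dvd` with `DefZ.sub`, `DefZ.nv'`, `DefZ.mul`, `defZ_rz` (for `UvC`; `nv m ≠ 0`), and
`DefP.nCard` (file lc/EXA/Num, `nv z = Nat.card {d : S n // …}`). Prove `def_MuC`, `def_UvC`, `def_FvC`, `def_HhC` as private lemmas in the same generality as `def_LwC`.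
-/

set_option autoImplicit false
set_option linter.all false

namespace QSR

open Finset Pool.Agent Pool.Agent.PMNC MTC LIN PRS QRB

section
variable {E S : ℕ → Type} [Env E] [Env S] [∀ n, Fintype (S n)]

private theorem D3_lw (a b : ℕ) {P : ∀ n : ℕ, SimpleGraph (Fin n) → Ctx n → E n → Fin n → Fin n → S n → Prop}
    (hP : DefP (E := fun n => E n × (Fin n × (Fin n × S n))) (fun n G X y => P n G X y.1 y.2.1 y.2.2.1 y.2.2.2))
    {q : ∀ n : ℕ, E n → S n × (S n × S n)} (hq : Tm (F := fun n => S n × (S n × S n)) q) {i : ∀ n : ℕ, E n → Fin n} (hi : Tm (F := fun n => Fin n) i)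
    {E' : ℕ → Type} [Env E'] {f : ∀ n : ℕ, E' n → E n} (hf : Tm f) {v w : ∀ n : ℕ, E' n → Fin n}
    (hv : Tm (F := fun n => Fin n) v) (hw : Tm (F := fun n => Fin n) w) {c : ∀ n : ℕ, E' n → S n} (hc : Tm c) :
    DefP (E := E') (fun n G X y => LwC a b G (q n (f n y)) (i n (f n y)) (P n G X (f n y)) (v n y) (w n y) (c n y)) :=
  def_LwC (E := E') a b (P := fun n G X y => P n G X (f n y))
    (DefP.comp (E := fun n => E' n × (Fin n × (Fin n × S n))) (F := fun n => E n × (Fin n × (Fin n × S n)))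
      (f := fun n y => (f n y.1, y.2)) hP (Tm.pair (hf.comp (Tm.fst Tm.id)) (Tm.snd Tm.id)))
    (Tm.comp (F := E) (H := fun n => S n × (S n × S n)) hq hf) (Tm.comp (F := E) (H := fun n => Fin n) hi hf) hv hw hc

private theorem D3_p (a b : ℕ) {P : ∀ n : ℕ, SimpleGraph (Fin n) → Ctx n → E n → Fin n → Fin n → S n → Prop}
    (hP : DefP (E := fun n => E n × (Fin n × (Fin n × S n))) (fun n G X y => P n G X y.1 y.2.1 y.2.2.1 y.2.2.2))
    {E' : ℕ → Type} [Env E'] {f : ∀ n : ℕ, E' n → E n} (hf : Tm f) {v w : ∀ n : ℕ, E' n → Fin n}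
    (hv : Tm (F := fun n => Fin n) v) (hw : Tm (F := fun n => Fin n) w) {c : ∀ n : ℕ, E' n → S n} (hc : Tm c) :
    DefP (E := E') (fun n G X y => P n G X (f n y) (v n y) (w n y) (c n y)) :=
  DefP.comp (E := E') (F := fun n => E n × (Fin n × (Fin n × S n))) (f := fun n y => (f n y, (v n y, (w n y, c n y)))) hP
    (Tm.pair (F := E) (H := fun n => Fin n × (Fin n × S n)) hf
      (Tm.pair (F := fun n => Fin n) (H := fun n => Fin n × S n) hv (Tm.pair (F := fun n => Fin n) (H := S) hw hc)))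

private theorem D3_mu (a b : ℕ) {P : ∀ n : ℕ, SimpleGraph (Fin n) → Ctx n → E n → Fin n → Fin n → S n → Prop}
    (hP : DefP (E := fun n => E n × (Fin n × (Fin n × S n))) (fun n G X y => P n G X y.1 y.2.1 y.2.2.1 y.2.2.2))
    {q : ∀ n : ℕ, E n → S n × (S n × S n)} (hq : Tm (F := fun n => S n × (S n × S n)) q) {i : ∀ n : ℕ, E n → Fin n} (hi : Tm (F := fun n => Fin n) i)
    {E' : ℕ → Type} [Env E'] {f : ∀ n : ℕ, E' n → E n} (hf : Tm f) {v : ∀ n : ℕ, E' n → Fin n}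
    (hv : Tm (F := fun n => Fin n) v) {c : ∀ n : ℕ, E' n → S n} (hc : Tm c) :
    DefP (E := E') (fun n G X y => MuC a b G (q n (f n y)) (i n (f n y)) (P n G X (f n y)) (v n y) (c n y)) := by
  have hf1 : Tm (fun n (y : E' n × Fin n) => f n y.1) := hf.comp (Tm.fst Tm.id)
  have hv1 : Tm (F := fun n => Fin n) (fun n (y : E' n × Fin n) => v n y.1) := hv.comp (Tm.fst Tm.id)
  have hc1 : Tm (fun n (y : E' n × Fin n) => c n y.1) := hc.comp (Tm.fst Tm.id)
  have hw1 : Tm (F := fun n => Fin n) (fun n (y : E' n × Fin n) => y.2) := Tm.snd Tm.id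
  have hf2 : Tm (fun n (y : (E' n × Fin n) × S n) => f n y.1.1) := hf1.comp (Tm.fst Tm.id)
  have hv2 : Tm (F := fun n => Fin n) (fun n (y : (E' n × Fin n) × S n) => v n y.1.1) := hv1.comp (Tm.fst Tm.id)
  have hc2 : Tm (fun n (y : (E' n × Fin n) × S n) => c n y.1.1) := hc1.comp (Tm.fst Tm.id)
  have hw2 : Tm (F := fun n => Fin n) (fun n (y : (E' n × Fin n) × S n) => y.1.2) := hw1.comp (Tm.fst Tm.id)
  have hd2 : Tm (fun n (y : (E' n × Fin n) × S n) => y.2) := Tm.snd Tm.id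
  have h1 := DefP.and (DefP.not (DefP.eqFin hw1 hv1)) (D3_lw (E' := fun n => E' n × Fin n) a b hP hq hi hf1 hv1 hw1 hc1)
  have h2 := DefP.imp (DefP.not (DefP.eqFin hw2 hv2)) (DefP.imp (D3_lw (E' := fun n => (E' n × Fin n) × S n) a b hP hq hi hf2 hv2 hw2 hd2)
    (DefP.nLe hc2 hd2))
  exact DefP.and (DefP.exFin (P := fun n G X y w => (¬ w = v n y) ∧
      LwC a b G (q n (f n y)) (i n (f n y)) (P n G X (f n y)) (v n y) w (c n y)) h1)
    (DefP.allFin (P := fun n G X y w => ∀ c' : S n, (¬ w = v n y) →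
      LwC a b G (q n (f n y)) (i n (f n y)) (P n G X (f n y)) (v n y) w c' → nv (c n y) ≤ nv c')
      (DefP.all (F := S) (P := fun n G X (y : E' n × Fin n) c' => (¬ y.2 = v n y.1) →
        LwC a b G (q n (f n y.1)) (i n (f n y.1)) (P n G X (f n y.1)) (v n y.1) y.2 c' → nv (c n y.1) ≤ nv c') h2))

private theorem D3_uv (a b : ℕ) {P : ∀ n : ℕ, SimpleGraph (Fin n) → Ctx n → E n → Fin n → Fin n → S n → Prop}
    (hP : DefP (E := fun n => E n × (Fin n × (Fin n × S n))) (fun n G X y => P n G X y.1 y.2.1 y.2.2.1 y.2.2.2))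
    {q : ∀ n : ℕ, E n → S n × (S n × S n)} (hq : Tm (F := fun n => S n × (S n × S n)) q) {i : ∀ n : ℕ, E n → Fin n} (hi : Tm (F := fun n => Fin n) i)
    {E' : ℕ → Type} [Env E'] {f : ∀ n : ℕ, E' n → E n} (hf : Tm f) {v w : ∀ n : ℕ, E' n → Fin n}
    (hv : Tm (F := fun n => Fin n) v) (hw : Tm (F := fun n => Fin n) w) {c : ∀ n : ℕ, E' n → S n} (hc : Tm c) :
    DefP (E := E') (fun n G X y => UvC a G (q n (f n y)) (i n (f n y)) (P n G X (f n y)) (v n y) (w n y) (c n y)) := by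
  have hq0 : Tm (F := fun n => S n × (S n × S n)) (fun n (y : E' n) => q n (f n y)) := Tm.comp (F := E) (H := fun n => S n × (S n × S n)) hq hf
  have hm0 : Tm (fun n (y : E' n) => (q n (f n y)).2.1) := Tm.fst (Tm.snd hq0)
  have hp0 : Tm (fun n (y : E' n) => (q n (f n y)).2.2) := Tm.snd (Tm.snd hq0)
  have hK0 : Tm (fun n (y : E' n) => (q n (f n y)).1) := Tm.fst hq0
  have hi0 : Tm (F := fun n => Fin n) (fun n (y : E' n) => i n (f n y)) := Tm.comp (F := E) (H := fun n => Fin n) hi hf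
  have hf1 : Tm (fun n (y : E' n × S n) => f n y.1) := hf.comp (Tm.fst Tm.id)
  have hv1 : Tm (F := fun n => Fin n) (fun n (y : E' n × S n) => v n y.1) := hv.comp (Tm.fst Tm.id)
  have hw1 : Tm (F := fun n => Fin n) (fun n (y : E' n × S n) => w n y.1) := hw.comp (Tm.fst Tm.id)
  have hc1 : Tm (fun n (y : E' n × S n) => c n y.1) := hc.comp (Tm.fst Tm.id)
  have hm1 : Tm (fun n (y : E' n × S n) => (q n (f n y.1)).2.1) := hm0.comp (Tm.fst Tm.id)
  have hp1 : Tm (fun n (y : E' n × S n) => (q n (f n y.1)).2.2) := hp0.comp (Tm.fst Tm.id)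
  have hK1 : Tm (fun n (y : E' n × S n) => (q n (f n y.1)).1) := hK0.comp (Tm.fst Tm.id)
  have hi1 : Tm (F := fun n => Fin n) (fun n (y : E' n × S n) => i n (f n y.1)) := hi0.comp (Tm.fst Tm.id)
  have hz1 : Tm (fun n (y : E' n × S n) => y.2) := Tm.snd Tm.id
  have hr := defZ_num (E := fun n => E' n × S n) (S := S) 4 a hm1 hi1
  have hre : DefZ (E := fun n => E' n × S n) (fun n y => (q n (f n y.1)).2.1)
      (fun n G X y => num 4 a G (i n (f n y.1)) ^ eid (v n y.1) (w n y.1)) := by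
    refine (DefZ.ite (E := fun n => E' n × S n) (DefP.lt hv1 hw1)
      (DefZ.pow (E := fun n => E' n × S n) (H := fun n => Fin n × Fin n) hm1 hr
        (Tm.pair (F := fun n => Fin n) (H := fun n => Fin n) hv1 hw1))
      (DefZ.pow (E := fun n => E' n × S n) (H := fun n => Fin n × Fin n) hm1 hr
        (Tm.pair (F := fun n => Fin n) (H := fun n => Fin n) hw1 hv1))).congr fun n G X y => ?_
    unfold eid
    by_cases h : v n y.1 < w n y.1
    · rw [cnd_pos h, if_pos h]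
    · rw [cnd_neg h, if_neg h]
  have hrz := defZ_rz (E := fun n => E' n × S n) hp1 hm1 hre
  have hd := DefZ.dvd (DefZ.sub hp1 (DefZ.nv' (H := S) hp1 hc1)
    (DefZ.add hp1 (DefZ.mul hp1 (DefZ.nv' (H := S) hp1 hK1) (DefZ.nv' (H := S) hp1 hz1)) hrz))
  have h1 := DefP.and (D3_p (E' := fun n => E' n × S n) a b hP hf1 hv1 hw1 hz1) hd
  refine DefP.congr (DefP.and (DefP.not (DefP.nZero hm0)) (DefP.and (DefP.nLt hc hp0) (DefP.ex (F := S)
    (P := fun n G X (y : E' n) (z : S n) => P n G X (f n y) (v n y) (w n y) z ∧ 0 < nv (q n (f n y)).2.2 ∧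
      ((nv (q n (f n y)).2.2 : ℕ) : ℤ) ∣ ((nv (c n y) : ℕ) : ℤ) - (((nv (q n (f n y)).1 : ℕ) : ℤ) * ((nv z : ℕ) : ℤ) +
        cnd (nv (q n (f n y)).2.1 = 0) 0 ((rz (nv (q n (f n y)).2.1) (num 4 a G (i n (f n y)) ^ eid (v n y) (w n y)) : ℕ) : ℤ))) h1)))
    fun n G X y => ?_
  unfold UvC
  refine and_congr_right fun h0 => and_congr_right fun hlt => exists_congr fun z => and_congr_right fun _ => ?_
  rw [cnd_neg h0]
  exact ⟨fun h => h.2, fun h => ⟨lt_of_le_of_lt (Nat.zero_le _) hlt, h⟩⟩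

private theorem D3_fv (a b : ℕ) {P : ∀ n : ℕ, SimpleGraph (Fin n) → Ctx n → E n → Fin n → Fin n → S n → Prop}
    (hP : DefP (E := fun n => E n × (Fin n × (Fin n × S n))) (fun n G X y => P n G X y.1 y.2.1 y.2.2.1 y.2.2.2))
    {q : ∀ n : ℕ, E n → S n × (S n × S n)} (hq : Tm (F := fun n => S n × (S n × S n)) q) {i : ∀ n : ℕ, E n → Fin n} (hi : Tm (F := fun n => Fin n) i)
    {E' : ℕ → Type} [Env E'] {f : ∀ n : ℕ, E' n → E n} (hf : Tm f) {v w : ∀ n : ℕ, E' n → Fin n}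
    (hv : Tm (F := fun n => Fin n) v) (hw : Tm (F := fun n => Fin n) w) {c : ∀ n : ℕ, E' n → S n} (hc : Tm c) :
    DefP (E := E') (fun n G X y => FvC a b G (q n (f n y)) (i n (f n y)) (P n G X (f n y)) (v n y) (w n y) (c n y)) := by
  have hπ : Tm (fun n (y : ((((E' n × S n) × S n) × S n) × S n) × S n) => y.1.1.1.1.1) :=
    Tm.fst (Tm.fst (Tm.fst (Tm.fst (Tm.fst Tm.id))))
  have hf5 : Tm (fun n (y : ((((E' n × S n) × S n) × S n) × S n) × S n) => f n y.1.1.1.1.1) := hf.comp hπ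
  have hv5 : Tm (F := fun n => Fin n) (fun n (y : ((((E' n × S n) × S n) × S n) × S n) × S n) => v n y.1.1.1.1.1) := hv.comp hπ
  have hw5 : Tm (F := fun n => Fin n) (fun n (y : ((((E' n × S n) × S n) × S n) × S n) × S n) => w n y.1.1.1.1.1) := hw.comp hπ
  have hd5 : Tm (fun n (y : ((((E' n × S n) × S n) × S n) × S n) × S n) => c n y.1.1.1.1.1) := hc.comp hπ
  have x1 : Tm (fun n (y : ((((E' n × S n) × S n) × S n) × S n) × S n) => y.1.1.1.1.2) := Tm.snd (Tm.fst (Tm.fst (Tm.fst (Tm.fst Tm.id))))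
  have x2 : Tm (fun n (y : ((((E' n × S n) × S n) × S n) × S n) × S n) => y.1.1.1.2) := Tm.snd (Tm.fst (Tm.fst (Tm.fst Tm.id)))
  have x3 : Tm (fun n (y : ((((E' n × S n) × S n) × S n) × S n) × S n) => y.1.1.2) := Tm.snd (Tm.fst (Tm.fst Tm.id))
  have x4 : Tm (fun n (y : ((((E' n × S n) × S n) × S n) × S n) × S n) => y.1.2) := Tm.snd (Tm.fst Tm.id)
  have x5 : Tm (fun n (y : ((((E' n × S n) × S n) × S n) × S n) × S n) => y.2) := Tm.snd Tm.id
  have h := DefP.and (D3_mu (E' := fun n => ((((E' n × S n) × S n) × S n) × S n) × S n) a b hP hq hi hf5 hv5 x1)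
    (DefP.and (D3_mu (E' := fun n => ((((E' n × S n) × S n) × S n) × S n) × S n) a b hP hq hi hf5 hw5 x2)
    (DefP.and (D3_uv (E' := fun n => ((((E' n × S n) × S n) × S n) × S n) × S n) a b hP hq hi hf5 hv5 hw5 x3)
    (DefP.and (DefP.nAdd x3 x3 x4) (DefP.and (DefP.nAdd x1 x2 x5) (DefP.nAdd x4 x5 hd5)))))
  exact DefP.ex (F := S) (P := fun n G X (y : E' n) c1 => ∃ c' u s1 s2 : S n, MuC a b G (q n (f n y)) (i n (f n y)) (P n G X (f n y)) (v n y) c1 ∧
      MuC a b G (q n (f n y)) (i n (f n y)) (P n G X (f n y)) (w n y) c' ∧ UvC a G (q n (f n y)) (i n (f n y)) (P n G X (f n y)) (v n y) (w n y) u ∧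
      nv u + nv u = nv s1 ∧ nv c1 + nv c' = nv s2 ∧ nv s1 + nv s2 = nv (c n y))
    (DefP.ex (F := S) (P := fun n G X (y : E' n × S n) c' => ∃ u s1 s2 : S n,
      MuC a b G (q n (f n y.1)) (i n (f n y.1)) (P n G X (f n y.1)) (v n y.1) y.2 ∧
      MuC a b G (q n (f n y.1)) (i n (f n y.1)) (P n G X (f n y.1)) (w n y.1) c' ∧
      UvC a G (q n (f n y.1)) (i n (f n y.1)) (P n G X (f n y.1)) (v n y.1) (w n y.1) u ∧
      nv u + nv u = nv s1 ∧ nv y.2 + nv c' = nv s2 ∧ nv s1 + nv s2 = nv (c n y.1))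
    (DefP.ex (F := S) (P := fun n G X (y : (E' n × S n) × S n) u => ∃ s1 s2 : S n,
      MuC a b G (q n (f n y.1.1)) (i n (f n y.1.1)) (P n G X (f n y.1.1)) (v n y.1.1) y.1.2 ∧
      MuC a b G (q n (f n y.1.1)) (i n (f n y.1.1)) (P n G X (f n y.1.1)) (w n y.1.1) y.2 ∧
      UvC a G (q n (f n y.1.1)) (i n (f n y.1.1)) (P n G X (f n y.1.1)) (v n y.1.1) (w n y.1.1) u ∧
      nv u + nv u = nv s1 ∧ nv y.1.2 + nv y.2 = nv s2 ∧ nv s1 + nv s2 = nv (c n y.1.1))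
    (DefP.ex (F := S) (P := fun n G X (y : ((E' n × S n) × S n) × S n) s1 => ∃ s2 : S n,
      MuC a b G (q n (f n y.1.1.1)) (i n (f n y.1.1.1)) (P n G X (f n y.1.1.1)) (v n y.1.1.1) y.1.1.2 ∧
      MuC a b G (q n (f n y.1.1.1)) (i n (f n y.1.1.1)) (P n G X (f n y.1.1.1)) (w n y.1.1.1) y.1.2 ∧
      UvC a G (q n (f n y.1.1.1)) (i n (f n y.1.1.1)) (P n G X (f n y.1.1.1)) (v n y.1.1.1) (w n y.1.1.1) y.2 ∧
      nv y.2 + nv y.2 = nv s1 ∧ nv y.1.1.2 + nv y.1.2 = nv s2 ∧ nv s1 + nv s2 = nv (c n y.1.1.1))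
    (DefP.ex (F := S) (P := fun n G X (y : (((E' n × S n) × S n) × S n) × S n) s2 =>
      MuC a b G (q n (f n y.1.1.1.1)) (i n (f n y.1.1.1.1)) (P n G X (f n y.1.1.1.1)) (v n y.1.1.1.1) y.1.1.1.2 ∧
      MuC a b G (q n (f n y.1.1.1.1)) (i n (f n y.1.1.1.1)) (P n G X (f n y.1.1.1.1)) (w n y.1.1.1.1) y.1.1.2 ∧
      UvC a G (q n (f n y.1.1.1.1)) (i n (f n y.1.1.1.1)) (P n G X (f n y.1.1.1.1)) (v n y.1.1.1.1) (w n y.1.1.1.1) y.1.2 ∧
      nv y.1.2 + nv y.1.2 = nv y.2 ∧ nv y.1.1.1.2 + nv y.1.1.2 = nv s2 ∧ nv y.2 + nv s2 = nv (c n y.1.1.1.1)) h))))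

private theorem D3_hh (a b : ℕ) {P : ∀ n : ℕ, SimpleGraph (Fin n) → Ctx n → E n → Fin n → Fin n → S n → Prop}
    (hP : DefP (E := fun n => E n × (Fin n × (Fin n × S n))) (fun n G X y => P n G X y.1 y.2.1 y.2.2.1 y.2.2.2))
    {q : ∀ n : ℕ, E n → S n × (S n × S n)} (hq : Tm (F := fun n => S n × (S n × S n)) q) {i : ∀ n : ℕ, E n → Fin n} (hi : Tm (F := fun n => Fin n) i)
    {E' : ℕ → Type} [Env E'] {f : ∀ n : ℕ, E' n → E n} (hf : Tm f) {v w : ∀ n : ℕ, E' n → Fin n}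
    (hv : Tm (F := fun n => Fin n) v) (hw : Tm (F := fun n => Fin n) w) :
    DefP (E := E') (fun n G X y => HhC a b G (q n (f n y)) (i n (f n y)) (P n G X (f n y)) (v n y) (w n y)) := by
  have hπ : Tm (fun n (y : (((E' n × S n) × S n) × S n) × S n) => y.1.1.1.1) :=
    Tm.fst (Tm.fst (Tm.fst (Tm.fst Tm.id)))
  have hf5 : Tm (fun n (y : (((E' n × S n) × S n) × S n) × S n) => f n y.1.1.1.1) := hf.comp hπ
  have hv5 : Tm (F := fun n => Fin n) (fun n (y : (((E' n × S n) × S n) × S n) × S n) => v n y.1.1.1.1) := hv.comp hπ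
  have hw5 : Tm (F := fun n => Fin n) (fun n (y : (((E' n × S n) × S n) × S n) × S n) => w n y.1.1.1.1) := hw.comp hπ
  have x1 : Tm (fun n (y : (((E' n × S n) × S n) × S n) × S n) => y.1.1.1.2) := Tm.snd (Tm.fst (Tm.fst (Tm.fst Tm.id)))
  have x2 : Tm (fun n (y : (((E' n × S n) × S n) × S n) × S n) => y.1.1.2) := Tm.snd (Tm.fst (Tm.fst Tm.id))
  have x3 : Tm (fun n (y : (((E' n × S n) × S n) × S n) × S n) => y.1.2) := Tm.snd (Tm.fst Tm.id)
  have x4 : Tm (fun n (y : (((E' n × S n) × S n) × S n) × S n) => y.2) := Tm.snd Tm.id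
  have h := DefP.and (D3_lw (E' := fun n => (((E' n × S n) × S n) × S n) × S n) a b hP hq hi hf5 hv5 hw5 x1)
    (DefP.and (D3_lw (E' := fun n => (((E' n × S n) × S n) × S n) × S n) a b hP hq hi hf5 hv5 hv5 x2)
    (DefP.and (D3_uv (E' := fun n => (((E' n × S n) × S n) × S n) × S n) a b hP hq hi hf5 hv5 hw5 x3)
    (DefP.and (DefP.nAdd x3 x3 x4) (DefP.nAdd x1 x4 x2))))
  exact DefP.ex (F := S) (P := fun n G X (y : E' n) c1 => ∃ c0 u s1 : S n, LwC a b G (q n (f n y)) (i n (f n y)) (P n G X (f n y)) (v n y) (w n y) c1 ∧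
      LwC a b G (q n (f n y)) (i n (f n y)) (P n G X (f n y)) (v n y) (v n y) c0 ∧ UvC a G (q n (f n y)) (i n (f n y)) (P n G X (f n y)) (v n y) (w n y) u ∧
      nv u + nv u = nv s1 ∧ nv c1 + nv s1 = nv c0)
    (DefP.ex (F := S) (P := fun n G X (y : E' n × S n) c0 => ∃ u s1 : S n,
      LwC a b G (q n (f n y.1)) (i n (f n y.1)) (P n G X (f n y.1)) (v n y.1) (w n y.1) y.2 ∧
      LwC a b G (q n (f n y.1)) (i n (f n y.1)) (P n G X (f n y.1)) (v n y.1) (v n y.1) c0 ∧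
      UvC a G (q n (f n y.1)) (i n (f n y.1)) (P n G X (f n y.1)) (v n y.1) (w n y.1) u ∧
      nv u + nv u = nv s1 ∧ nv y.2 + nv s1 = nv c0)
    (DefP.ex (F := S) (P := fun n G X (y : (E' n × S n) × S n) u => ∃ s1 : S n,
      LwC a b G (q n (f n y.1.1)) (i n (f n y.1.1)) (P n G X (f n y.1.1)) (v n y.1.1) (w n y.1.1) y.1.2 ∧
      LwC a b G (q n (f n y.1.1)) (i n (f n y.1.1)) (P n G X (f n y.1.1)) (v n y.1.1) (v n y.1.1) y.2 ∧
      UvC a G (q n (f n y.1.1)) (i n (f n y.1.1)) (P n G X (f n y.1.1)) (v n y.1.1) (w n y.1.1) u ∧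
      nv u + nv u = nv s1 ∧ nv y.1.2 + nv s1 = nv y.2)
    (DefP.ex (F := S) (P := fun n G X (y : ((E' n × S n) × S n) × S n) s1 =>
      LwC a b G (q n (f n y.1.1.1)) (i n (f n y.1.1.1)) (P n G X (f n y.1.1.1)) (v n y.1.1.1) (w n y.1.1.1) y.1.1.2 ∧
      LwC a b G (q n (f n y.1.1.1)) (i n (f n y.1.1.1)) (P n G X (f n y.1.1.1)) (v n y.1.1.1) (v n y.1.1.1) y.1.2 ∧
      UvC a G (q n (f n y.1.1.1)) (i n (f n y.1.1.1)) (P n G X (f n y.1.1.1)) (v n y.1.1.1) (w n y.1.1.1) y.2 ∧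
      nv y.2 + nv y.2 = nv s1 ∧ nv y.1.1.2 + nv s1 = nv y.1.2) h)))

private theorem D3_card {A : ∀ n : ℕ, SimpleGraph (Fin n) → Ctx n → E n → S n → Prop}
    (hA : DefP (E := fun n => E n × S n) (fun n G X y => A n G X y.1 y.2)) {g : ∀ n : ℕ, E n → S n} (hg : Tm g) :
    DefP (fun n G X x => nv (g n x) = Nat.card {d : S n // A n G X x d}) :=
  DefP.cardEq (S := S) (T := S) (A := fun n G X x t => key t < key (g n x)) (B := A)
    (DefP.keyLt (Tm.snd (F := E) (H := S) Tm.id) (hg.comp (Tm.fst (F := E) (H := S) Tm.id))) hA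

theorem def_StC (a b : ℕ) {P : ∀ n : ℕ, SimpleGraph (Fin n) → Ctx n → E n → Fin n → Fin n → S n → Prop}
    (hP : DefP (E := fun n => E n × (Fin n × (Fin n × S n))) (fun n G X y => P n G X y.1 y.2.1 y.2.2.1 y.2.2.2))
    {q : ∀ n : ℕ, E n → S n × (S n × S n)} (hq : Tm (F := fun n => S n × (S n × S n)) q) {i x y : ∀ n : ℕ, E n → Fin n} (hi : Tm (F := fun n => Fin n) i)
    (hx : Tm (F := fun n => Fin n) x) (hy : Tm (F := fun n => Fin n) y) {z : ∀ n : ℕ, E n → S n} (hz : Tm z) :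
    DefP (fun n G X e => StC a b G (q n e) (i n e) (P n G X e) (x n e) (y n e) (z n e)) := by
  have hf0 : Tm (fun n (y : E n) => y) := Tm.id
  have hH := D3_hh (E' := E) a b hP hq hi hf0 hx hy
  -- the environment of the cardinality
  have g1 : Tm (fun n (y : E n × S n) => y.1) := Tm.fst Tm.id
  have d1 : Tm (fun n (y : E n × S n) => y.2) := Tm.snd Tm.id
  have g2 : Tm (fun n (y : (E n × S n) × S n) => y.1.1) := g1.comp (Tm.fst Tm.id)
  have x2 : Tm (F := fun n => Fin n) (fun n (y : (E n × S n) × S n) => x n y.1.1) := hx.comp g2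
  have y2 : Tm (F := fun n => Fin n) (fun n (y' : (E n × S n) × S n) => y n y'.1.1) := hy.comp g2
  have d2 : Tm (fun n (y : (E n × S n) × S n) => y.1.2) := d1.comp (Tm.fst Tm.id)
  have e2 : Tm (fun n (y : (E n × S n) × S n) => y.2) := Tm.snd Tm.id
  have k1 := DefP.ex (F := S) (P := fun n G X (y' : E n × S n) (d' : S n) =>
      FvC a b G (q n y'.1) (i n y'.1) (P n G X y'.1) (x n y'.1) (y n y'.1) d' ∧ nv y'.2 < nv d')
    (DefP.and (D3_fv (E' := fun n => (E n × S n) × S n) a b hP hq hi g2 x2 y2 e2) (DefP.nLt d2 e2))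
  have g3 : Tm (fun n (y : ((E n × S n) × Fin n) × Fin n) => y.1.1.1) := g1.comp (Tm.fst (Tm.fst Tm.id))
  have x3 : Tm (F := fun n => Fin n) (fun n (y : ((E n × S n) × Fin n) × Fin n) => y.1.2) := Tm.snd (Tm.fst Tm.id)
  have y3 : Tm (F := fun n => Fin n) (fun n (y : ((E n × S n) × Fin n) × Fin n) => y.2) := Tm.snd Tm.id
  have d3 : Tm (fun n (y : ((E n × S n) × Fin n) × Fin n) => y.1.1.2) := d1.comp (Tm.fst (Tm.fst Tm.id))
  have k2 := DefP.exFin (P := fun n G X (y' : E n × S n) (v : Fin n) => ∃ w : Fin n,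
      HhC a b G (q n y'.1) (i n y'.1) (P n G X y'.1) v w ∧ FvC a b G (q n y'.1) (i n y'.1) (P n G X y'.1) v w y'.2)
    (DefP.exFin (P := fun n G X (y' : (E n × S n) × Fin n) (w : Fin n) =>
      HhC a b G (q n y'.1.1) (i n y'.1.1) (P n G X y'.1.1) y'.2 w ∧ FvC a b G (q n y'.1.1) (i n y'.1.1) (P n G X y'.1.1) y'.2 w y'.1.2)
      (DefP.and (D3_hh (E' := fun n => ((E n × S n) × Fin n) × Fin n) a b hP hq hi g3 x3 y3)
        (D3_fv (E' := fun n => ((E n × S n) × Fin n) × Fin n) a b hP hq hi g3 x3 y3 d3)))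
  exact DefP.and hH (D3_card (A := fun n G X e d => (∃ x' y' : Fin n, HhC a b G (q n e) (i n e) (P n G X e) x' y' ∧
      FvC a b G (q n e) (i n e) (P n G X e) x' y' d) ∧
      ∃ d' : S n, FvC a b G (q n e) (i n e) (P n G X e) (x n e) (y n e) d' ∧ nv d < nv d') (DefP.and k2 k1) hz)

end

end QSR
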