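import Pool.Agent.Lib.MP_0087d5_lcQS.SDefs

/-!
# Leaf S1 (medium): the coefficients

Proof: as `XC_sum`, `XC_det`, `XC_co` in PR/XC. For every `t : ℕ` the image in `ZMod p` of `ent … t x y` is the value at `t` of `C (bY …) * X ^ um …`: case distinction on `v = w` and on `x, y` in `{v, w}`; in the last case `∑ z, cnd (P x y z) ((t ^ K) ^ nv z) 0` is `(t ^ K) ^ ρ x y` if `A x y` (only one
`z`: `nv_injective`, `hρ`) and `0` otherwise. So the image of `zdet (ent … t)` is the value of the determinant of `wm (bY …) (um …)` at `t` (`zdet_eq`, `RingHom.map_det`), whose degree is at most `N * M` (each product in `Matrix.det_apply` has degree at most `∑ x, um … ≤ N * M`,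
`Polynomial.natDegree_sum_le`-type lemmas), and `sum_eval` (PR/XA) gives the coefficient `p - 1 - e = c`.
-/

set_option autoImplicit false
set_option linter.all false

namespace QSR

open Finset Pool.Agent Pool.Agent.PMNC MTC LIN PRS QRB

open Classical in
private theorem S1_sum {S : ℕ → Type} [Env S] [∀ n, Fintype (S n)] {n : ℕ} (p : S n) [Fact (nv p).Prime]
    (F : ZMod (nv p) → ZMod (nv p)) :
    ∑ x ∈ univ.filter (fun x : S n => nv x < nv p ∧ ¬ nv x = 0), F ((nv x : ℕ) : ZMod (nv p)) =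
      ∑ z ∈ univ.filter (fun z : ZMod (nv p) => z ≠ 0), F z := by
  refine Finset.sum_bij (fun x _ => ((nv x : ℕ) : ZMod (nv p))) ?_ ?_ ?_ ?_
  · intro x hx
    rw [Finset.mem_filter] at hx ⊢
    refine ⟨mem_univ _, fun h => ?_⟩
    rw [ZMod.natCast_eq_zero_iff] at h
    exact hx.2.2 (Nat.eq_zero_of_dvd_of_lt h hx.2.1)
  · intro x hx x' hx' h
    rw [Finset.mem_filter] at hx hx'
    have h1 := congrArg ZMod.val h
    rw [ZMod.val_natCast_of_lt hx.2.1, ZMod.val_natCast_of_lt hx'.2.1] at h1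
    exact nv_injective h1
  · intro z hz
    rw [Finset.mem_filter] at hz
    obtain ⟨x, hx⟩ := nv_down (b := p) (m := z.val) (ZMod.val_lt z)
    refine ⟨x, ?_, ?_⟩
    · rw [Finset.mem_filter]
      refine ⟨mem_univ _, by rw [hx]; exact ZMod.val_lt z, fun h => hz.2 ?_⟩
      rw [hx, ZMod.val_eq_zero] at h
      exact h
    · rw [hx, ZMod.natCast_zmod_val]
  · intro x _
    rfl

private theorem S1_rep {S : ℕ → Type} [Env S] [∀ n, Fintype (S n)] {N : ℕ} {P : Fin N → Fin N → S N → Prop}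
    {A : Fin N → Fin N → Prop} {ρ : Fin N → Fin N → ℕ} (hP : Rep P A ρ) (hρ : ∀ x y, ∃ z : S N, nv z = ρ x y)
    (g : ℕ → ℤ) (x y : Fin N) :
    ∑ z : S N, cnd (P x y z) (g (nv z)) 0 = cnd (A x y) (g (ρ x y)) 0 := by
  classical
  by_cases hA : A x y
  · obtain ⟨z0, hz0⟩ := hρ x y
    rw [cnd_pos hA, Finset.sum_eq_single z0]
    · rw [cnd_pos ((hP x y z0).2 ⟨hA, hz0⟩), hz0]
    · intro z _ hz
      refine cnd_neg (fun h => hz ?_) _ _
      exact nv_injective (((hP x y z).1 h).2.trans hz0.symm)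
    · intro h
      exact absurd (Finset.mem_univ _) h
  · rw [cnd_neg hA]
    refine Finset.sum_eq_zero fun z _ => ?_
    exact cnd_neg (fun h => hA ((hP x y z).1 h).1) _ _

private theorem S1_entry {S : ℕ → Type} [Env S] [∀ n, Fintype (S n)] {N : ℕ} (a b K m p : ℕ) (X : SimpleGraph (Fin N))
    (i : Fin N) {P : Fin N → Fin N → S N → Prop} {A : Fin N → Fin N → Prop} {ρ : Fin N → Fin N → ℕ} (hP : Rep P A ρ)
    (hρ : ∀ x y, ∃ z : S N, nv z = ρ x y) (r : ℕ) (hr : ∀ x y : Fin N, rz m (num 4 a X i ^ eid x y) = r ^ eid x y % m)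
    (v w : Fin N) (t : ℕ) (x y : Fin N) :
    ((ent a b K m X i P v w (t : ℤ) x y : ℤ) : ZMod p) =
      (bY p (Am A v w) (fun x y => ((zY a b m X x y : ℤ) : ZMod p)) x y) *
        (t : ZMod p) ^ um (UU K m (fun x y => eid x y) r ρ) v w x y := by
  have h0 : ∀ x y : Fin N, (∑ z : S N, cnd (P x y z) (((t : ℤ) ^ K) ^ nv z) 0) * (t : ℤ) ^ rz m (num 4 a X i ^ eid x y) =
      cnd (A x y) 1 0 * (t : ℤ) ^ UU K m (fun x y => eid x y) r ρ x y := by
    intro x y
    rw [S1_rep hP hρ (fun k => ((t : ℤ) ^ K) ^ k) x y, hr]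
    by_cases hA : A x y
    · rw [cnd_pos hA, cnd_pos hA, one_mul, ← pow_mul, ← pow_add]
      rfl
    · rw [cnd_neg hA, cnd_neg hA, zero_mul, zero_mul]
  unfold ent bY
  rw [h0]
  by_cases hvw : v = w
  · have e1 : ¬ (¬ v = w ∧ ((x = v ∧ y = w) ∨ (x = w ∧ y = v))) := fun h => h.1 hvw
    have e2 : ¬ (¬ v = w ∧ (x = v ∨ x = w ∨ y = v ∨ y = w)) := fun h => h.1 hvw
    rw [cnd_neg e1, cnd_neg e2]
    have e3 : um (UU K m (fun x y => eid x y) r ρ) v w x y = UU K m (fun x y => eid x y) r ρ x y :=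
      if_neg fun h => h.1 hvw
    rw [e3]
    by_cases hA : A x y
    · have e4 : zBr (Am A v w) x y = cnd (x < y) 1 (-1) := cnd_pos (Or.inl ⟨hvw, hA⟩) _ _
      rw [e4, cnd_pos hA]
      push_cast
      ring
    · have e4 : zBr (Am A v w) x y = 0 := by
        refine cnd_neg (fun h => ?_) _ _
        rcases h with h | h
        · exact hA h.2
        · exact h.1 hvw
      rw [e4, cnd_neg hA]
      push_cast
      ring
  · by_cases h1 : (x = v ∧ y = w) ∨ (x = w ∧ y = v)
    · rw [cnd_pos (⟨hvw, h1⟩ : ¬ v = w ∧ ((x = v ∧ y = w) ∨ (x = w ∧ y = v)))]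
      have e3 : um (UU K m (fun x y => eid x y) r ρ) v w x y = 0 := if_pos ⟨hvw, h1⟩
      have e4 : zBr (Am A v w) x y = cnd (x < y) 1 (-1) := cnd_pos (Or.inr ⟨hvw, Or.inr h1⟩) _ _
      rw [e3, e4]
      push_cast
      ring
    · have e1 : ¬ (¬ v = w ∧ ((x = v ∧ y = w) ∨ (x = w ∧ y = v))) := fun h => h1 h.2
      rw [cnd_neg e1]
      have e3 : um (UU K m (fun x y => eid x y) r ρ) v w x y = UU K m (fun x y => eid x y) r ρ x y :=
        if_neg fun h => h1 h.2
      rw [e3]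
      by_cases h2 : x = v ∨ x = w ∨ y = v ∨ y = w
      · rw [cnd_pos (⟨hvw, h2⟩ : ¬ v = w ∧ (x = v ∨ x = w ∨ y = v ∨ y = w))]
        have e4 : zBr (Am A v w) x y = 0 := by
          refine cnd_neg (fun h => ?_) _ _
          rcases h with h | ⟨_, h | h⟩
          · exact hvw h.1
          · rcases h2 with h2 | h2 | h2 | h2
            · exact h.2.1 h2
            · exact h.2.2.1 h2
            · exact h.2.2.2.1 h2
            · exact h.2.2.2.2 h2
          · exact h1 h
        rw [e4]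
        push_cast
        ring
      · have e2 : ¬ (¬ v = w ∧ (x = v ∨ x = w ∨ y = v ∨ y = w)) := fun h => h2 h.2
        rw [cnd_neg e2]
        by_cases hA : A x y
        · have e4 : zBr (Am A v w) x y = cnd (x < y) 1 (-1) := by
            refine cnd_pos ?_ _ _
            refine Or.inr ⟨hvw, Or.inl ⟨hA, ?_, ?_, ?_, ?_⟩⟩
            · exact fun h => h2 (Or.inl h)
            · exact fun h => h2 (Or.inr (Or.inl h))
            · exact fun h => h2 (Or.inr (Or.inr (Or.inl h)))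
            · exact fun h => h2 (Or.inr (Or.inr (Or.inr h)))
          rw [e4, cnd_pos hA]
          push_cast
          ring
        · have e4 : zBr (Am A v w) x y = 0 := by
            refine cnd_neg (fun h => ?_) _ _
            rcases h with h | ⟨_, h | h⟩
            · exact hvw h.1
            · exact hA h.1
            · exact h1 h
          rw [e4, cnd_neg hA]
          push_cast
          ring

private theorem S1_det {S : ℕ → Type} [Env S] [∀ n, Fintype (S n)] {N : ℕ} (a b K m p : ℕ) (X : SimpleGraph (Fin N))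
    (i : Fin N) {P : Fin N → Fin N → S N → Prop} {A : Fin N → Fin N → Prop} {ρ : Fin N → Fin N → ℕ} (hP : Rep P A ρ)
    (hρ : ∀ x y, ∃ z : S N, nv z = ρ x y) (r : ℕ) (hr : ∀ x y : Fin N, rz m (num 4 a X i ^ eid x y) = r ^ eid x y % m)
    (v w : Fin N) (t : ℕ) :
    ((zdet (T := fun n => Fin n) (ent a b K m X i P v w (t : ℤ)) : ℤ) : ZMod p) =
      (Pool.Agent.FRC.Uni.wm (bY p (Am A v w) (fun x y => ((zY a b m X x y : ℤ) : ZMod p)))
          (um (UU K m (fun x y => eid x y) r ρ) v w)).det.eval ((t : ℕ) : ZMod p) := by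
  rw [zdet_eq (T := fun n => Fin n) inferInstance]
  have h1 : ((Matrix.det (Matrix.of (ent a b K m X i P v w (t : ℤ))) : ℤ) : ZMod p) =
      Matrix.det ((Int.castRingHom (ZMod p)).mapMatrix (Matrix.of (ent a b K m X i P v w (t : ℤ)))) :=
    RingHom.map_det (Int.castRingHom (ZMod p)) _
  have h2 : (Pool.Agent.FRC.Uni.wm (bY p (Am A v w) (fun x y => ((zY a b m X x y : ℤ) : ZMod p)))
          (um (UU K m (fun x y => eid x y) r ρ) v w)).det.eval ((t : ℕ) : ZMod p) =
      Matrix.det ((Polynomial.evalRingHom ((t : ℕ) : ZMod p)).mapMatrix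
        (Pool.Agent.FRC.Uni.wm (bY p (Am A v w) (fun x y => ((zY a b m X x y : ℤ) : ZMod p)))
          (um (UU K m (fun x y => eid x y) r ρ) v w))) :=
    RingHom.map_det (Polynomial.evalRingHom ((t : ℕ) : ZMod p)) _
  rw [h1, h2]
  congr 1
  ext x y
  have h3 := S1_entry a b K m p X i hP hρ r hr v w t x y
  have h4 : (Polynomial.evalRingHom ((t : ℕ) : ZMod p)).mapMatrix
        (Pool.Agent.FRC.Uni.wm (bY p (Am A v w) (fun x y => ((zY a b m X x y : ℤ) : ZMod p)))
          (um (UU K m (fun x y => eid x y) r ρ) v w)) x y =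
      (bY p (Am A v w) (fun x y => ((zY a b m X x y : ℤ) : ZMod p)) x y) *
        (t : ZMod p) ^ um (UU K m (fun x y => eid x y) r ρ) v w x y := by
    simp [Pool.Agent.FRC.Uni.wm]
  rw [h4]
  exact h3

theorem cf_eq {S : ℕ → Type} [Env S] [∀ n, Fintype (S n)] {N : ℕ} (a b : ℕ) (X : SimpleGraph (Fin N)) (q : S N × (S N × S N)) [Fact (nv q.2.2).Prime]
    (i : Fin N) (P : Fin N → Fin N → S N → Prop) (A : Fin N → Fin N → Prop) (ρ : Fin N → Fin N → ℕ) (hP : Rep P A ρ) (hρ : ∀ x y, ∃ z : S N, nv z = ρ x y)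
    (r : ℕ) (hr : ∀ x y : Fin N, rz (nv q.2.1) (num 4 a X i ^ eid x y) = r ^ eid x y % nv q.2.1) (v w : Fin N) (M : ℕ)
    (hM : ∀ x y, UU (nv q.1) (nv q.2.1) (fun x y => eid x y) r ρ x y ≤ M) (hMp : N * M < nv q.2.2 - 1) (c : ℕ) (e : S N) (hce : c + nv e + 1 = nv q.2.2)
    (he : 1 ≤ nv e) :
    ((cfc a b X q i P v w e : ℤ) : ZMod (nv q.2.2)) =
      - (Pool.Agent.FRC.Uni.wm (bY (nv q.2.2) (Am A v w) (fun x y => ((zY a b (nv q.2.1) X x y : ℤ) : ZMod (nv q.2.2))))
          (um (UU (nv q.1) (nv q.2.1) (fun x y => eid x y) r ρ) v w)).det.coeff c := by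
  classical
  have hp : (nv q.2.2).Prime := Fact.out
  have hp1 := hp.one_lt
  obtain ⟨D, hD⟩ : ∃ D, D = (Pool.Agent.FRC.Uni.wm (bY (nv q.2.2) (Am A v w) (fun x y => ((zY a b (nv q.2.1) X x y : ℤ) : ZMod (nv q.2.2))))
          (um (UU (nv q.1) (nv q.2.1) (fun x y => eid x y) r ρ) v w)).det := ⟨_, rfl⟩
  have hdeg : D.natDegree < nv q.2.2 - 1 := by
    rw [hD]
    refine lt_of_le_of_lt (det_deg _ M fun x y => ?_) ?_
    · refine (Polynomial.natDegree_C_mul_X_pow_le _ _).trans ?_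
      unfold um
      split_ifs
      · exact Nat.zero_le _
      · exact hM x y
    · rw [Fintype.card_fin]
      exact hMp
  rw [← hD]
  have h1 := sum_eval (nv q.2.2) D hdeg (nv e) he (by omega)
  have h2 : nv q.2.2 - 1 - nv e = c := by omega
  rw [h2] at h1
  rw [← h1, ← S1_sum q.2.2 (fun z => z ^ nv e * D.eval z), Finset.sum_filter]
  unfold cfc
  rw [Int.cast_sum]
  refine Finset.sum_congr rfl fun t _ => ?_
  by_cases ht : nv t < nv q.2.2 ∧ ¬ nv t = 0
  · rw [cnd_pos ht, if_pos ht, Int.cast_mul, Int.cast_pow, Int.cast_natCast, S1_det a b _ _ _ X i hP hρ r hr v w (nv t), hD]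
  · rw [cnd_neg ht, if_neg ht, Int.cast_zero]

end QSR
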