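import Pool.Agent.Lib.MP_0087d5_lcQS.S1

/-!
# Leaf S2 (medium-): the computed least weights are correct

Proof. Let `D` be the determinant in `cf_eq` (leaf S1), `b = bY …` (skew-symmetric, diagonal `0`; `zY` and `eid` are symmetric; `Am A v w` is symmetric and irreflexive). By `cf_eq`, for `nv c' + nv e' + 1 = nv p`, `e' ≠ 0`: `nd p (cfc … e')` if and only if the coefficient of `D` at `nv c'` is not `0`.
By `PRS.coeff_zero` the coefficients of `D` at `k` vanish if all perfect matchings of `Am A v w` have weight larger than `k` (`Mt b f` iff `IsPM (Am A v w) f` at least in the direction `Mt → IsPM`: `b x y ≠ 0` implies `Am A v w x y`). (←) `LW … (nv c)`: the coefficient at `nv c` is not zero (`hg`), all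
smaller ones are; `e` with `nv e = nv p - 1 - nv c ≥ 1` exists (`nv_down`; `nv c ≤ N * M`). (→) the coefficient at `nv c` is not zero and all smaller ones are, so there is a perfect matching, let `c₀` be the least weight: the coefficient at `c₀ ≤ N * M` is not zero (`hg`), so `nv c ≤ c₀` (if `c₀ < nv c`
take `c'` with `nv c' = c₀`), and `c₀ ≤ nv c` by `coeff_zero`.
-/

set_option autoImplicit false
set_option linter.all false

namespace QSR

open Finset Pool.Agent Pool.Agent.PMNC MTC LIN PRS QRB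

private theorem S2_am_symm {V : Type} {A : V → V → Prop} (hs : ∀ x y, A x y → A y x) (v b x y : V)
    (h : Am A v b x y) : Am A v b y x := by
  rcases h with ⟨h1, h2⟩ | ⟨h1, ⟨h2, h3, h4, h5, h6⟩ | ⟨h2, h3⟩ | ⟨h2, h3⟩⟩
  · exact Or.inl ⟨h1, hs _ _ h2⟩
  · exact Or.inr ⟨h1, Or.inl ⟨hs _ _ h2, h5, h6, h3, h4⟩⟩
  · exact Or.inr ⟨h1, Or.inr (Or.inr ⟨h3, h2⟩)⟩
  · exact Or.inr ⟨h1, Or.inr (Or.inl ⟨h3, h2⟩)⟩

private theorem S2_am_irrefl {V : Type} {A : V → V → Prop} (hi : ∀ x, ¬ A x x) (v b x : V) : ¬ Am A v b x x := by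
  rintro (⟨h1, h2⟩ | ⟨h1, ⟨h2, h3, h4, h5, h6⟩ | ⟨h2, h3⟩ | ⟨h2, h3⟩⟩)
  · exact hi x h2
  · exact hi x h2
  · exact h1 (h2.symm.trans h3)
  · exact h1 (h3.symm.trans h2)

private theorem S2_um_symm {V : Type} [DecidableEq V] {u : V → V → ℕ} (hu : ∀ x y, u x y = u y x) (v b x y : V) :
    um u v b x y = um u v b y x := by
  unfold um
  by_cases h : v ≠ b ∧ ((x = v ∧ y = b) ∨ (x = b ∧ y = v))
  · rw [if_pos h, if_pos ⟨h.1, h.2.elim (fun h => Or.inr ⟨h.2, h.1⟩) fun h => Or.inl ⟨h.2, h.1⟩⟩]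
  · rw [if_neg h, if_neg fun h' => h ⟨h'.1, h'.2.elim (fun h => Or.inr ⟨h.2, h.1⟩) fun h => Or.inl ⟨h.2, h.1⟩⟩]
    exact hu x y

private theorem S2_um_le {V : Type} [DecidableEq V] {u : V → V → ℕ} {M : ℕ} (hu : ∀ x y, u x y ≤ M) (v b x y : V) :
    um u v b x y ≤ M := by
  unfold um
  split_ifs
  · exact Nat.zero_le _
  · exact hu x y

private theorem S2_uu_symm {N : ℕ} (K m r : ℕ) {ρ : Fin N → Fin N → ℕ} (hρs : ∀ x y, ρ x y = ρ y x) (x y : Fin N) :
    UU K m (fun x y => eid x y) r ρ x y = UU K m (fun x y => eid x y) r ρ y x := by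
  change K * ρ x y + r ^ eid x y % m = K * ρ y x + r ^ eid y x % m
  rw [hρs x y, eid_comm x y]

private theorem S2_zY_symm {N : ℕ} (a b m : ℕ) (X : SimpleGraph (Fin N)) (x y : Fin N) : zY a b m X x y = zY a b m X y x := by
  unfold zY
  rw [eid_comm x y]

private theorem S2_zBr_skew {N : ℕ} {A : Fin N → Fin N → Prop} (hs : ∀ x y, A x y → A y x) (hi : ∀ x, ¬ A x x) (x y : Fin N) :
    zBr A x y = - zBr A y x := by
  unfold zBr
  by_cases h : A x y
  · have h' := hs _ _ h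
    rw [cnd_pos h, cnd_pos h']
    rcases lt_trichotomy x y with h1 | h1 | h1
    · rw [cnd_pos h1, cnd_neg (not_lt.2 h1.le), neg_neg]
    · rw [h1] at h
      exact absurd h (hi y)
    · rw [cnd_pos h1, cnd_neg (not_lt.2 h1.le)]
  · rw [cnd_neg h, cnd_neg fun h' => h (hs _ _ h'), neg_zero]

private theorem S2_bY_skew {N p : ℕ} {A : Fin N → Fin N → Prop} (hs : ∀ x y, A x y → A y x) (hi : ∀ x, ¬ A x x)
    {Y : Fin N → Fin N → ZMod p} (hY : ∀ x y, Y x y = Y y x) (x y : Fin N) : bY p A Y x y = - bY p A Y y x := by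
  unfold bY
  rw [S2_zBr_skew hs hi x y, hY x y, Int.cast_neg, neg_mul]

private theorem S2_bY_diag {N p : ℕ} {A : Fin N → Fin N → Prop} (hi : ∀ x, ¬ A x x) (Y : Fin N → Fin N → ZMod p) (x : Fin N) :
    bY p A Y x x = 0 := by
  unfold bY zBr
  rw [cnd_neg (hi x), Int.cast_zero, zero_mul]

private theorem S2_bY_adj {N p : ℕ} {A : Fin N → Fin N → Prop} {Y : Fin N → Fin N → ZMod p} {x y : Fin N}
    (h : bY p A Y x y ≠ 0) : A x y := by
  by_contra h1
  apply h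
  unfold bY zBr
  rw [cnd_neg h1, Int.cast_zero, zero_mul]

private theorem S2_exists_lw {V : Type} [Fintype V] [DecidableEq V] {A : V → V → Prop} {u : V → V → ℕ} {f : V → V} (hf : MTC.IsPM A f) :
    ∃ c, LW A u c := by
  classical
  have h : ∃ c, ∃ f, MTC.IsPM A f ∧ MTC.tw u f = c := ⟨_, f, hf, rfl⟩
  refine ⟨Nat.find h, Nat.find_spec h, fun g hg => Nat.find_min' h ⟨g, hg, rfl⟩⟩

theorem lwc_iff {S : ℕ → Type} [Env S] [∀ n, Fintype (S n)] {N : ℕ} (a b : ℕ) (X : SimpleGraph (Fin N)) (q : S N × (S N × S N)) [Fact (nv q.2.2).Prime]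
    (hm0 : ¬ nv q.2.1 = 0) (i : Fin N) (P : Fin N → Fin N → S N → Prop) (A : Fin N → Fin N → Prop) (hs : ∀ x y, A x y → A y x) (hi : ∀ x, ¬ A x x)
    (ρ : Fin N → Fin N → ℕ) (hρs : ∀ x y, ρ x y = ρ y x) (hP : Rep P A ρ) (hρ : ∀ x y, ∃ z : S N, nv z = ρ x y)
    (r : ℕ) (hr : ∀ x y : Fin N, rz (nv q.2.1) (num 4 a X i ^ eid x y) = r ^ eid x y % nv q.2.1) (v w : Fin N) (M : ℕ)
    (hM : ∀ x y, UU (nv q.1) (nv q.2.1) (fun x y => eid x y) r ρ x y ≤ M) (hMp : N * M < nv q.2.2 - 1)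
    (hg : GoodY (nv q.2.2) (Am A v w) (um (UU (nv q.1) (nv q.2.1) (fun x y => eid x y) r ρ) v w) (fun x y => ((zY a b (nv q.2.1) X x y : ℤ) : ZMod (nv q.2.2))))
    (c : S N) : LwC a b X q i P v w c ↔ LW (Am A v w) (um (UU (nv q.1) (nv q.2.1) (fun x y => eid x y) r ρ) v w) (nv c) := by
  classical
  have hs' := S2_am_symm hs v w
  have hi' := S2_am_irrefl hi v w
  have hω := S2_um_symm (S2_uu_symm (nv q.1) (nv q.2.1) r hρs) v w
  have hωM := S2_um_le hM v w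
  have hY : ∀ x y : Fin N, ((zY a b (nv q.2.1) X x y : ℤ) : ZMod (nv q.2.2)) = ((zY a b (nv q.2.1) X y x : ℤ) : ZMod (nv q.2.2)) :=
    fun x y => by rw [S2_zY_symm]
  have hp0 : 0 < nv q.2.2 := (Fact.out : (nv q.2.2).Prime).pos
  have hcf : ∀ (c' : ℕ) (e' : S N), c' + nv e' + 1 = nv q.2.2 → 1 ≤ nv e' →
      (nd q.2.2 (cfc a b X q i P v w e') ↔
        (Pool.Agent.FRC.Uni.wm (bY (nv q.2.2) (Am A v w) (fun x y => ((zY a b (nv q.2.1) X x y : ℤ) : ZMod (nv q.2.2))))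
          (um (UU (nv q.1) (nv q.2.1) (fun x y => eid x y) r ρ) v w)).det.coeff c' ≠ 0) := by
    intro c' e' h1 h2
    rw [nd_iff hp0, cf_eq a b X q i P A ρ hP hρ r hr v w M hM hMp c' e' h1 h2, neg_ne_zero]
  have hz : ∀ k : ℕ, (∀ f, MTC.IsPM (Am A v w) f → k < MTC.tw (um (UU (nv q.1) (nv q.2.1) (fun x y => eid x y) r ρ) v w) f) →
      (Pool.Agent.FRC.Uni.wm (bY (nv q.2.2) (Am A v w) (fun x y => ((zY a b (nv q.2.1) X x y : ℤ) : ZMod (nv q.2.2))))
          (um (UU (nv q.1) (nv q.2.1) (fun x y => eid x y) r ρ) v w)).det.coeff k = 0 := by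
    intro k hk
    refine coeff_zero _ (S2_bY_diag hi' _) (S2_bY_skew hs' hi' hY) _ hω k fun m' hm' => ?_
    exact hk m' ⟨hm'.invol, fun x => S2_bY_adj (hm'.supp x)⟩
  have hbd : ∀ f, MTC.tw (um (UU (nv q.1) (nv q.2.1) (fun x y => eid x y) r ρ) v w) f ≤ N * M := by
    intro f
    refine (Finset.sum_le_card_nsmul _ _ M fun x _ => hωM x (f x)).trans ?_
    rw [Finset.card_univ, Fintype.card_fin, smul_eq_mul]
  constructor
  · rintro ⟨-, ⟨e, he0, hce, hnd⟩, hall⟩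
    have h1 := (hcf (nv c) e hce (Nat.one_le_iff_ne_zero.2 he0)).1 hnd
    have h2 : ∃ f, MTC.IsPM (Am A v w) f := by
      by_contra h3
      push Not at h3
      exact h1 (hz (nv c) fun f hf => absurd hf (h3 f))
    obtain ⟨f, hf⟩ := h2
    obtain ⟨c₀, hc₀⟩ := S2_exists_lw (u := um (UU (nv q.1) (nv q.2.1) (fun x y => eid x y) r ρ) v w) hf
    have h3 := hg c₀ hc₀
    have h4 : c₀ ≤ N * M := (hc₀.2 f hf).trans (hbd f)
    have h5 : c₀ ≤ nv c := by
      by_contra h6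
      exact h1 (hz (nv c) fun g hg' => lt_of_lt_of_le (not_le.1 h6) (hc₀.2 g hg'))
    have h6 : nv c ≤ c₀ := by
      by_contra h7
      obtain ⟨c', hc'⟩ := nv_down (b := c) (m := c₀) (not_le.1 h7)
      obtain ⟨e', he'⟩ := nv_down (b := q.2.2) (m := nv q.2.2 - 1 - c₀) (by omega)
      refine hall c' e' (by omega) (by omega) ?_
      refine (hcf (nv c') e' (by omega) (by omega)).2 ?_
      rw [hc']
      exact h3
    rw [le_antisymm h6 h5]
    exact hc₀
  · intro hc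
    obtain ⟨f, hf, hfc⟩ := hc.1
    have h1 : nv c ≤ N * M := hfc ▸ hbd f
    obtain ⟨e, he⟩ := nv_down (b := q.2.2) (m := nv q.2.2 - 1 - nv c) (by omega)
    refine ⟨hm0, ⟨e, by omega, by omega, (hcf (nv c) e (by omega) (by omega)).2 (hg _ hc)⟩, ?_⟩
    intro c' e' h2 h3 h4
    exact (hcf (nv c') e' h3 (by omega)).1 h4 (hz (nv c') fun g hg' => lt_of_lt_of_le h2 (hc.2 g hg'))

end QSR
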