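import Pool.Agent.Lib.MP_0087d5_lcQS.P2
import Pool.Agent.Lib.MP_0087d5_lcQS.K2

/-!
# Leaf C1 (medium): few bad choices of all the numbers

Proof. Let `R = 2 * Nat.log 2 N`, `Q = 2 ^ α * 2 ^ γ`. (1) The number of the `y` for which `WS … (rY c m y) R` is not isolating for `T`, times `Q`, is at most `R * N ^ C * 2 ^ γ * Q ^ (R + R)`: `hI` and `rc_count` (Q7) for the first components of the rows `Fin.castAdd R i` as in `bad_count` (Q11), `iso_ext`, `clog_le` (Q8); the other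
coordinates are free. (2) For fixed `i < R`, `v`, `w` and fixed first `R` rows, the graph `(St …).1` and the weights `UU …` are fixed, symmetric (`st_inv`, leaf K2; `Am A v w` is symmetric and irreflexive, `um` symmetric), and the number of the last `R` rows with `¬ GoodY`, times `Q`, is at most
`(R * N ^ C' * 2 ^ γ + N * (R * m) * 2 ^ α) * Q ^ R` (`bad2_count`, leaf P2); so with the `Q ^ R` choices of the first rows and the `R * (N * N)` choices of `i, v, w` (union bound). Split `y` by `Fin.appendEquiv` or `Fin.append`/`Fin.addCases`.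
-/

set_option autoImplicit false
set_option linter.all false

namespace QSR

open Finset Pool.Agent Pool.Agent.PMNC MTC LIN PRS QRB

/-- the numbers of the stages -/
def rY {R α γ : ℕ} (c m : ℕ) (y : Fin (R + R) → Fin (2 ^ α) × Fin (2 ^ γ)) (j : ℕ) : ℕ :=
  if h : j < R then (2 ^ c * ((y (Fin.castAdd R ⟨j, h⟩)).1 : ℕ)) % m else 0

/-- the substituted numbers of the test -/
noncomputable def YY {N R α γ : ℕ} (c c' m p : ℕ) (y : Fin (R + R) → Fin (2 ^ α) × Fin (2 ^ γ)) (x x' : Fin N) : ZMod p :=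
  ∏ j : Fin R, ((2 ^ c' * ((y (Fin.natAdd R j)).2 : ℕ) : ℕ) : ZMod p) ^ ((2 ^ c * ((y (Fin.natAdd R j)).1 : ℕ)) ^ eid x x' % m)

/-- all the numbers are good for the tested graph `T` -/
def GoodS {N R α γ : ℕ} (T : SimpleGraph (Fin N)) (K m p c c' : ℕ) (y : Fin (R + R) → Fin (2 ^ α) × Fin (2 ^ γ)) : Prop :=
  Iso T (WS (fun x x' => eid x x') K m (rY c m y) R) ∧ ∀ i < R, ∀ v w : Fin N,
    GoodY p (Am (St T.Adj (fun x x' => eid x x') K m (rY c m y) i).1 v w)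
      (um (UU K m (fun x x' => eid x x') (rY c m y i) (St T.Adj (fun x x' => eid x x') K m (rY c m y) i).2) v w) (YY c c' m p y)

private theorem C1_inj {α m c : ℕ} (hm : m.Prime) (hα : 1 ≤ α) (hm2 : 2 ^ α < m) :
    Function.Injective (fun x : Fin (2 ^ α) => 2 ^ c * (x : ℕ) % m) := by
  intro x y h
  have h1 : 2 ^ c * (x : ℕ) ≡ 2 ^ c * (y : ℕ) [MOD m] := h
  have h2 : Nat.gcd m (2 ^ c) = 1 := by
    refine Nat.Coprime.pow_right _ ?_
    rw [Nat.coprime_comm, Nat.coprime_two_left]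
    refine hm.odd_of_ne_two ?_
    have h3 : 2 ^ 1 ≤ 2 ^ α := Nat.pow_le_pow_right (by norm_num) hα
    omega
  have h3 := Nat.ModEq.cancel_left_of_coprime h2 h1
  have h4 := Nat.ModEq.eq_of_lt_of_lt h3 (x.2.trans hm2) (y.2.trans hm2)
  exact Fin.ext h4

private theorem C1_ws {V : Type} (e : V → V → ℕ) (K m : ℕ) (r : ℕ → ℕ) (i : ℕ) : WS e K m r i = QRB.WS e K m r i := by
  induction i with
  | zero => rfl
  | succ i ih =>
    funext u v
    change K * WS e K m r i u v + _ = K * QRB.WS e K m r i u v + _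
    rw [ih]

/-- splitting into two halves -/
private theorem C1_split {R : ℕ} {X : Type} [Fintype X] (Z : (Fin R → X) → (Fin R → X) → Prop) :
    Nat.card {y : Fin (R + R) → X // Z (fun i => y (Fin.castAdd R i)) (fun i => y (Fin.natAdd R i))} =
      ∑ y₁ : Fin R → X, Nat.card {y₂ : Fin R → X // Z y₁ y₂} := by
  classical
  have h1 : Nat.card {y : Fin (R + R) → X // Z (fun i => y (Fin.castAdd R i)) (fun i => y (Fin.natAdd R i))} =
      Nat.card {x : (Fin R → X) × (Fin R → X) // Z x.1 x.2} := by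
    refine Nat.card_congr ?_
    exact (Fin.appendEquiv R R).symm.subtypeEquiv fun y => Iff.rfl
  rw [h1, Nat.card_eq_fintype_card, Fintype.card_subtype, Finset.card_filter, Fintype.sum_prod_type]
  refine Finset.sum_congr rfl fun ρ _ => ?_
  rw [Nat.card_eq_fintype_card, Fintype.card_subtype, Finset.card_filter]

/-- the count over pairs -/
private theorem C1_pairs {R a g : ℕ} (Z : (Fin R → Fin a) → Prop) :
    Nat.card {y : Fin R → Fin a × Fin g // Z (fun i => (y i).1)} = Nat.card {ρ : Fin R → Fin a // Z ρ} * g ^ R := by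
  classical
  have h1 : Nat.card {y : Fin R → Fin a × Fin g // Z (fun i => (y i).1)} =
      Nat.card ({ρ : Fin R → Fin a // Z ρ} × (Fin R → Fin g)) := by
    refine Nat.card_congr ?_
    refine ((Equiv.arrowProdEquivProdArrow (Fin R) (fun _ => Fin a) (fun _ => Fin g)).subtypeEquiv
      (q := fun x => Z x.1) fun y => Iff.rfl).trans ?_
    exact
      { toFun := fun x => (⟨x.1.1, x.2⟩, x.1.2)
        invFun := fun x => ⟨(x.1.1, x.2), x.1.2⟩
        left_inv := fun _ => rfl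
        right_inv := fun _ => rfl }
  rw [h1, Nat.card_prod, Nat.card_eq_fintype_card (α := Fin R → Fin g), Fintype.card_fun, Fintype.card_fin, Fintype.card_fin]

/-- a predicate of the first coordinate -/
private theorem C1_const {A B : Type} [Fintype A] [Fintype B] (Z : A → Prop) :
    ∑ x : A, Nat.card {_y : B // Z x} = Nat.card {x // Z x} * Fintype.card B := by
  classical
  have h1 : ∀ x : A, Nat.card {_y : B // Z x} = if Z x then Fintype.card B else 0 := by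
    intro x
    rw [Nat.card_eq_fintype_card, Fintype.card_subtype]
    by_cases h : Z x
    · rw [if_pos h, Finset.filter_true_of_mem fun _ _ => h, Finset.card_univ]
    · rw [if_neg h, Finset.filter_false_of_mem fun _ _ => h, Finset.card_empty]
  rw [Finset.sum_congr rfl fun x _ => h1 x, ← Finset.sum_filter, Finset.sum_const, smul_eq_mul, Nat.card_eq_fintype_card,
    Fintype.card_subtype]

/-- union bound -/
private theorem C1_union0 {Y ι : Type} [Fintype Y] [Fintype ι] (W P : Y → Prop) (Z : ι → Y → Prop)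
    (h : ∀ y, W y → P y ∨ ∃ t, Z t y) :
    Nat.card {y // W y} ≤ Nat.card {y // P y} + ∑ t, Nat.card {y // Z t y} := by
  classical
  have h1 : ∀ W : Y → Prop, Nat.card {y // W y} = (univ.filter fun y => W y).card := by
    intro W
    rw [Nat.card_eq_fintype_card, Fintype.card_subtype]
  rw [h1, h1, Finset.sum_congr rfl fun t _ => h1 _]
  refine (Finset.card_le_card (t := (univ.filter fun y => P y) ∪ univ.biUnion fun t => univ.filter fun y => Z t y) ?_).trans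
    ((Finset.card_union_le _ _).trans ?_)
  · intro y hy
    rcases h y (Finset.mem_filter.1 hy).2 with h2 | ⟨t, ht⟩
    · exact Finset.mem_union_left _ (Finset.mem_filter.2 ⟨Finset.mem_univ _, h2⟩)
    · exact Finset.mem_union_right _ (Finset.mem_biUnion.2 ⟨t, Finset.mem_univ _, Finset.mem_filter.2 ⟨Finset.mem_univ _, ht⟩⟩)
  · exact Nat.add_le_add_left Finset.card_biUnion_le _

private theorem C1_union {Y ι : Type} [Fintype Y] [Fintype ι] (P : Y → Prop) (Z : ι → Y → Prop) :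
    Nat.card {y // ¬ (P y ∧ ∀ t, Z t y)} ≤ Nat.card {y // ¬ P y} + ∑ t, Nat.card {y // ¬ Z t y} := by
  refine C1_union0 _ _ _ fun y hy => ?_
  by_contra h
  push Not at h
  exact hy h

/-- the first count -/
private theorem C1_iso {C : ℕ} (hI : IsoMost C) {N α γ m K c R : ℕ} (hN : 2 ≤ N) (hR : Nat.clog 2 N ≤ R) (hm : m.Prime) (hα : 1 ≤ α)
    (hm2 : 2 ^ α < m) (hK : N * m < K) (T : SimpleGraph (Fin N)) (hT : HasPM T) :
    Nat.card {y : Fin (R + R) → Fin (2 ^ α) × Fin (2 ^ γ) //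
      ¬ Iso T (WS (fun x x' => eid x x') K m (rY c m y) R)} * (2 ^ α * 2 ^ γ) ≤
    (R * N ^ C * 2 ^ γ) * (2 ^ α * 2 ^ γ) ^ (R + R) := by
  classical
  obtain ⟨B, hB1, hB2, hB3⟩ := hI N hN m hm K hK T hT
  have hbad := rc_count (R := R) (M := N ^ C) (fun x : Fin (2 ^ α) => 2 ^ c * (x : ℕ) % m)
    (C1_inj hm hα hm2) B hB1 hB2
  have h1 : Nat.card {ρ : Fin R → Fin (2 ^ α) // ¬ Iso T (WS (fun x x' => eid x x') K m
        (QRB.ext (fun x : Fin (2 ^ α) => 2 ^ c * (x : ℕ) % m) ρ) R)} ≤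
      Nat.card {ρ : Fin R → Fin (2 ^ α) // ∃ i : Fin R,
        (fun x : Fin (2 ^ α) => 2 ^ c * (x : ℕ) % m) (ρ i) ∈ B i (QRB.ext (fun x : Fin (2 ^ α) => 2 ^ c * (x : ℕ) % m) ρ)} := by
    rw [Nat.card_eq_fintype_card, Nat.card_eq_fintype_card]
    refine Fintype.card_subtype_mono _ _ ?_
    intro ρ hρ
    by_contra h2
    apply hρ
    rw [C1_ws]
    refine iso_ext T eid K m hm.pos hK _ hR (hB3 _ fun i hi => ?_)
    have hi' : i < R := lt_of_lt_of_le hi hR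
    have h3 : QRB.ext (fun x : Fin (2 ^ α) => 2 ^ c * (x : ℕ) % m) ρ i = 2 ^ c * (ρ ⟨i, hi'⟩ : ℕ) % m := by
      unfold QRB.ext
      rw [dif_pos hi']
    refine ⟨?_, fun h4 => h2 ⟨⟨i, hi'⟩, ?_⟩⟩
    · rw [h3]
      exact Nat.mod_lt _ hm.pos
    · rw [h3] at h4
      exact h4
  have h2 := C1_split (R := R) (X := Fin (2 ^ α) × Fin (2 ^ γ)) (fun y₁ _ =>
    ¬ Iso T (WS (fun x x' => eid x x') K m (QRB.ext (fun x : Fin (2 ^ α) => 2 ^ c * (x : ℕ) % m) fun i => (y₁ i).1) R))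
  rw [C1_const (A := Fin R → Fin (2 ^ α) × Fin (2 ^ γ)) (B := Fin R → Fin (2 ^ α) × Fin (2 ^ γ)) (fun y₁ =>
    ¬ Iso T (WS (fun x x' => eid x x') K m (QRB.ext (fun x : Fin (2 ^ α) => 2 ^ c * (x : ℕ) % m) fun i => (y₁ i).1) R))] at h2
  have h3 := C1_pairs (R := R) (a := 2 ^ α) (g := 2 ^ γ) (fun ρ =>
    ¬ Iso T (WS (fun x x' => eid x x') K m (QRB.ext (fun x : Fin (2 ^ α) => 2 ^ c * (x : ℕ) % m) ρ) R))
  rw [h3, Fintype.card_fun, Fintype.card_prod, Fintype.card_fin, Fintype.card_fin, Fintype.card_fin] at h2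
  have h4 : Nat.card {y : Fin (R + R) → Fin (2 ^ α) × Fin (2 ^ γ) //
      ¬ Iso T (WS (fun x x' => eid x x') K m (rY c m y) R)} =
      Nat.card {ρ : Fin R → Fin (2 ^ α) // ¬ Iso T (WS (fun x x' => eid x x') K m
        (QRB.ext (fun x : Fin (2 ^ α) => 2 ^ c * (x : ℕ) % m) ρ) R)} * (2 ^ γ) ^ R * (2 ^ α * 2 ^ γ) ^ R := h2
  rw [h4]
  calc _ = (Nat.card {ρ : Fin R → Fin (2 ^ α) // ¬ Iso T (WS (fun x x' => eid x x') K m
        (QRB.ext (fun x : Fin (2 ^ α) => 2 ^ c * (x : ℕ) % m) ρ) R)} * 2 ^ α) * ((2 ^ γ) ^ R * (2 ^ α * 2 ^ γ) ^ R * 2 ^ γ) := by ring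
    _ ≤ (R * N ^ C * (2 ^ α) ^ R) * ((2 ^ γ) ^ R * (2 ^ α * 2 ^ γ) ^ R * 2 ^ γ) :=
        Nat.mul_le_mul_right _ ((Nat.mul_le_mul_right _ h1).trans hbad)
    _ = _ := by
        rw [pow_add, mul_pow (2 ^ α) (2 ^ γ) R]
        ring

private theorem C1_bad2 {C : ℕ} (hI : IsoMostW C) {N α γ m p c c' R : ℕ} (hN : 2 ≤ N) (hR : R = 2 * Nat.log 2 N) (hm : m.Prime)
    (hα : 1 ≤ α) (hm2 : 2 ^ α < m) (hp : p.Prime)
    (hp2 : p ≠ 2) (hγ : 2 ^ γ ≤ p) (A : Fin N → Fin N → Prop) (hs : ∀ x y, A x y → A y x) (hi : ∀ x, ¬ A x x) (ω : Fin N → Fin N → ℕ) (hω : ∀ x y, ω x y = ω y x) :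
    Nat.card {y : Fin R → Fin (2 ^ α) × Fin (2 ^ γ) //
      ¬ GoodY p A ω (fun x x' => ∏ j, ((2 ^ c' * ((y j).2 : ℕ) : ℕ) : ZMod p) ^ ((2 ^ c * ((y j).1 : ℕ)) ^ eid x x' % m))} * (2 ^ α * 2 ^ γ) ≤
    (R * N ^ C * 2 ^ γ + N * (R * m) * 2 ^ α) * (2 ^ α * 2 ^ γ) ^ R := by
  subst hR
  exact bad2_count hI hN hm hα hm2 hp hp2 hγ A hs hi ω hω

private theorem C1_Am {V : Type} (A : V → V → Prop) (hs : ∀ x y, A x y → A y x) (v b : V) : ∀ x y, Am A v b x y → Am A v b y x := by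
  intro x y h
  rcases h with ⟨h1, h2⟩ | ⟨h1, h2⟩
  · exact Or.inl ⟨h1, hs _ _ h2⟩
  · refine Or.inr ⟨h1, ?_⟩
    rcases h2 with ⟨h3, h4, h5, h6, h7⟩ | ⟨h3, h4⟩ | ⟨h3, h4⟩
    · exact Or.inl ⟨hs _ _ h3, h6, h7, h4, h5⟩
    · exact Or.inr (Or.inr ⟨h4, h3⟩)
    · exact Or.inr (Or.inl ⟨h4, h3⟩)

private theorem C1_Ai {V : Type} (A : V → V → Prop) (hi : ∀ x, ¬ A x x) (v b : V) : ∀ x, ¬ Am A v b x x := by
  intro x h
  rcases h with ⟨_, h2⟩ | ⟨h1, h2⟩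
  · exact hi _ h2
  · rcases h2 with ⟨h3, _⟩ | ⟨h3, h4⟩ | ⟨h3, h4⟩
    · exact hi _ h3
    · exact h1 (h3.symm.trans h4)
    · exact h1 (h4.symm.trans h3)

private theorem C1_um {V : Type} [DecidableEq V] (u : V → V → ℕ) (hu : ∀ x y, u x y = u y x) (v b : V) :
    ∀ x y, um u v b x y = um u v b y x := by
  intro x y
  unfold um
  by_cases h : v ≠ b ∧ ((x = v ∧ y = b) ∨ (x = b ∧ y = v))
  · have h' : v ≠ b ∧ ((y = v ∧ x = b) ∨ (y = b ∧ x = v)) := by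
      refine ⟨h.1, ?_⟩
      rcases h.2 with h1 | h1
      · exact Or.inr ⟨h1.2, h1.1⟩
      · exact Or.inl ⟨h1.2, h1.1⟩
    rw [if_pos h, if_pos h']
  · have h' : ¬ (v ≠ b ∧ ((y = v ∧ x = b) ∨ (y = b ∧ x = v))) := by
      intro h0
      apply h
      refine ⟨h0.1, ?_⟩
      rcases h0.2 with h1 | h1
      · exact Or.inr ⟨h1.2, h1.1⟩
      · exact Or.inl ⟨h1.2, h1.1⟩
    rw [if_neg h, if_neg h', hu]

/-- the second count, for one test -/
private theorem C1_test {C' : ℕ} (hW : IsoMostW C') {N α γ m p K c c' R : ℕ} (hN : 2 ≤ N) (hR : R = 2 * Nat.log 2 N) (hm : m.Prime)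
    (hα : 1 ≤ α) (hm2 : 2 ^ α < m) (hp : p.Prime) (hp2 : p ≠ 2) (hγ : 2 ^ γ ≤ p) (hK : N * m < K) (T : SimpleGraph (Fin N))
    (hT : HasPM T) (i : ℕ) (v w : Fin N) :
    Nat.card {y : Fin (R + R) → Fin (2 ^ α) × Fin (2 ^ γ) //
      ¬ GoodY p (Am (St T.Adj (fun x x' => eid x x') K m (rY c m y) i).1 v w)
      (um (UU K m (fun x x' => eid x x') (rY c m y i) (St T.Adj (fun x x' => eid x x') K m (rY c m y) i).2) v w)
      (YY c c' m p y)} * (2 ^ α * 2 ^ γ) ≤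
      (R * N ^ C' * 2 ^ γ + N * (R * m) * 2 ^ α) * (2 ^ α * 2 ^ γ) ^ (R + R) := by
  classical
  obtain ⟨r1, hr1⟩ : ∃ r1 : (Fin R → Fin (2 ^ α) × Fin (2 ^ γ)) → ℕ → ℕ, r1 = fun y₁ =>
    QRB.ext (fun x : Fin (2 ^ α) => 2 ^ c * (x : ℕ) % m) fun i => (y₁ i).1 := ⟨_, rfl⟩
  have h2 := C1_split (R := R) (X := Fin (2 ^ α) × Fin (2 ^ γ)) (fun y₁ y₂ =>
    ¬ GoodY p (Am (St T.Adj (fun x x' => eid x x') K m (r1 y₁) i).1 v w)
      (um (UU K m (fun x x' => eid x x') (r1 y₁ i) (St T.Adj (fun x x' => eid x x') K m (r1 y₁) i).2) v w)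
      (fun x x' => ∏ j, ((2 ^ c' * ((y₂ j).2 : ℕ) : ℕ) : ZMod p) ^ ((2 ^ c * ((y₂ j).1 : ℕ)) ^ eid x x' % m)))
  have h3 : Nat.card {y : Fin (R + R) → Fin (2 ^ α) × Fin (2 ^ γ) //
      ¬ GoodY p (Am (St T.Adj (fun x x' => eid x x') K m (rY c m y) i).1 v w)
      (um (UU K m (fun x x' => eid x x') (rY c m y i) (St T.Adj (fun x x' => eid x x') K m (rY c m y) i).2) v w)
      (YY c c' m p y)} = ∑ y₁ : Fin R → Fin (2 ^ α) × Fin (2 ^ γ), Nat.card {y₂ : Fin R → Fin (2 ^ α) × Fin (2 ^ γ) //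
      ¬ GoodY p (Am (St T.Adj (fun x x' => eid x x') K m (r1 y₁) i).1 v w)
      (um (UU K m (fun x x' => eid x x') (r1 y₁ i) (St T.Adj (fun x x' => eid x x') K m (r1 y₁) i).2) v w)
      (fun x x' => ∏ j, ((2 ^ c' * ((y₂ j).2 : ℕ) : ℕ) : ZMod p) ^ ((2 ^ c * ((y₂ j).1 : ℕ)) ^ eid x x' % m))} := by
    rw [hr1] at h2 ⊢
    exact h2
  rw [h3, Finset.sum_mul]
  have hT' : ∃ f, MTC.IsPM T.Adj f := by
    obtain ⟨f, hf⟩ := hasPM_iff.1 hT
    exact ⟨f, hf.1, hf.2⟩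
  have h4 : ∀ y₁ : Fin R → Fin (2 ^ α) × Fin (2 ^ γ), Nat.card {y₂ : Fin R → Fin (2 ^ α) × Fin (2 ^ γ) //
      ¬ GoodY p (Am (St T.Adj (fun x x' => eid x x') K m (r1 y₁) i).1 v w)
      (um (UU K m (fun x x' => eid x x') (r1 y₁ i) (St T.Adj (fun x x' => eid x x') K m (r1 y₁) i).2) v w)
      (fun x x' => ∏ j, ((2 ^ c' * ((y₂ j).2 : ℕ) : ℕ) : ZMod p) ^ ((2 ^ c * ((y₂ j).1 : ℕ)) ^ eid x x' % m))} *
        (2 ^ α * 2 ^ γ) ≤ (R * N ^ C' * 2 ^ γ + N * (R * m) * 2 ^ α) * (2 ^ α * 2 ^ γ) ^ R := by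
    intro y₁
    have h5 := st_inv T.Adj (fun x y h => h.symm) (fun x => T.irrefl) (fun x x' : Fin N => eid x x')
      (fun x y => eid_comm x y) K m hm.pos (by rw [Fintype.card_fin]; exact hK) (r1 y₁) hT' i
    refine C1_bad2 hW hN hR hm hα hm2 hp hp2 hγ _ (C1_Am _ h5.1 v w) (C1_Ai _ (fun x h => T.irrefl (h5.2.1 x x h)) v w) _
      (C1_um _ (fun x y => ?_) v w)
    unfold UU
    rw [h5.2.2.2.2.1 x y]
    dsimp only
    rw [eid_comm x y]
  refine (Finset.sum_le_sum fun y₁ _ => h4 y₁).trans ?_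
  rw [Finset.sum_const, Finset.card_univ, Fintype.card_fun, Fintype.card_prod, Fintype.card_fin, Fintype.card_fin, Fintype.card_fin,
    smul_eq_mul, pow_add]
  refine le_of_eq ?_
  ring

private theorem C1_main {C C' : ℕ} (hI : IsoMost C) (hW : IsoMostW C') {N α γ m p K c c' R : ℕ} (hN : 2 ≤ N) (hR : R = 2 * Nat.log 2 N)
    (hm : m.Prime) (hα : 1 ≤ α) (hm2 : 2 ^ α < m) (hp : p.Prime)
    (hp2 : p ≠ 2) (hγ : 2 ^ γ ≤ p) (hK : N * m < K) (T : SimpleGraph (Fin N)) (hT : HasPM T) :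
    Nat.card {y : Fin (R + R) → Fin (2 ^ α) × Fin (2 ^ γ) // ¬ GoodS T K m p c c' y} * (2 ^ α * 2 ^ γ) ≤
    (R * N ^ C * 2 ^ γ + R * (N * N) * (R * N ^ C' * 2 ^ γ + N * (R * m) * 2 ^ α)) * (2 ^ α * 2 ^ γ) ^ (R + R) := by
  classical
  have h1 := C1_union (Y := Fin (R + R) → Fin (2 ^ α) × Fin (2 ^ γ)) (ι := Fin R × (Fin N × Fin N))
    (fun y => Iso T (WS (fun x x' => eid x x') K m (rY c m y) R))
    (fun t y => GoodY p (Am (St T.Adj (fun x x' => eid x x') K m (rY c m y) (t.1 : ℕ)).1 t.2.1 t.2.2)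
      (um (UU K m (fun x x' => eid x x') (rY c m y (t.1 : ℕ)) (St T.Adj (fun x x' => eid x x') K m (rY c m y) (t.1 : ℕ)).2) t.2.1 t.2.2)
      (YY c c' m p y))
  have h2 : Nat.card {y : Fin (R + R) → Fin (2 ^ α) × Fin (2 ^ γ) // ¬ GoodS T K m p c c' y} ≤
      Nat.card {y : Fin (R + R) → Fin (2 ^ α) × Fin (2 ^ γ) // ¬ (Iso T (WS (fun x x' => eid x x') K m (rY c m y) R) ∧
        ∀ t : Fin R × (Fin N × Fin N), GoodY p (Am (St T.Adj (fun x x' => eid x x') K m (rY c m y) (t.1 : ℕ)).1 t.2.1 t.2.2)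
      (um (UU K m (fun x x' => eid x x') (rY c m y (t.1 : ℕ)) (St T.Adj (fun x x' => eid x x') K m (rY c m y) (t.1 : ℕ)).2) t.2.1 t.2.2)
      (YY c c' m p y))} := by
    rw [Nat.card_eq_fintype_card, Nat.card_eq_fintype_card]
    refine Fintype.card_subtype_mono _ _ ?_
    intro y hy h0
    exact hy ⟨h0.1, fun i hi v w => h0.2 (⟨i, hi⟩, (v, w))⟩
  refine (Nat.mul_le_mul_right _ (h2.trans h1)).trans ?_
  rw [add_mul, add_mul (R * N ^ C * 2 ^ γ), Finset.sum_mul]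
  refine Nat.add_le_add (C1_iso hI hN (hR ▸ clog_le hN) hm hα hm2 hK T hT) ?_
  refine (Finset.sum_le_sum fun t _ => C1_test hW hN hR hm hα hm2 hp hp2 hγ hK T hT (t.1 : ℕ) t.2.1 t.2.2).trans ?_
  rw [Finset.sum_const, Finset.card_univ, Fintype.card_prod, Fintype.card_prod, Fintype.card_fin, Fintype.card_fin, smul_eq_mul,
    mul_assoc (R * (N * N))]

theorem bad3_count {C C' : ℕ} (hI : IsoMost C) (hW : IsoMostW C') {N α γ m p K c c' : ℕ} (hN : 2 ≤ N) (hm : m.Prime) (hα : 1 ≤ α) (hm2 : 2 ^ α < m) (hp : p.Prime)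
    (hp2 : p ≠ 2) (hγ : 2 ^ γ ≤ p) (hK : N * m < K) (T : SimpleGraph (Fin N)) (hT : HasPM T) :
    Nat.card {y : Fin (2 * Nat.log 2 N + 2 * Nat.log 2 N) → Fin (2 ^ α) × Fin (2 ^ γ) // ¬ GoodS T K m p c c' y} * (2 ^ α * 2 ^ γ) ≤
    (2 * Nat.log 2 N * N ^ C * 2 ^ γ + 2 * Nat.log 2 N * (N * N) * (2 * Nat.log 2 N * N ^ C' * 2 ^ γ + N * (2 * Nat.log 2 N * m) * 2 ^ α)) *
      (2 ^ α * 2 ^ γ) ^ (2 * Nat.log 2 N + 2 * Nat.log 2 N) := by
  exact C1_main hI hW hN rfl hm hα hm2 hp hp2 hγ hK T hT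

end QSR
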