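import Pool.Agent.Lib.MP_0087d5_lcQS.S4
import Pool.Agent.Lib.MP_0087d5_lcQS.C1

/-!
# Leaf C2 (medium-): good numbers give the output

Proof. `q = (K, m, p)` in `S (n + n)` (`nv_surj` (S := S)). Apply `out_complete` (leaf S4) with `N = n + n`, `X = pair G A`, `r = rY c m y`, `c = 4 * L`, `c' = a * L`, `R = 2 * L`. `hr`: for `i < 2 L` the vertex `i` is `Fin.castAdd n _` (`i < n`), `num_pair` (Q10) and `hx` give `num 4 a (pair G A) i = 2 ^ (4 L) * (y i).1`, and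
`rz m (z ^ e) = z ^ e % m = (z % m) ^ e % m` (`Nat.pow_mod`). `hg`: `zY a b m (pair G A) x x'` in `ZMod p` is `YY … x x'` (the product over the vertices `j` with `2 L ≤ j < 4 L`, i.e. `Fin.natAdd R j` for `j : Fin R`; see `Q6`).
-/

set_option autoImplicit false
set_option linter.all false

namespace QSR

open Finset Pool.Agent Pool.Agent.PMNC MTC LIN PRS QRB

private theorem C2_rz (m z : ℕ) : rz m ((z : ℕ) : ℤ) = z % m := by
  unfold rz
  rw [← Int.natCast_mod, Int.toNat_natCast]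

private theorem C2_rzp (m z e : ℕ) : rz m (((z : ℕ) : ℤ) ^ e) = z ^ e % m := by
  rw [← Nat.cast_pow, C2_rz]

private theorem C2_num {n c c' R : ℕ} (hR : R ≤ n) (G A : SimpleGraph (Fin n)) (j : Fin R) (z : ℕ)
    (hz : dig (c * Nat.log 2 (n + n)) (c' * Nat.log 2 (n + n)) A (Fin.castLE hR j) = z) (i : Fin (n + n))
    (hi : (i : ℕ) = (j : ℕ)) : num c c' (pair G A) i = ((z : ℕ) : ℤ) := by
  have h1 : i = Fin.castAdd n (Fin.castLE hR j) := Fin.ext hi
  rw [h1, num_pair, hz]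

theorem out_of_code {S : ℕ → Type} [Env S] [∀ n, Fintype (S n)] {n a b m p K M α γ : ℕ} (hn : 1 ≤ n)
    (hR : 2 * Nat.log 2 (n + n) + 2 * Nat.log 2 (n + n) ≤ n) (hm : m.Prime) (hmS : m < (n + n) ^ dim S) (hp : p.Prime) (hpS : p < (n + n) ^ dim S)
    (hK : (n + n) * m < K) (hKS : K < (n + n) ^ dim S) (hM : K * (n + n) + m ≤ M) (hMp : (n + n) * M < p - 1) (hB : 4 * ((n + n) * M + M + 1) < (n + n) ^ dim S)
    (G A : SimpleGraph (Fin n)) (T : SimpleGraph (Fin (n + n))) (y : Fin (2 * Nat.log 2 (n + n) + 2 * Nat.log 2 (n + n)) → Fin (2 ^ α) × Fin (2 ^ γ))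
    (hx : ∀ i, dig (4 * Nat.log 2 (n + n)) (a * Nat.log 2 (n + n)) A (Fin.castLE hR i) = 2 ^ (4 * Nat.log 2 (n + n)) * ((y i).1 : ℕ))
    (hy : ∀ i, dig (a * Nat.log 2 (n + n)) (b * Nat.log 2 (n + n)) A (Fin.castLE hR i) = 2 ^ (a * Nat.log 2 (n + n)) * ((y i).2 : ℕ))
    (h : GoodS T K m p (4 * Nat.log 2 (n + n)) (a * Nat.log 2 (n + n)) y) :
    ∃ q : S (n + n) × (S (n + n) × S (n + n)), ∃ f, MTC.IsPM T.Adj f ∧ ∀ x x', OutR a b (pair G A) T q x x' ↔ f x = x' := by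
  obtain ⟨sK, rfl⟩ := nv_surj (S := S) hKS
  obtain ⟨sm, rfl⟩ := nv_surj (S := S) hmS
  obtain ⟨sp, rfl⟩ := nv_surj (S := S) hpS
  refine ⟨(sK, (sm, sp)), out_complete (S := S) (N := n + n) (by omega) a b (pair G A) T (sK, (sm, sp)) hm hp hK M hM hMp
    hB (by omega) (rY (4 * Nat.log 2 (n + n)) (nv sm) y) ?_ h.1 ?_⟩
  · intro i hi x x'
    have h1 : rY (4 * Nat.log 2 (n + n)) (nv sm) y i =
        (2 ^ (4 * Nat.log 2 (n + n)) * ((y (Fin.castAdd (2 * Nat.log 2 (n + n)) ⟨i, hi⟩)).1 : ℕ)) % nv sm := by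
      unfold rY
      rw [dif_pos hi]
    have h2 := C2_num hR G A (Fin.castAdd (2 * Nat.log 2 (n + n)) ⟨i, hi⟩) _ (hx _) i rfl
    rw [h1, h2]
    change rz (nv sm) _ = _ % nv sm
    rw [C2_rzp, ← Nat.pow_mod]
  · intro i hi v w
    have h1 : (fun x x' : Fin (n + n) => ((zY a b (nv sm) (pair G A) x x' : ℤ) : ZMod (nv sp))) =
        YY (4 * Nat.log 2 (n + n)) (a * Nat.log 2 (n + n)) (nv sm) (nv sp) y := by
      funext x x'
      unfold zY YY
      rw [Int.cast_prod]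
      symm
      refine Finset.prod_of_injOn (fun j : Fin (2 * Nat.log 2 (n + n)) =>
        (⟨2 * Nat.log 2 (n + n) + j, by have := j.2; omega⟩ : Fin (n + n))) ?_ ?_ ?_ ?_
      · intro j _ j' _ hjj
        have h3 := congrArg Fin.val hjj
        simp only at h3
        exact Fin.ext (by omega)
      · intro j _
        exact Finset.mem_coe.2 (Finset.mem_univ _)
      · intro j _ hj
        rw [cnd_neg, Int.cast_one]
        rintro ⟨h3, h4⟩
        refine hj ⟨⟨(j : ℕ) - 2 * Nat.log 2 (n + n), by omega⟩, Finset.mem_coe.2 (Finset.mem_univ _), Fin.ext ?_⟩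
        simp only
        omega
      · intro j _
        have hj := j.2
        have h3 := C2_num hR G A (Fin.natAdd (2 * Nat.log 2 (n + n)) j) _ (hx _)
          ⟨2 * Nat.log 2 (n + n) + j, by omega⟩ rfl
        have h4 := C2_num hR G A (Fin.natAdd (2 * Nat.log 2 (n + n)) j) _ (hy _)
          ⟨2 * Nat.log 2 (n + n) + j, by omega⟩ rfl
        rw [cnd_pos ⟨by simp only; omega, by simp only; omega⟩, h3, h4, C2_rzp, Int.cast_pow, Int.cast_natCast]
    change GoodY (nv sp) (Am (St T.Adj (fun x y => eid x y) (nv sK) (nv sm) (rY (4 * Nat.log 2 (n + n)) (nv sm) y) i).1 v w)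
      (um (UU (nv sK) (nv sm) (fun x y => eid x y) (rY (4 * Nat.log 2 (n + n)) (nv sm) y i)
        (St T.Adj (fun x y => eid x y) (nv sK) (nv sm) (rY (4 * Nat.log 2 (n + n)) (nv sm) y) i).2) v w)
      (fun x x' => ((zY a b (nv sm) (pair G A) x x' : ℤ) : ZMod (nv sp)))
    rw [h1]
    exact h.2 i hi v w

end QSR
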