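import Pool.Agent.Lib.MP_0087d5_lcQS.C2
import Pool.Agent.Lib.MP_0087d5_lcQB.Q9

/-!
# Leaf C3 (medium-): the probability of failure for one tested graph

Proof. As leaf Q13 of MP_0087d5_lcQB (`fail_count`, by helper64). `C₁ = max C C'`, `a' = C₁ + 5 + t`, `a = 4 + 2 * a'`, `g' = 4 * a' + 12 + t` (or larger), `b = a + 2 * g'`, `D = 2 * g' + 8` (or larger). `N = n + n`, `L = Nat.log 2 N`, `α = (a - 4) * L`, `γ = (b - a) * L`: `N ^ a' ≤ 2 ^ α ≤ N ^ (2 * a')`, `N ^ g' ≤ 2 ^ γ ≤ N ^ (2 * g')`. Primes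
`2 ^ α < m ≤ 2 ^ (α + 1)`, `2 ^ γ < p ≤ 2 ^ (γ + 1)`, `K = N * m + 1`, `M = K * N + m`, `N * M < p - 1` and `4 * (N * M + M + 1) < N ^ dim S`. `seed_count` (Q9) with `R := 2 * L + 2 * L`, `c0 = 4 * L`, `c1 = a * L`, `c2 = b * L`, `K := 2 * b * Nat.log 2 n`; `bad3_count` (leaf C1), `out_of_code` (leaf C2). `n0` such that for `n ≥ n0`:
`2 ≤ n`, `2 * Nat.log 2 (n + n) + 2 * Nat.log 2 (n + n) ≤ n`, `2 * b * Nat.log 2 n ≤ n`. Sum of the error terms: `R * N ^ C ≤ N ^ (C₁ + 1)`, `R * (N * N) * (R * N ^ C' * 2 ^ γ + N * (R * m) * 2 ^ α) ≤ N ^ (C₁ + 4) * 2 ^ γ + N ^ 5 * m * 2 ^ α`.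
-/

set_option autoImplicit false
set_option linter.all false

namespace QSR

open Finset Pool.Agent Pool.Agent.PMNC MTC LIN PRS QRB

private theorem C3_grow (c : ℕ) (hc : 1 ≤ c) : ∀ n : ℕ, 2 ^ (4 * c) ≤ n → 1 ≤ Nat.log 2 n ∧ c * Nat.log 2 n ≤ n := by
  intro n hn
  have hn0 : n ≠ 0 := by
    have : 0 < 2 ^ (4 * c) := by positivity
    omega
  have hL : 4 * c ≤ Nat.log 2 n := by
    have := Nat.log_mono_right (b := 2) hn
    rwa [Nat.log_pow (by norm_num)] at this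
  have hp : 2 ^ Nat.log 2 n ≤ n := Nat.pow_log_le_self 2 hn0
  refine ⟨by omega, ?_⟩
  set L := Nat.log 2 n with hLdef
  have h1 : L / 2 < 2 ^ (L / 2) := Nat.lt_two_pow_self
  have h2 : (L / 2 + 1) * (L / 2 + 1) ≤ 2 ^ (L / 2) * 2 ^ (L / 2) := Nat.mul_le_mul h1 h1
  have h3 : 2 ^ (L / 2) * 2 ^ (L / 2) ≤ 2 ^ L := by
    rw [← pow_add]
    exact Nat.pow_le_pow_right (by norm_num) (by omega)
  have h4 : c * L ≤ (L / 2 + 1) * (L / 2 + 1) := by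
    have h5 : L ≤ 2 * (L / 2) + 1 := by omega
    have h6 : 2 * c ≤ L / 2 := by omega
    nlinarith [Nat.mul_le_mul_left c h5, Nat.mul_le_mul_right (L / 2) h6]
  omega

private theorem C3_pmr {n : ℕ} {R : Fin n → Fin n → Prop} {f : Fin n → Fin n} (hf : ∀ v, f (f v) = v)
    (h : ∀ x x', R x x' ↔ f x = x') : PMr R :=
  ⟨fun u => ⟨f u, (h _ _).2 rfl⟩, fun u v w hv hw => ((h _ _).1 hv).symm.trans ((h _ _).1 hw),
    fun u v huv => (h _ _).2 (by rw [← (h _ _).1 huv, hf])⟩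

/-- the sizes of the parameters of the test -/
private theorem C3_size {N a' g' m p : ℕ} (hN : 2 ≤ N) (hg : g' = 4 * a' + 12) (hm : m ≤ N ^ (2 * a' + 1))
    (hp1 : N ^ g' < p) :
    N * m + 1 ≤ N ^ (2 * a' + 3) ∧ N * ((N * m + 1) * N + m) < p - 1 ∧
      4 * (N * ((N * m + 1) * N + m) + ((N * m + 1) * N + m) + 1) ≤ N ^ (2 * a' + 9) := by
  have h0 : ∀ e, 1 ≤ N ^ e := fun e => Nat.one_le_pow _ _ (by omega)
  have h1 : N * m ≤ N ^ (2 * a' + 2) := by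
    calc N * m ≤ N * N ^ (2 * a' + 1) := Nat.mul_le_mul_left _ hm
      _ = N ^ (2 * a' + 2) := by rw [pow_succ N (2 * a' + 1)]; ring
  have hstep : ∀ e, 2 * N ^ e ≤ N ^ (e + 1) := fun e => by
    rw [pow_succ, mul_comm]
    exact Nat.mul_le_mul_left _ hN
  have h2 : N * m + 1 ≤ N ^ (2 * a' + 3) := by
    have e1 : 2 * N ^ (2 * a' + 2) ≤ N ^ (2 * a' + 3) := hstep (2 * a' + 2)
    have e2 := h0 (2 * a' + 2)
    omega
  have h3 : (N * m + 1) * N ≤ N ^ (2 * a' + 4) := by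
    calc (N * m + 1) * N ≤ N ^ (2 * a' + 3) * N := Nat.mul_le_mul_right _ h2
      _ = N ^ (2 * a' + 4) := by rw [← pow_succ]
  have h4 : m ≤ N ^ (2 * a' + 4) := hm.trans (Nat.pow_le_pow_right (by omega) (by omega))
  have h5 : (N * m + 1) * N + m ≤ N ^ (2 * a' + 5) := by
    have e1 : 2 * N ^ (2 * a' + 4) ≤ N ^ (2 * a' + 5) := hstep (2 * a' + 4)
    omega
  have h6 : N * ((N * m + 1) * N + m) ≤ N ^ (2 * a' + 6) := by
    calc N * ((N * m + 1) * N + m) ≤ N * N ^ (2 * a' + 5) := Nat.mul_le_mul_left _ h5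
      _ = N ^ (2 * a' + 6) := by rw [pow_succ N (2 * a' + 5)]; ring
  refine ⟨h2, ?_, ?_⟩
  · have e1 := hstep (2 * a' + 6)
    have e2 := h0 (2 * a' + 6)
    have e3 : N ^ (2 * a' + 6 + 1) ≤ N ^ g' := Nat.pow_le_pow_right (by omega) (by omega)
    omega
  · have e1 := hstep (2 * a' + 6)
    have e2 := hstep (2 * a' + 7)
    have e3 := hstep (2 * a' + 8)
    have e4 := hstep (2 * a' + 5)
    have e5 := h0 (2 * a' + 5)
    have e6 : N ^ (2 * a' + 5 + 1) = N ^ (2 * a' + 6) := rfl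
    have e7 : N ^ (2 * a' + 6 + 1) = N ^ (2 * a' + 7) := rfl
    have e8 : N ^ (2 * a' + 7 + 1) = N ^ (2 * a' + 8) := rfl
    have e9 : N ^ (2 * a' + 8 + 1) = N ^ (2 * a' + 9) := rfl
    omega

/-- the sum of the error terms -/
private theorem C3_sum {N R C C' t a' g' m P Q F' Om : ℕ} (hN : 2 ≤ N) (hR : R ≤ N) (ha1 : C + 5 + t ≤ a') (ha2 : C' + 5 + t ≤ a')
    (hg : 2 * a' + 6 + t ≤ g') (hm : m ≤ N ^ (2 * a' + 1)) (hP : N ^ a' ≤ P) (hQ : N ^ g' ≤ Q)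
    (h : F' * (P * Q) ≤ (R * N ^ C * Q + R * (N * N) * (R * N ^ C' * Q + N * (R * m) * P)) * Om) :
    F' * N ^ t ≤ 3 * Om := by
  have hN0 : 0 < N := by omega
  have hP0 : 0 < P := lt_of_lt_of_le (pow_pos hN0 a') hP
  have hQ0 : 0 < Q := lt_of_lt_of_le (pow_pos hN0 g') hQ
  have hA : R * N ^ C * N ^ t ≤ P := by
    calc R * N ^ C * N ^ t ≤ N * N ^ C * N ^ t := by gcongr
      _ = N ^ (C + 1 + t) := by ring
      _ ≤ N ^ a' := Nat.pow_le_pow_right hN0 (by omega)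
      _ ≤ P := hP
  have hB : R * (N * N) * (R * N ^ C') * N ^ t ≤ P := by
    calc R * (N * N) * (R * N ^ C') * N ^ t ≤ N * (N * N) * (N * N ^ C') * N ^ t := by gcongr
      _ = N ^ (C' + 4 + t) := by ring
      _ ≤ N ^ a' := Nat.pow_le_pow_right hN0 (by omega)
      _ ≤ P := hP
  have hC : R * (N * N) * (N * (R * m)) * N ^ t ≤ Q := by
    calc R * (N * N) * (N * (R * m)) * N ^ t ≤ N * (N * N) * (N * (N * N ^ (2 * a' + 1))) * N ^ t := by gcongr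
      _ = N ^ (2 * a' + 6 + t) := by ring
      _ ≤ N ^ g' := Nat.pow_le_pow_right hN0 hg
      _ ≤ Q := hQ
  have hfin : F' * N ^ t * (P * Q) ≤ 3 * Om * (P * Q) := by
    calc F' * N ^ t * (P * Q) = F' * (P * Q) * N ^ t := by ring
      _ ≤ (R * N ^ C * Q + R * (N * N) * (R * N ^ C' * Q + N * (R * m) * P)) * Om * N ^ t := Nat.mul_le_mul_right _ h
      _ = (R * N ^ C * N ^ t * Q + R * (N * N) * (R * N ^ C') * N ^ t * Q + R * (N * N) * (N * (R * m)) * N ^ t * P) * Om := by ring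
      _ ≤ (P * Q + P * Q + Q * P) * Om := by gcongr
      _ = 3 * Om * (P * Q) := by ring
  exact Nat.le_of_mul_le_mul_right hfin (by positivity)

theorem fail2_count {C C' : ℕ} (hI : IsoMost C) (hW : IsoMostW C') (t : ℕ) : ∃ a b n0 D : ℕ, 2 ≤ n0 ∧ ∀ (S : ℕ → Type) [Env S] [∀ n, Fintype (S n)], D ≤ dim S →
    ∀ n : ℕ, n0 ≤ n → ∀ (G : SimpleGraph (Fin n)) (T : SimpleGraph (Fin (n + n))), HasPM T →
      Nat.card {A : SimpleGraph (Fin n) // Sup (2 * b * Nat.log 2 n) A ∧ ¬ ∃ q : S (n + n) × (S (n + n) × S (n + n)), PMr (OutR a b (pair G A) T q)} * (n + n) ^ t ≤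
        3 * Nat.card {A : SimpleGraph (Fin n) // Sup (2 * b * Nat.log 2 n) A} := by
  obtain ⟨a', ha'⟩ : ∃ a' : ℕ, a' = max C C' + 5 + t := ⟨_, rfl⟩
  obtain ⟨g', hg'⟩ : ∃ g' : ℕ, g' = 4 * (a' + t) + 12 := ⟨_, rfl⟩
  refine ⟨4 + 2 * (a' + t), 4 + 2 * (a' + t) + 2 * g', 2 ^ (4 * (2 * (4 + 2 * (a' + t) + 2 * g') + 8)), 2 * g' + 8, ?_, ?_⟩
  · calc 2 = 2 ^ 1 := by norm_num
      _ ≤ _ := Nat.pow_le_pow_right (by norm_num) (by omega)
  intro S _ _ hD n hn G T hT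
  obtain ⟨c', hc'⟩ : ∃ c' : ℕ, c' = a' + t := ⟨_, rfl⟩
  rw [← hc'] at hg' hn ⊢
  obtain ⟨a, ha⟩ : ∃ a : ℕ, a = 4 + 2 * c' := ⟨_, rfl⟩
  obtain ⟨b, hb⟩ : ∃ b : ℕ, b = 4 + 2 * c' + 2 * g' := ⟨_, rfl⟩
  rw [← hb] at hn ⊢
  rw [← ha]
  obtain ⟨hl1, hl2⟩ := C3_grow (2 * b + 8) (by omega) n hn
  have hn2 : 2 ≤ n := by
    have : 2 ^ Nat.log 2 n ≤ n := Nat.pow_log_le_self 2 (by
      rintro rfl
      simp at hl1)
    calc 2 = 2 ^ 1 := by norm_num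
      _ ≤ 2 ^ Nat.log 2 n := Nat.pow_le_pow_right (by norm_num) hl1
      _ ≤ n := this
  obtain ⟨L, hL⟩ : ∃ L : ℕ, L = Nat.log 2 (n + n) := ⟨_, rfl⟩
  have hLl : L = Nat.log 2 n + 1 := by
    rw [hL, ← two_mul, mul_comm, Nat.log_mul_base (by norm_num) (by omega)]
  obtain ⟨N, hN⟩ : ∃ N : ℕ, N = n + n := ⟨_, rfl⟩
  have hN2 : 2 ≤ N := by omega
  have hL1 : 1 ≤ L := by omega
  have hlin : 2 * b * Nat.log 2 n + 8 * Nat.log 2 n ≤ n := by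
    calc 2 * b * Nat.log 2 n + 8 * Nat.log 2 n = (2 * b + 8) * Nat.log 2 n := by ring
      _ ≤ n := hl2
  have hK : 2 * b * Nat.log 2 n ≤ n := by omega
  have hR : 2 * Nat.log 2 (n + n) + 2 * Nat.log 2 (n + n) ≤ n := by rw [← hL]; omega
  have h0 : 2 * Nat.log 2 (n + n) + 2 * Nat.log 2 (n + n) ≤ 4 * Nat.log 2 (n + n) := by omega
  have h1 : 4 * Nat.log 2 (n + n) ≤ a * Nat.log 2 (n + n) := Nat.mul_le_mul_right _ (by omega)
  have h2 : a * Nat.log 2 (n + n) ≤ b * Nat.log 2 (n + n) := Nat.mul_le_mul_right _ (by omega)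
  have h3 : b * Nat.log 2 (n + n) ≤ 2 * b * Nat.log 2 n := by
    rw [← hL, mul_assoc, mul_comm 2 (b * _), mul_assoc]
    exact Nat.mul_le_mul_left _ (by omega)
  obtain ⟨code, hcode, hcount⟩ := seed_count (n := n) (R := 2 * Nat.log 2 (n + n) + 2 * Nat.log 2 (n + n)) (c0 := 4 * Nat.log 2 (n + n))
    (c1 := a * Nat.log 2 (n + n)) (c2 := b * Nat.log 2 (n + n)) (K := 2 * b * Nat.log 2 n) h0 h1 h2 h3 hK hR
  obtain ⟨α, hα⟩ : ∃ α : ℕ, α = a * Nat.log 2 (n + n) - 4 * Nat.log 2 (n + n) := ⟨_, rfl⟩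
  obtain ⟨γ, hγ⟩ : ∃ γ : ℕ, γ = b * Nat.log 2 (n + n) - a * Nat.log 2 (n + n) := ⟨_, rfl⟩
  have hαe : α = L * 2 * c' := by
    rw [hα, ← hL, ha, ← Nat.sub_mul]
    rw [show 4 + 2 * c' - 4 = 2 * c' by omega]
    ring
  have hγe : γ = L * 2 * g' := by
    rw [hγ, ← hL, hb, ha, ← Nat.sub_mul]
    rw [show 4 + 2 * c' + 2 * g' - (4 + 2 * c') = 2 * g' by omega]
    ring
  have hLN : 2 ^ L ≤ N := by rw [hL, hN]; exact Nat.pow_log_le_self 2 (by omega)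
  have hNL : N ≤ 2 ^ (L * 2) := by
    have : N < 2 ^ (L + 1) := by rw [hL, hN]; exact Nat.lt_pow_succ_log_self (by norm_num) _
    exact this.le.trans (Nat.pow_le_pow_right (by norm_num) (by omega))
  have hα1 : 1 ≤ α := by
    rw [hαe]
    have : 1 ≤ c' := by omega
    nlinarith
  have hγ1 : 1 ≤ γ := by
    rw [hγe]
    have : 1 ≤ g' := by omega
    nlinarith
  have hαN : 2 ^ α ≤ N ^ (2 * c') := by
    rw [hαe, mul_assoc, pow_mul]
    exact Nat.pow_le_pow_left hLN _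
  have hγN : 2 ^ γ ≤ N ^ (2 * g') := by
    rw [hγe, mul_assoc, pow_mul]
    exact Nat.pow_le_pow_left hLN _
  have hNα : N ^ c' ≤ 2 ^ α := by
    rw [hαe, pow_mul]
    exact Nat.pow_le_pow_left hNL _
  have hNγ : N ^ g' ≤ 2 ^ γ := by
    rw [hγe, pow_mul]
    exact Nat.pow_le_pow_left hNL _
  obtain ⟨m, hm, hm1, hm2⟩ := Nat.exists_prime_lt_and_le_two_mul (2 ^ α) (by positivity)
  obtain ⟨p, hp, hp1, hp2⟩ := Nat.exists_prime_lt_and_le_two_mul (2 ^ γ) (by positivity)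
  have hmN : m ≤ N ^ (2 * c' + 1) := by
    calc m ≤ 2 * 2 ^ α := hm2
      _ ≤ N * N ^ (2 * c') := Nat.mul_le_mul hN2 hαN
      _ = N ^ (2 * c' + 1) := by rw [pow_succ]; ring
  have hpN : p ≤ N ^ (2 * g' + 1) := by
    calc p ≤ 2 * 2 ^ γ := hp2
      _ ≤ N * N ^ (2 * g') := Nat.mul_le_mul hN2 hγN
      _ = N ^ (2 * g' + 1) := by rw [pow_succ]; ring
  have hmS : m < (n + n) ^ dim S := by
    rw [← hN]
    exact lt_of_le_of_lt hmN (Nat.pow_lt_pow_right (by omega) (by omega))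
  have hpS : p < (n + n) ^ dim S := by
    rw [← hN]
    exact lt_of_le_of_lt hpN (Nat.pow_lt_pow_right (by omega) (by omega))
  have hpn2 : p ≠ 2 := by
    have : 2 ^ 1 ≤ 2 ^ γ := Nat.pow_le_pow_right (by norm_num) hγ1
    omega
  obtain ⟨hs1, hs2, hs3⟩ := C3_size hN2 hg' hmN (lt_of_le_of_lt hNγ hp1)
  obtain ⟨K, hKd⟩ : ∃ K : ℕ, K = (n + n) * m + 1 := ⟨_, rfl⟩
  have hKS : K < (n + n) ^ dim S := by
    rw [hKd, ← hN]
    exact lt_of_le_of_lt hs1 (Nat.pow_lt_pow_right (by omega) (by omega))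
  have hMp : (n + n) * (K * (n + n) + m) < p - 1 := by
    rw [hKd, ← hN]
    exact hs2
  have hBd : 4 * ((n + n) * (K * (n + n) + m) + (K * (n + n) + m) + 1) < (n + n) ^ dim S := by
    rw [hKd, ← hN]
    exact lt_of_le_of_lt hs3 (Nat.pow_lt_pow_right (by omega) (by omega))
  have hbad := bad3_count hI hW (N := n + n) (α := α) (γ := γ) (m := m) (p := p) (K := K) (c := 4 * Nat.log 2 (n + n))
    (c' := a * Nat.log 2 (n + n)) (by omega) hm hα1 hm1 hp hpn2 hp1.le (by omega) T hT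
  subst hα
  subst hγ
  set Bad : Set (Fin (2 * Nat.log 2 (n + n) + 2 * Nat.log 2 (n + n)) → Fin (2 ^ (a * Nat.log 2 (n + n) - 4 * Nat.log 2 (n + n))) ×
      Fin (2 ^ (b * Nat.log 2 (n + n) - a * Nat.log 2 (n + n)))) :=
    {y | ¬ GoodS T K m p (4 * Nat.log 2 (n + n)) (a * Nat.log 2 (n + n)) y} with hBad
  have hc := hcount Bad
  have hle : Nat.card {A : SimpleGraph (Fin n) // Sup (2 * b * Nat.log 2 n) A ∧
        ¬ ∃ q : S (n + n) × (S (n + n) × S (n + n)), PMr (OutR a b (pair G A) T q)} ≤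
      Nat.card {A : SimpleGraph (Fin n) // Sup (2 * b * Nat.log 2 n) A ∧ code A ∈ Bad} := by
    refine Nat.card_le_card_of_injective (fun A => ⟨A.1, A.2.1, ?_⟩) ?_
    · intro hgood
      refine A.2.2 ?_
      obtain ⟨q, f, hf, hq⟩ := out_of_code (S := S) (b := b) (by omega) hR hm hmS hp hpS (K := K) (M := K * (n + n) + m) (by omega) hKS
        le_rfl hMp hBd G A.1 T (code A.1) (fun i => (hcode A.1 i).1) (fun i => (hcode A.1 i).2) hgood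
      exact ⟨q, C3_pmr hf.1 hq⟩
    · intro A A' h
      apply Subtype.ext
      exact congrArg (fun x => x.1) h
  have hbad' : Nat.card Bad * (2 ^ (a * Nat.log 2 (n + n) - 4 * Nat.log 2 (n + n)) * 2 ^ (b * Nat.log 2 (n + n) - a * Nat.log 2 (n + n))) ≤
      (2 * Nat.log 2 (n + n) * (n + n) ^ C * 2 ^ (b * Nat.log 2 (n + n) - a * Nat.log 2 (n + n)) +
        2 * Nat.log 2 (n + n) * ((n + n) * (n + n)) * (2 * Nat.log 2 (n + n) * (n + n) ^ C' * 2 ^ (b * Nat.log 2 (n + n) - a * Nat.log 2 (n + n)) +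
        (n + n) * (2 * Nat.log 2 (n + n) * m) * 2 ^ (a * Nat.log 2 (n + n) - 4 * Nat.log 2 (n + n)))) *
        (2 ^ (a * Nat.log 2 (n + n) - 4 * Nat.log 2 (n + n)) * 2 ^ (b * Nat.log 2 (n + n) - a * Nat.log 2 (n + n))) ^
          (2 * Nat.log 2 (n + n) + 2 * Nat.log 2 (n + n)) := hbad
  obtain ⟨P, hP⟩ : ∃ P : ℕ, P = 2 ^ (a * Nat.log 2 (n + n) - 4 * Nat.log 2 (n + n)) := ⟨_, rfl⟩
  obtain ⟨Q, hQ⟩ : ∃ Q : ℕ, Q = 2 ^ (b * Nat.log 2 (n + n) - a * Nat.log 2 (n + n)) := ⟨_, rfl⟩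
  obtain ⟨R, hRd⟩ : ∃ R : ℕ, R = 2 * Nat.log 2 (n + n) := ⟨_, rfl⟩
  obtain ⟨Om, hOm⟩ : ∃ Om : ℕ, Om = Nat.card {A : SimpleGraph (Fin n) // Sup (2 * b * Nat.log 2 n) A} := ⟨_, rfl⟩
  obtain ⟨F', hF'⟩ : ∃ F' : ℕ, F' = Nat.card {A : SimpleGraph (Fin n) // Sup (2 * b * Nat.log 2 n) A ∧ code A ∈ Bad} := ⟨_, rfl⟩
  obtain ⟨Bc, hBc⟩ : ∃ Bc : ℕ, Bc = Nat.card Bad := ⟨_, rfl⟩
  have hRN : R ≤ N := by rw [hRd, hN]; exact log_le (by omega)
  rw [← hBc, ← hF', ← hOm, ← hP, ← hQ, ← hRd] at hc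
  rw [← hBc, ← hP, ← hQ, ← hRd, ← hN] at hbad'
  rw [← hP] at hNα
  rw [← hQ] at hNγ
  rw [← hF'] at hle
  rw [← hOm]
  have hP0 : 0 < P := by rw [hP]; positivity
  have hQ0 : 0 < Q := by rw [hQ]; positivity
  have hmain : F' * (P * Q) ≤ (R * N ^ C * Q + R * (N * N) * (R * N ^ C' * Q + N * (R * m) * P)) * Om := by
    have h5 : F' * (P * Q) * (P * Q) ^ (R + R) ≤
        (R * N ^ C * Q + R * (N * N) * (R * N ^ C' * Q + N * (R * m) * P)) * Om * (P * Q) ^ (R + R) := by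
      calc F' * (P * Q) * (P * Q) ^ (R + R) = F' * (P * Q) ^ (R + R) * (P * Q) := by ring
        _ = Bc * Om * (P * Q) := by rw [hc]
        _ = Bc * (P * Q) * Om := by ring
        _ ≤ ((R * N ^ C * Q + R * (N * N) * (R * N ^ C' * Q + N * (R * m) * P)) * (P * Q) ^ (R + R)) * Om :=
          Nat.mul_le_mul_right _ hbad'
        _ = (R * N ^ C * Q + R * (N * N) * (R * N ^ C' * Q + N * (R * m) * P)) * Om * (P * Q) ^ (R + R) := by ring
    exact Nat.le_of_mul_le_mul_right h5 (by positivity)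
  have hC1 : C ≤ max C C' := le_max_left _ _
  have hC2 : C' ≤ max C C' := le_max_right _ _
  calc _ ≤ F' * (n + n) ^ t := Nat.mul_le_mul_right _ hle
    _ = F' * N ^ t := by rw [← hN]
    _ ≤ 3 * Om := C3_sum (a' := c') (g' := g') hN2 hRN (by omega) (by omega) (by omega) hmN hNα hNγ hmain

end QSR
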