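import Pool.Agent.Lib.MP_0087d5_lcQS.D5
import Pool.Agent.Lib.MP_0087d5_lcQS.C3
import Pool.Agent.Lib.MP_0087d5_lcQS.F1
import Pool.Agent.Lib.MP_0087d5_lcPR.SFin

/-!
# Leaf F2 (medium-): assembly

Proof. As leaf Q15 of MP_0087d5_lcQB (`QRB.main`, by helper87) and `PRS.search` (PR/SFin): `fail2_count` (leaf C3) with `t = c + 5` gives `a, b, n0, D`; `exists_SS D` gives `S`. `M n G A` = the graph with `Adj u v := MQ S a b (pair G A) (castAdd u) (castAdd v)` (`mq_matching`, leaf F1), `U n G A := {w | UQ S a b (pair G A) (castAdd w)}`,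
`C := 2 * b`. Circuits: `bridgeR (rel2_of_defP …)`, `bridgeR (rel1_of_defP …)` with `def_MQ`, `def_UQ` (leaf D5). The count: `odd_eq` and `mq_main`; union bound over the `N + N ^ 2` graphs `T1 … d`, `T2 … (d, v)` (which do not depend on `A`: `t1_pair`, `t2_pair`, Q10), `N = n + n`: `(N + N ^ 2) * 3 ≤ N ^ 5`.
-/

set_option autoImplicit false
set_option linter.all false

namespace QSR

open Finset Pool.Agent Pool.Agent.PMNC MTC LIN PRS QRB

private theorem F2_union {α ι : Type} [Finite α] [Fintype ι] (P : α → Prop) (Q : ι → α → Prop)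
    (h : ∀ x, P x → ∃ i, Q i x) : Nat.card {x // P x} ≤ ∑ i, Nat.card {x // Q i x} := by
  classical
  have : Fintype α := Fintype.ofFinite α
  have e : ∀ R : α → Prop, Nat.card {x // R x} = (Finset.univ.filter R).card := fun R => by
    rw [Nat.card_eq_fintype_card, Fintype.card_subtype]
  rw [e P]
  simp_rw [e]
  refine le_trans (Finset.card_le_card
    (t := Finset.univ.biUnion fun i => Finset.univ.filter (Q i)) ?_) Finset.card_biUnion_le
  intro x hx
  rw [Finset.mem_filter] at hx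
  obtain ⟨i, hi⟩ := h x hx.2
  exact Finset.mem_biUnion.mpr ⟨i, Finset.mem_univ _, Finset.mem_filter.mpr ⟨Finset.mem_univ _, hi⟩⟩

private theorem F2_arith {N c B Ω n : ℕ} (hN : 2 ≤ N) (hn : n ≤ N)
    (h : B * N ^ (c + 5) ≤ (N + N * N) * (3 * Ω)) : n ^ c * B ≤ Ω := by
  have h1 : (N + N * N) * 3 ≤ N ^ 5 := by
    have h2 : N * 2 ≤ N * N := Nat.mul_le_mul_left N hN
    have h3 : 4 ≤ N * N := Nat.mul_le_mul hN hN
    have h4 : 4 * (N * N) ≤ N * N * (N * N) := Nat.mul_le_mul_right _ h3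
    have h5 : N ^ 5 = N * N * (N * N) * N := by ring
    have h6 : N * N * (N * N) * 2 ≤ N * N * (N * N) * N := Nat.mul_le_mul_left _ hN
    rw [h5]
    omega
  have h6 : (B * N ^ c) * N ^ 5 ≤ Ω * N ^ 5 := by
    calc (B * N ^ c) * N ^ 5 = B * N ^ (c + 5) := by ring
      _ ≤ (N + N * N) * (3 * Ω) := h
      _ = (N + N * N) * 3 * Ω := by ring
      _ ≤ N ^ 5 * Ω := Nat.mul_le_mul_right _ h1
      _ = Ω * N ^ 5 := Nat.mul_comm _ _
  have h7 : B * N ^ c ≤ Ω := Nat.le_of_mul_le_mul_right h6 (Nat.pow_pos (by omega))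
  calc n ^ c * B ≤ N ^ c * B := Nat.mul_le_mul_right _ (Nat.pow_le_pow_left hn c)
    _ = B * N ^ c := Nat.mul_comm _ _
    _ ≤ Ω := h7

/-- the matching -/
private def F2_MM (S : ℕ → Type) [Env S] [∀ n, Fintype (S n)] (a b n : ℕ) (G A : SimpleGraph (Fin n)) : SimpleGraph (Fin n) where
  Adj u v := MQ S a b (pair G A) (Fin.castAdd n u) (Fin.castAdd n v)
  symm := ⟨fun u v h => (mq_matching a b G A).2.1 u v h⟩
  loopless := ⟨fun u h => G.irrefl ((mq_matching a b G A).1 u u h)⟩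

theorem search {C1 C2 : ℕ} (hI : IsoMost C1) (hW : IsoMostW C2) (c : ℕ) : ∃ (M : ∀ n : ℕ, SimpleGraph (Fin n) → SimpleGraph (Fin n) → SimpleGraph (Fin n))
    (U : ∀ n : ℕ, SimpleGraph (Fin n) → SimpleGraph (Fin n) → Set (Fin n)) (C n0 : ℕ),
    AUG.RelNC2 2 (fun n G A x => (M n G A).Adj (x 0) (x 1)) ∧ AUG.RelNC2 1 (fun n G A x => x 0 ∈ U n G A) ∧
    (∀ (n : ℕ) (G A : SimpleGraph (Fin n)), M n G A ≤ G ∧ ∀ u v w, (M n G A).Adj u v → (M n G A).Adj u w → v = w) ∧
    ∀ n : ℕ, n0 ≤ n → ∀ G : SimpleGraph (Fin n),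
      n ^ c * Nat.card {A : SimpleGraph (Fin n) // (∀ u v, A.Adj u v → (u : ℕ) < C * Nat.log 2 n) ∧
        ((⊤ : G.Subgraph).deleteVerts (U n G A)).coe.oddComponents.ncard ≠ (U n G A).ncard + {v | ∀ w, ¬ (M n G A).Adj v w}.ncard} ≤
      Nat.card {A : SimpleGraph (Fin n) // ∀ u v, A.Adj u v → (u : ℕ) < C * Nat.log 2 n} := by
  obtain ⟨a, b, n0, D0, hn0, hF⟩ := fail2_count hI hW (c + 5)
  obtain ⟨S, i1, i2, hS⟩ := exists_SS D0
  refine ⟨fun n G A => F2_MM S a b n G A, fun n G A => {w | UQ S a b (pair G A) (Fin.castAdd n w)}, 2 * b, n0, ?_, ?_, ?_, ?_⟩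
  · exact bridgeR (rel2_of_defP (P := fun n G u v => MQ S a b G u v) (def_MQ a b))
  · exact bridgeR (rel1_of_defP (P := fun n G v => UQ S a b G v) (def_UQ a b))
  · intro n G A
    exact ⟨fun u v h => (mq_matching a b G A).1 u v h, fun u v w h1 h2 => (mq_matching a b G A).2.2 u v w h1 h2⟩
  · intro n hn G
    let T : Fin (n + n) ⊕ (Fin (n + n) × Fin (n + n)) → SimpleGraph (Fin (n + n)) :=
      Sum.elim (fun d => T1 (n + n) (pair G ⊥) d) (fun dv => T2 (n + n) (pair G ⊥) (dv.1, dv.2))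
    let Q : Fin (n + n) ⊕ (Fin (n + n) × Fin (n + n)) → SimpleGraph (Fin n) → Prop := fun i A =>
      Sup (2 * b * Nat.log 2 n) A ∧ HasPM (T i) ∧
        ¬ ∃ q : S (n + n) × (S (n + n) × S (n + n)), PMr (OutR a b (pair G A) (T i) q)
    have hQ : ∀ i, Nat.card {A // Q i A} * (n + n) ^ (c + 5) ≤
        3 * Nat.card {A : SimpleGraph (Fin n) // Sup (2 * b * Nat.log 2 n) A} := by
      intro i
      by_cases hT : HasPM (T i)
      · have h1 := hF S hS.ge n hn G (T i) hT
        refine le_trans (Nat.mul_le_mul_right _ ?_) h1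
        exact Nat.card_le_card_of_injective
          (fun A : {A // Q i A} => (⟨A.1, A.2.1, A.2.2.2⟩ :
            {A : SimpleGraph (Fin n) // Sup (2 * b * Nat.log 2 n) A ∧
              ¬ ∃ q : S (n + n) × (S (n + n) × S (n + n)), PMr (OutR a b (pair G A) (T i) q)}))
          (fun x y hxy => Subtype.ext (congrArg (fun z : {A : SimpleGraph (Fin n) //
            Sup (2 * b * Nat.log 2 n) A ∧
              ¬ ∃ q : S (n + n) × (S (n + n) × S (n + n)), PMr (OutR a b (pair G A) (T i) q)} => z.1) hxy))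
      · have h2 : IsEmpty {A // Q i A} := ⟨fun A => hT A.2.2.1⟩
        rw [Nat.card_of_isEmpty, Nat.zero_mul]
        exact Nat.zero_le _
    have hB : Nat.card {A : SimpleGraph (Fin n) // (∀ u v, A.Adj u v → (u : ℕ) < 2 * b * Nat.log 2 n) ∧
        ((⊤ : G.Subgraph).deleteVerts {w | UQ S a b (pair G A) (Fin.castAdd n w)}).coe.oddComponents.ncard ≠
          {w | UQ S a b (pair G A) (Fin.castAdd n w)}.ncard +
            {v | ∀ w, ¬ (F2_MM S a b n G A).Adj v w}.ncard} ≤ ∑ i, Nat.card {A // Q i A} := by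
      refine F2_union _ _ fun A hA => ?_
      by_contra hcon
      push Not at hcon
      have hAll : ∀ i, HasPM (T i) → ∃ q : S (n + n) × (S (n + n) × S (n + n)), PMr (OutR a b (pair G A) (T i) q) := by
        intro i hT
        by_contra hacc
        exact hcon i ⟨hA.1, hT, hacc⟩
      apply hA.2
      have h3 := mq_main (S := S) a b (by omega) G A
        (fun d hd => by
          rw [t1_pair G A ⊥] at hd ⊢
          exact hAll (Sum.inl d) hd)
        (fun d v hd => by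
          rw [t2_pair G A ⊥] at hd ⊢
          exact hAll (Sum.inr (d, v)) hd)
      rw [← odd_eq, ← Nat.card_coe_set_eq, ← Nat.card_coe_set_eq]
      exact h3
    refine F2_arith (N := n + n) (by omega) (by omega) ?_
    calc _ ≤ (∑ i, Nat.card {A // Q i A}) * (n + n) ^ (c + 5) := Nat.mul_le_mul_right _ hB
      _ = ∑ i, Nat.card {A // Q i A} * (n + n) ^ (c + 5) := Finset.sum_mul _ _ _
      _ ≤ ∑ _i : Fin (n + n) ⊕ (Fin (n + n) × Fin (n + n)),
          3 * Nat.card {A : SimpleGraph (Fin n) // Sup (2 * b * Nat.log 2 n) A} :=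
        Finset.sum_le_sum fun i _ => hQ i
      _ = _ := by
        rw [Finset.sum_const, Finset.card_univ, Fintype.card_sum, Fintype.card_prod, Fintype.card_fin,
          smul_eq_mul]
        rfl

end QSR
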