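import Pool.Agent.Lib.MP_0087d5_lcQS.SDefs
import Pool.Agent.Lib.MP_0087d5_lcQB.Q16
import Pool.Agent.Lib.MP_0087d5_lcQI.IsoW

/-!
# The isolation theorem with a start weight, for the labels `eid`
-/

set_option autoImplicit false
set_option linter.all false

namespace QSR

open Finset Pool.Agent Pool.Agent.PMNC MTC LIN PRS QRB

theorem ww_eq {V : Type} (ω : V → V → ℕ) (e : V → V → ℕ) (K m : ℕ) (r : ℕ → ℕ) (i : ℕ) :
    QIS.WW ω e K m r i = fun x y => K ^ i * ω x y + WS e K m r i x y := by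
  induction i with
  | zero =>
    funext x y
    show ω x y = K ^ 0 * ω x y + 0
    rw [pow_zero, one_mul, add_zero]
  | succ i ih =>
    funext x y
    show K * QIS.WW ω e K m r i x y + _ = K ^ (i + 1) * ω x y + (K * WS e K m r i x y + _)
    rw [ih]
    ring

theorem isoMostW : ∃ C, IsoMostW C := by
  obtain ⟨C, h⟩ := QIS.iso_most_w
  refine ⟨C, fun N hN m hm K hK A hs hi hM ω hω => ?_⟩
  obtain ⟨B, h1, h2, h3⟩ := h (Fin N) N hN (by rw [Fintype.card_fin]) (fun u v => eid u v) (lab_eid N) m hm K hK ω hω A hs hi hM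
  refine ⟨B, h1, h2, fun r hr => ?_⟩
  obtain ⟨f, hf, hf2⟩ := h3 r hr
  refine ⟨f, hf, fun f' hf' hne => ?_⟩
  have := hf2 f' hf' hne
  rw [ww_eq] at this
  exact this

end QSR
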