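import Pool.Agent.Lib.MP_0087d5_lcQS.SDefs

/-!
# Leaf P1 (medium): the coefficient at the least weight, as a polynomial

`coeff_ne`. Proof: let `c = tw ω f`, `D = (wm (bP p R A w) ω).det`, a polynomial over the domain `MvPolynomial (Fin R) (ZMod p)`. Its coefficients below `c` vanish (`PRS.coeff_zero` with `b = bP …`, skew-symmetric with diagonal `0`; `hmin`). Suppose that also the coefficient `c` vanishes.
Let `ψ` be the ring homomorphism from `Polynomial (MvPolynomial (Fin R) (ZMod p))` to `Polynomial (ZMod p)` with `X ↦ X ^ K ^ R`, `x_j ↦ X ^ K ^ (R - 1 - j)` (`Polynomial.eval₂RingHom (MvPolynomial.eval₂Hom C (fun j => X ^ K ^ (R - 1 - j))) (X ^ K ^ R)`). Then `X ^ (K ^ R * (c + 1))` divides `ψ D`, but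
`ψ D` is the determinant of `wm (fun x y => ((zBr A x y : ℤ) : ZMod p)) W` with `W x y = K ^ R * ω x y + ∑ j, K ^ (R - 1 - j) * w j x y` (`RingHom.map_det`), whose coefficient at `tw W f` is not zero (`Pool.Agent.FRC.Uni.coeff_det_wm` with `h`; see `XC_supp`, `XC_mt`, `XC_coeff` in PR/XC and
leaf `Q5` (`pM_ne`) in MP_0087d5_lcQB for these arguments), and `tw W f = K ^ R * c + tw (∑ …) f < K ^ R * (c + 1)`, since `tw (∑ …) f ≤ ∑ j, K ^ (R - 1 - j) * (N * m) ≤ ∑ j, K ^ (R - 1 - j) * (K - 1) = K ^ R - 1`.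
`coeff_deg`. Proof: `Matrix.det_apply`; each product of entries is `C (a monomial of degree ≤ N * (R * m)) * X ^ _` (`Polynomial.coeff_C_mul_X_pow`), see `pM_deg` in Q5.
`coeff_eval`. Proof: `Polynomial.coeff_map` and `RingHom.map_det` for `Polynomial.mapRingHom (MvPolynomial.eval ξ)`.
-/

set_option autoImplicit false
set_option linter.all false

namespace QSR

open Finset Pool.Agent Pool.Agent.PMNC MTC LIN PRS QRB

private theorem P1_zBr {N : ℕ} (A : Fin N → Fin N → Prop) (hs : ∀ x y, A x y → A y x) (hi : ∀ x, ¬ A x x) (x y : Fin N) :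
    zBr A x y = - zBr A y x := by
  unfold zBr
  by_cases h : A x y
  · have h' : A y x := hs x y h
    have hne : x ≠ y := fun e => hi y (e ▸ h)
    rw [cnd_pos h, cnd_pos h']
    rcases lt_or_gt_of_ne hne with h1 | h1
    · rw [cnd_pos h1, cnd_neg (not_lt.2 h1.le), neg_neg]
    · rw [cnd_neg (not_lt.2 h1.le), cnd_pos h1]
  · have h' : ¬ A y x := fun e => h (hs y x e)
    rw [cnd_neg h, cnd_neg h', neg_zero]

private theorem P1_supp {N P : ℕ} [Fact P.Prime] (A : Fin N → Fin N → Prop) (x y : Fin N) :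
    ((zBr A x y : ℤ) : ZMod P) ≠ 0 ↔ A x y := by
  unfold zBr
  by_cases h : A x y
  · rw [cnd_pos h]
    refine ⟨fun _ => h, fun _ => ?_⟩
    by_cases h1 : x < y
    · rw [cnd_pos h1, Int.cast_one]
      exact one_ne_zero
    · rw [cnd_neg h1, Int.cast_neg, Int.cast_one]
      exact neg_ne_zero.2 one_ne_zero
  · rw [cnd_neg h, Int.cast_zero]
    exact ⟨fun h1 => absurd rfl h1, fun h1 => absurd h1 h⟩

private theorem P1_geom (K M : ℕ) (hM : M < K) (R : ℕ) : (∑ i ∈ range R, K ^ i) * M < K ^ R := by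
  induction R with
  | zero =>
    rw [Finset.sum_range_zero, zero_mul, pow_zero]
    exact Nat.one_pos
  | succ R ih =>
    rw [Finset.sum_range_succ, add_mul]
    calc (∑ i ∈ range R, K ^ i) * M + K ^ R * M < K ^ R + K ^ R * M := Nat.add_lt_add_right ih _
      _ = K ^ R * (M + 1) := by ring
      _ ≤ K ^ R * K := Nat.mul_le_mul_left _ hM
      _ = K ^ (R + 1) := (pow_succ _ _).symm

private theorem P1_tw {N : ℕ} (R K m : ℕ) (hK : N * m < K) (ω : Fin N → Fin N → ℕ) (w : Fin R → Fin N → Fin N → ℕ)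
    (hwm : ∀ j x y, w j x y ≤ m) (f : Fin N → Fin N) :
    MTC.tw (fun x y => K ^ R * ω x y + ∑ j : Fin R, K ^ (R - 1 - (j : ℕ)) * w j x y) f < K ^ R * (MTC.tw ω f + 1) := by
  unfold MTC.tw
  rw [Finset.sum_add_distrib, ← Finset.mul_sum, mul_add, mul_one]
  refine Nat.add_lt_add_left ?_ _
  refine lt_of_le_of_lt ?_ (P1_geom K (N * m) hK R)
  rw [Finset.sum_comm]
  have h1 : ∑ i ∈ range R, K ^ i = ∑ j : Fin R, K ^ (R - 1 - (j : ℕ)) := by
    rw [Fin.sum_univ_eq_sum_range (fun j => K ^ (R - 1 - j)) R]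
    exact (Finset.sum_range_reflect (fun i => K ^ i) R).symm
  rw [h1, Finset.sum_mul]
  refine Finset.sum_le_sum fun j _ => ?_
  rw [← Finset.mul_sum]
  refine Nat.mul_le_mul_left _ ?_
  refine (Finset.sum_le_card_nsmul _ _ m fun x _ => hwm _ _ _).trans ?_
  rw [Finset.card_univ, Fintype.card_fin, smul_eq_mul]

/-- the substitution which puts all the weights together -/
private noncomputable def P1_psi (p R K : ℕ) : Polynomial (MvPolynomial (Fin R) (ZMod p)) →+* Polynomial (ZMod p) :=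
  Polynomial.eval₂RingHom (MvPolynomial.eval₂Hom (Polynomial.C : ZMod p →+* Polynomial (ZMod p))
    (fun j : Fin R => (Polynomial.X : Polynomial (ZMod p)) ^ K ^ (R - 1 - (j : ℕ)))) (Polynomial.X ^ K ^ R)

private theorem P1_map {N : ℕ} (p R K : ℕ) (A : Fin N → Fin N → Prop) (ω : Fin N → Fin N → ℕ) (w : Fin R → Fin N → Fin N → ℕ) :
    (P1_psi p R K).mapMatrix (Pool.Agent.FRC.Uni.wm (bP p R A w) ω) =
      Pool.Agent.FRC.Uni.wm (fun x y => ((zBr A x y : ℤ) : ZMod p))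
        (fun x y => K ^ R * ω x y + ∑ j : Fin R, K ^ (R - 1 - (j : ℕ)) * w j x y) := by
  refine Matrix.ext fun x y => ?_
  rw [RingHom.mapMatrix_apply, Matrix.map_apply]
  unfold P1_psi Pool.Agent.FRC.Uni.wm bP
  rw [Matrix.of_apply, Matrix.of_apply, map_mul, map_pow, Polynomial.coe_eval₂RingHom, Polynomial.eval₂_C, Polynomial.eval₂_X,
    map_mul, MvPolynomial.eval₂Hom_C, map_prod, pow_add, ← Finset.prod_pow_eq_pow_sum, ← pow_mul, mul_assoc,
    mul_comm (Polynomial.X ^ (K ^ R * ω x y))]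
  congr 2
  refine Finset.prod_congr rfl fun j _ => ?_
  rw [map_pow, MvPolynomial.eval₂Hom_X', ← pow_mul]

theorem coeff_ne {N : ℕ} (p R K m : ℕ) [Fact p.Prime] (hK : N * m < K) (A : Fin N → Fin N → Prop) (hs : ∀ x y, A x y → A y x) (hi : ∀ x, ¬ A x x)
    (ω : Fin N → Fin N → ℕ) (hω : ∀ x y, ω x y = ω y x) (w : Fin R → Fin N → Fin N → ℕ) (hw : ∀ j x y, w j x y = w j y x) (hwm : ∀ j x y, w j x y ≤ m)
    (f : Fin N → Fin N) (hmin : IsMin A ω f)
    (h : ∀ f', MTC.IsPM A f' → f' ≠ f → MTC.tw (fun x y => K ^ R * ω x y + ∑ j : Fin R, K ^ (R - 1 - (j : ℕ)) * w j x y) f <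
      MTC.tw (fun x y => K ^ R * ω x y + ∑ j : Fin R, K ^ (R - 1 - (j : ℕ)) * w j x y) f') :
    (Pool.Agent.FRC.Uni.wm (bP p R A w) ω).det.coeff (MTC.tw ω f) ≠ 0 := by
  intro hc
  have hskew : ∀ x y, bP p R A w x y = - bP p R A w y x := by
    intro x y
    unfold bP
    rw [P1_zBr A hs hi x y, Int.cast_neg, MvPolynomial.C_neg, neg_mul]
    refine congrArg Neg.neg (congrArg _ (Finset.prod_congr rfl fun j _ => ?_))
    rw [hw]
  have hz0 : ∀ x : Fin N, zBr A x x = 0 := fun x => by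
    unfold zBr
    rw [cnd_neg (hi x)]
  have hdiag : ∀ x, bP p R A w x x = 0 := by
    intro x
    unfold bP
    rw [hz0, Int.cast_zero, MvPolynomial.C_0, zero_mul]
  have hmt : ∀ m', Pool.Agent.FRC.Uni.Mt (bP p R A w) m' → MTC.IsPM A m' := by
    intro m' hm'
    refine ⟨hm'.invol, fun v => (P1_supp (P := p) A v (m' v)).1 fun h0 => hm'.supp v ?_⟩
    unfold bP
    rw [h0, MvPolynomial.C_0, zero_mul]
  have hlow : ∀ d < MTC.tw ω f + 1, (Pool.Agent.FRC.Uni.wm (bP p R A w) ω).det.coeff d = 0 := by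
    intro d hd
    rcases Nat.lt_succ_iff_lt_or_eq.1 hd with h1 | h1
    · exact PRS.coeff_zero (bP p R A w) hdiag hskew ω hω d fun m' hm' => lt_of_lt_of_le h1 (hmin.2 m' (hmt m' hm'))
    · rw [h1]
      exact hc
  have hdvd := Polynomial.X_pow_dvd_iff.2 hlow
  have hdvd2 := map_dvd (P1_psi p R K) hdvd
  have hX : (P1_psi p R K) (Polynomial.X ^ (MTC.tw ω f + 1)) = Polynomial.X ^ (K ^ R * (MTC.tw ω f + 1)) := by
    unfold P1_psi
    rw [map_pow, Polynomial.coe_eval₂RingHom, Polynomial.eval₂_X, pow_mul]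
  have hdet : (P1_psi p R K) (Pool.Agent.FRC.Uni.wm (bP p R A w) ω).det =
      (Pool.Agent.FRC.Uni.wm (fun x y => ((zBr A x y : ℤ) : ZMod p))
        (fun x y => K ^ R * ω x y + ∑ j : Fin R, K ^ (R - 1 - (j : ℕ)) * w j x y)).det := by
    rw [RingHom.map_det, P1_map]
  rw [hX, hdet] at hdvd2
  have hz := Polynomial.X_pow_dvd_iff.1 hdvd2 _ (P1_tw R K m hK ω w hwm f)
  have hb0 : ∀ x : Fin N, ((zBr A x x : ℤ) : ZMod p) = 0 := fun x => by rw [hz0, Int.cast_zero]
  have hb1 : ∀ x y : Fin N, ((zBr A x y : ℤ) : ZMod p) = - ((zBr A y x : ℤ) : ZMod p) := fun x y => by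
    rw [P1_zBr A hs hi x y, Int.cast_neg]
  have hmt0 : ∀ m', Pool.Agent.FRC.Uni.Mt (fun x y => ((zBr A x y : ℤ) : ZMod p)) m' ↔ MTC.IsPM A m' := by
    intro m'
    refine ⟨fun h1 => ⟨h1.invol, fun v => (P1_supp (P := p) A v (m' v)).1 (h1.supp v)⟩, fun h1 => ⟨h1.1, fun v h2 => ?_, fun v =>
      (P1_supp (P := p) A v (m' v)).2 (h1.2 v)⟩⟩
    have h3 := h1.2 v
    rw [h2] at h3
    exact hi v h3
  have hf := (hmt0 f).2 hmin.1
  have h1 := Pool.Agent.FRC.Uni.coeff_det_wm (fun x y => ((zBr A x y : ℤ) : ZMod p)) hb0 hb1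
    (fun x y => K ^ R * ω x y + ∑ j : Fin R, K ^ (R - 1 - (j : ℕ)) * w j x y)
    (fun x y => by
      rw [hω x y]
      exact congrArg _ (Finset.sum_congr rfl fun j _ => by rw [hw]))
    hf fun m' hm' hne => h m' ((hmt0 m').1 hm') hne
  rw [show (∑ v, (fun x y => K ^ R * ω x y + ∑ j : Fin R, K ^ (R - 1 - (j : ℕ)) * w j x y) v (f v)) =
    MTC.tw (fun x y => K ^ R * ω x y + ∑ j : Fin R, K ^ (R - 1 - (j : ℕ)) * w j x y) f from rfl, hz] at h1
  have h3 : (((Equiv.Perm.sign hf.perm : ℤ) : ZMod p) * ∏ x, ((zBr A (f x) x : ℤ) : ZMod p)) ≠ 0 := by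
    refine mul_ne_zero ?_ (Finset.prod_ne_zero_iff.2 fun x _ => ?_)
    · rcases Int.units_eq_one_or (Equiv.Perm.sign hf.perm) with e | e
      · rw [e]
        simp
      · rw [e]
        simp
    · rw [hb1]
      exact neg_ne_zero.2 (hf.supp x)
  exact h3 h1.symm

theorem coeff_deg {N : ℕ} (p R m : ℕ) [Fact p.Prime] (A : Fin N → Fin N → Prop) (ω : Fin N → Fin N → ℕ) (w : Fin R → Fin N → Fin N → ℕ)
    (hwm : ∀ j x y, w j x y ≤ m) (c : ℕ) : ((Pool.Agent.FRC.Uni.wm (bP p R A w) ω).det.coeff c).totalDegree ≤ N * (R * m) := by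
  rw [Matrix.det_apply, Polynomial.finsetSum_coeff]
  refine MvPolynomial.totalDegree_finsetSum_le fun σ _ => ?_
  have h0 : ∏ i, Pool.Agent.FRC.Uni.wm (bP p R A w) ω (σ i) i =
      Polynomial.C (∏ i, bP p R A w (σ i) i) * Polynomial.X ^ (∑ i, ω (σ i) i) := by
    unfold Pool.Agent.FRC.Uni.wm
    rw [map_prod, ← Finset.prod_pow_eq_pow_sum, ← Finset.prod_mul_distrib]
    rfl
  have h1 : (∏ i, bP p R A w (σ i) i).totalDegree ≤ N * (R * m) := by
    refine (MvPolynomial.totalDegree_finsetProd _ _).trans ?_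
    refine (Finset.sum_le_card_nsmul _ _ (R * m) fun i _ => ?_).trans ?_
    · unfold bP
      refine (MvPolynomial.totalDegree_mul _ _).trans ?_
      rw [MvPolynomial.totalDegree_C, zero_add]
      refine (MvPolynomial.totalDegree_finsetProd _ _).trans ?_
      refine (Finset.sum_le_card_nsmul _ _ m fun j _ => ?_).trans ?_
      · rw [MvPolynomial.totalDegree_X_pow]
        exact hwm _ _ _
      · rw [Finset.card_univ, Fintype.card_fin, smul_eq_mul]
    · rw [Finset.card_univ, Fintype.card_fin, smul_eq_mul]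
  have h2 : ((∏ i, Pool.Agent.FRC.Uni.wm (bP p R A w) ω (σ i) i).coeff c).totalDegree ≤ N * (R * m) := by
    rw [h0, Polynomial.coeff_C_mul_X_pow]
    split_ifs
    · exact h1
    · rw [MvPolynomial.totalDegree_zero]
      exact Nat.zero_le _
  rcases Int.units_eq_one_or (Equiv.Perm.sign σ) with e | e
  · rw [e, one_smul]
    exact h2
  · rw [e, Units.neg_smul, one_smul, Polynomial.coeff_neg, MvPolynomial.totalDegree_neg]
    exact h2

theorem coeff_eval {N : ℕ} (p R : ℕ) (A : Fin N → Fin N → Prop) (ω : Fin N → Fin N → ℕ) (w : Fin R → Fin N → Fin N → ℕ) (c : ℕ) (ξ : Fin R → ZMod p) :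
    MvPolynomial.eval ξ ((Pool.Agent.FRC.Uni.wm (bP p R A w) ω).det.coeff c) =
      (Pool.Agent.FRC.Uni.wm (bY p A (fun x y => ∏ j, ξ j ^ w j x y)) ω).det.coeff c := by
  have h1 : (Polynomial.mapRingHom (MvPolynomial.eval ξ)) (Pool.Agent.FRC.Uni.wm (bP p R A w) ω).det =
      (Pool.Agent.FRC.Uni.wm (bY p A (fun x y => ∏ j, ξ j ^ w j x y)) ω).det := by
    rw [RingHom.map_det]
    refine congrArg Matrix.det (Matrix.ext fun x y => ?_)
    rw [RingHom.mapMatrix_apply, Matrix.map_apply]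
    unfold Pool.Agent.FRC.Uni.wm bP bY
    rw [Matrix.of_apply, Matrix.of_apply, Polynomial.coe_mapRingHom, Polynomial.map_mul, Polynomial.map_C, Polynomial.map_pow,
      Polynomial.map_X, map_mul, MvPolynomial.eval_C, map_prod]
    refine congrArg (fun z : ZMod p => Polynomial.C (((zBr A x y : ℤ) : ZMod p) * z) * Polynomial.X ^ ω x y)
      (Finset.prod_congr rfl fun j _ => ?_)
    rw [map_pow, MvPolynomial.eval_X]
  rw [← h1, Polynomial.coe_mapRingHom, Polynomial.coeff_map]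

end QSR
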